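import Pool.Agent.TH498.HF.L1

/-!
# The size of the values of two coprime forms
-/

set_option autoImplicit false

namespace Pool.Agent.TH498.MT

open Finset Polynomial Pool.Agent.W4.CF Pool.Agent.W4.VC Pool.Agent.TH498.KB

/-- the real form -/
noncomputable def homR (f : ℤ[X]) (n : ℕ) (x y : ℝ) : ℝ :=
  ∑ j ∈ range (n + 1), (f.coeff j : ℝ) * x ^ j * y ^ (n - j)

theorem homR_cast (f : ℤ[X]) (n : ℕ) (a b : ℤ) :
    homR f n a b = ((hom f n a b : ℤ) : ℝ) := by
  unfold homR hom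
  push_cast
  rfl

theorem homR_smul (f : ℤ[X]) (n : ℕ) (c x y : ℝ) :
    homR f n (c * x) (c * y) = c ^ n * homR f n x y := by
  unfold homR
  rw [mul_sum]
  refine sum_congr rfl fun j hj => ?_
  have hj' : j ≤ n := Nat.lt_succ_iff.mp (mem_range.mp hj)
  have h1 : c ^ n = c ^ j * c ^ (n - j) := by rw [← pow_add, Nat.add_sub_cancel' hj']
  rw [h1, mul_pow, mul_pow]
  ring

theorem homR_eval (f : ℤ[X]) (n : ℕ) (hf : f.natDegree ≤ n) (x y : ℝ) (hy : y ≠ 0) :
    homR f n x y = y ^ n * (f.map (Int.castRingHom ℝ)).eval (x / y) := by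
  rw [eval_eq_sum_range' (n := n + 1) (by
    exact lt_of_le_of_lt (natDegree_map_le.trans hf) (Nat.lt_succ_self n))]
  unfold homR
  rw [mul_sum]
  refine sum_congr rfl fun j hj => ?_
  have hjn : j ≤ n := Nat.lt_succ_iff.mp (mem_range.mp hj)
  rw [coeff_map, div_pow]
  have h1 : y ^ n = y ^ (n - j) * y ^ j := by
    rw [← pow_add, Nat.sub_add_cancel hjn]
  rw [h1, eq_intCast]
  field_simp

theorem homR_zero (f : ℤ[X]) (n : ℕ) (x : ℝ) : homR f n x 0 = f.coeff n * x ^ n := by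
  unfold homR
  rw [sum_eq_single n]
  · simp
  · intro j hj hne
    have hj' : j ≤ n := Nat.lt_succ_iff.mp (mem_range.mp hj)
    rw [zero_pow (by omega), mul_zero]
  · intro h
    exact absurd (mem_range.mpr (Nat.lt_succ_self n)) h

theorem homR_cont (f : ℤ[X]) (n : ℕ) : Continuous fun p : ℝ × ℝ => homR f n p.1 p.2 := by
  unfold homR
  fun_prop

theorem form_size (A B : ℤ[X]) (k : ℕ) (hk : 1 ≤ k) (hA : A.natDegree ≤ 4 * k)
    (hB : B.natDegree ≤ 6 * k) (hlead : A.natDegree = 4 * k ∨ B.natDegree = 6 * k)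
    (hcop : IsCoprime (A.map (Int.castRingHom ℚ)) (B.map (Int.castRingHom ℚ))) :
    ∃ c : ℝ, 0 < c ∧ ∀ a b : ℤ, c * (max |(a : ℝ)| |(b : ℝ)|) ^ (12 * k) ≤
      max (|((hom A (4 * k) a b : ℤ) : ℝ)| ^ 3) (((hom B (6 * k) a b : ℤ) : ℝ) ^ 2) := by
  set g : ℝ × ℝ → ℝ := fun p => max (|homR A (4 * k) p.1 p.2| ^ 3) ((homR B (6 * k) p.1 p.2) ^ 2)
    with hg
  have hgc : Continuous g := by
    have h1 := homR_cont A (4 * k)
    have h2 := homR_cont B (6 * k)
    exact (h1.abs.pow 3).max (h2.pow 2)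
  set S : Set (ℝ × ℝ) := Metric.sphere (0 : ℝ × ℝ) 1 with hS
  have hcomp : IsCompact S := isCompact_sphere _ _
  have hne : S.Nonempty := ⟨(1, 0), by
    rw [hS, mem_sphere_zero_iff_norm, Prod.norm_mk]
    simp⟩
  obtain ⟨p0, hp0, hmin⟩ := hcomp.exists_isMinOn hne hgc.continuousOn
  have hpos : 0 < g p0 := by
    by_contra hcon
    have h0 : g p0 = 0 := le_antisymm (not_lt.mp hcon)
      (le_max_of_le_left (pow_nonneg (abs_nonneg _) 3))
    have hA0 : homR A (4 * k) p0.1 p0.2 = 0 := by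
      have h1 : |homR A (4 * k) p0.1 p0.2| ^ 3 ≤ 0 := by rw [← h0]; exact le_max_left _ _
      have h2 : |homR A (4 * k) p0.1 p0.2| ^ 3 = 0 :=
        le_antisymm h1 (pow_nonneg (abs_nonneg _) 3)
      exact abs_eq_zero.mp (pow_eq_zero_iff (by norm_num) |>.mp h2)
    have hB0 : homR B (6 * k) p0.1 p0.2 = 0 := by
      have h1 : (homR B (6 * k) p0.1 p0.2) ^ 2 ≤ 0 := by rw [← h0]; exact le_max_right _ _
      exact pow_eq_zero_iff (by norm_num) |>.mp (le_antisymm h1 (sq_nonneg _))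
    by_cases hy : p0.2 = 0
    · have hx : p0.1 ≠ 0 := by
        intro hx
        rw [hS, mem_sphere_zero_iff_norm] at hp0
        have : p0 = 0 := Prod.ext hx hy
        rw [this, norm_zero] at hp0
        exact zero_ne_one hp0
      rw [hy, homR_zero] at hA0 hB0
      rcases hlead with h | h
      · have h1 : (A.coeff (4 * k) : ℝ) = 0 :=
          (mul_eq_zero.mp hA0).resolve_right (pow_ne_zero _ hx)
        have h2 : A.coeff (4 * k) = 0 := by exact_mod_cast h1
        rw [← h] at h2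
        have h3 : A = 0 := leadingCoeff_eq_zero.mp h2
        rw [h3, natDegree_zero] at h
        omega
      · have h1 : (B.coeff (6 * k) : ℝ) = 0 :=
          (mul_eq_zero.mp hB0).resolve_right (pow_ne_zero _ hx)
        have h2 : B.coeff (6 * k) = 0 := by exact_mod_cast h1
        rw [← h] at h2
        have h3 : B = 0 := leadingCoeff_eq_zero.mp h2
        rw [h3, natDegree_zero] at h
        omega
    · rw [homR_eval A _ hA _ _ hy] at hA0
      rw [homR_eval B _ hB _ _ hy] at hB0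
      have h1 := (mul_eq_zero.mp hA0).resolve_left (pow_ne_zero _ hy)
      have h2 := (mul_eq_zero.mp hB0).resolve_left (pow_ne_zero _ hy)
      obtain ⟨P, Q, hPQ⟩ := hcop
      have h3 := congrArg (fun f : ℚ[X] => (f.map (algebraMap ℚ ℝ)).eval (p0.1 / p0.2)) hPQ
      simp only [Polynomial.map_add, Polynomial.map_mul, eval_add, eval_mul, Polynomial.map_one,
        eval_one, Polynomial.map_map] at h3
      have h4 : (algebraMap ℚ ℝ).comp (Int.castRingHom ℚ) = Int.castRingHom ℝ :=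
        RingHom.ext_int _ _
      rw [h4, h1, h2, mul_zero, mul_zero, add_zero] at h3
      exact zero_ne_one h3
  refine ⟨g p0, hpos, ?_⟩
  intro a b
  set H : ℝ := max |(a : ℝ)| |(b : ℝ)| with hH
  have hH0 : 0 ≤ H := le_max_of_le_left (abs_nonneg _)
  rcases eq_or_lt_of_le hH0 with h0 | h0
  · rw [← h0, zero_pow (by omega), mul_zero]
    exact le_max_of_le_left (pow_nonneg (abs_nonneg _) 3)
  have hmem : ((a : ℝ) / H, (b : ℝ) / H) ∈ S := by
    rw [hS, mem_sphere_zero_iff_norm, Prod.norm_mk, Real.norm_eq_abs, Real.norm_eq_abs, abs_div,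
      abs_div, abs_of_pos h0, max_div_div_right h0.le, ← hH, div_self h0.ne']
  have h1 : g p0 ≤ g ((a : ℝ) / H, (b : ℝ) / H) := hmin hmem
  have ea : (a : ℝ) = H * ((a : ℝ) / H) := by field_simp
  have eb : (b : ℝ) = H * ((b : ℝ) / H) := by field_simp
  have e1 : ((hom A (4 * k) a b : ℤ) : ℝ) = H ^ (4 * k) * homR A (4 * k) (a / H) (b / H) := by
    rw [← homR_cast, ← homR_smul, ← ea, ← eb]
  have e2 : ((hom B (6 * k) a b : ℤ) : ℝ) = H ^ (6 * k) * homR B (6 * k) (a / H) (b / H) := by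
    rw [← homR_cast, ← homR_smul, ← ea, ← eb]
  rw [e1, e2]
  have e3 : |H ^ (4 * k) * homR A (4 * k) (a / H) (b / H)| ^ 3 =
      H ^ (12 * k) * |homR A (4 * k) (a / H) (b / H)| ^ 3 := by
    rw [abs_mul, mul_pow, abs_of_pos (pow_pos h0 _), ← pow_mul]
    congr 2
    ring
  have e4 : (H ^ (6 * k) * homR B (6 * k) (a / H) (b / H)) ^ 2 =
      H ^ (12 * k) * homR B (6 * k) (a / H) (b / H) ^ 2 := by
    rw [mul_pow, ← pow_mul]
    congr 2
    ring
  rw [e3, e4, ← mul_max_of_nonneg _ _ (pow_nonneg hH0 _), mul_comm]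
  exact mul_le_mul_of_nonneg_left h1 (pow_nonneg hH0 _)

end Pool.Agent.TH498.MT
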