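import Pool.Agent.TH498.MT.M1

/-!
# From `a + b = c` to a point with three small linear forms
-/

set_option autoImplicit false
set_option maxHeartbeats 4000000

namespace Pool.Agent.TH498.MT

open Finset

/-- three linear forms, pairwise not proportional -/
structure Lin3 where
  u : Fin 3 → ℤ
  w : Fin 3 → ℤ
  r01 : u 0 * w 1 - u 1 * w 0 ≠ 0
  r12 : u 1 * w 2 - u 2 * w 1 ≠ 0
  r20 : u 2 * w 0 - u 0 * w 2 ≠ 0

/-- the value of a form -/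
def Lin3.ev (L : Lin3) (i : Fin 3) (x y : ℤ) : ℤ := L.u i * x + L.w i * y

/-- the product of the resultants -/
def Lin3.R (L : Lin3) : ℤ :=
  (L.u 0 * L.w 1 - L.u 1 * L.w 0) * (L.u 1 * L.w 2 - L.u 2 * L.w 1) *
    (L.u 2 * L.w 0 - L.u 0 * L.w 2)

theorem Lin3.R_ne (L : Lin3) : L.R ≠ 0 :=
  mul_ne_zero (mul_ne_zero L.r01 L.r12) L.r20

/-- the point attached to `(a, b)` -/
def Lin3.px (L : Lin3) (a b : ℤ) : ℤ :=
  L.w 1 * a * (L.u 2 * L.w 0 - L.u 0 * L.w 2) - L.w 0 * b * (L.u 1 * L.w 2 - L.u 2 * L.w 1)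

def Lin3.py (L : Lin3) (a b : ℤ) : ℤ :=
  L.u 0 * b * (L.u 1 * L.w 2 - L.u 2 * L.w 1) - L.u 1 * a * (L.u 2 * L.w 0 - L.u 0 * L.w 2)

theorem Lin3.ev0 (L : Lin3) (a b : ℤ) : L.ev 0 (L.px a b) (L.py a b) =
    a * (L.u 2 * L.w 0 - L.u 0 * L.w 2) * (L.u 0 * L.w 1 - L.u 1 * L.w 0) := by
  unfold Lin3.ev Lin3.px Lin3.py; ring

theorem Lin3.ev1 (L : Lin3) (a b : ℤ) : L.ev 1 (L.px a b) (L.py a b) =
    b * (L.u 1 * L.w 2 - L.u 2 * L.w 1) * (L.u 0 * L.w 1 - L.u 1 * L.w 0) := by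
  unfold Lin3.ev Lin3.px Lin3.py; ring

theorem Lin3.ev2 (L : Lin3) (a b : ℤ) : L.ev 2 (L.px a b) (L.py a b) =
    -((a + b) * (L.u 1 * L.w 2 - L.u 2 * L.w 1) * (L.u 2 * L.w 0 - L.u 0 * L.w 2)) := by
  unfold Lin3.ev Lin3.px Lin3.py; ring

/-- bound for the coefficients -/
def Lin3.U (L : Lin3) : ℕ := 1 + ∑ i, ((L.u i).natAbs + (L.w i).natAbs)

theorem Lin3.point (L : Lin3) : ∃ C : ℝ, 1 ≤ C ∧ ∀ a b c : ℕ, 0 < a → 0 < b → a + b = c →
    Nat.Coprime a b → ∃ x y : ℤ, IsCoprime x y ∧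
      (x * L.py a b = y * L.px a b) ∧
      max |(x : ℝ)| |(y : ℝ)| ≤ C * c ∧ (c : ℝ) ≤ C * max |(x : ℝ)| |(y : ℝ)| ∧
      (∀ p : ℕ, p.Prime → ∀ i, (p : ℤ) ∣ L.ev i x y → (p : ℤ) ∣ L.R * (a * b * c : ℕ)) := by
  have hR := L.R_ne
  set Rr : ℝ := |(L.R : ℝ)| with hRr
  have hRr1 : 1 ≤ Rr := by
    rw [hRr]
    exact_mod_cast Int.one_le_abs hR
  set V : ℝ := |(L.u 0 : ℝ)| + |(L.u 1 : ℝ)| + |(L.u 2 : ℝ)| + |(L.w 0 : ℝ)| + |(L.w 1 : ℝ)| +
    |(L.w 2 : ℝ)| + 1 with hV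
  have hu0 := abs_nonneg (L.u 0 : ℝ)
  have hu1 := abs_nonneg (L.u 1 : ℝ)
  have hu2 := abs_nonneg (L.u 2 : ℝ)
  have hw0 := abs_nonneg (L.w 0 : ℝ)
  have hw1 := abs_nonneg (L.w 1 : ℝ)
  have hw2 := abs_nonneg (L.w 2 : ℝ)
  have hV1 : 1 ≤ V := by rw [hV]; linarith
  have hV3 : 1 ≤ V ^ 3 := one_le_pow₀ hV1
  have hVR : 0 ≤ V * Rr ^ 2 := by positivity
  refine ⟨4 * V ^ 3 + 2 * V * Rr ^ 2, by linarith, ?_⟩
  intro a b c ha hb habc hcop
  set x0 := L.px a b with hx0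
  set y0 := L.py a b with hy0
  have hne : x0 ≠ 0 ∨ y0 ≠ 0 := by
    by_contra hcon
    push Not at hcon
    obtain ⟨h1, h2⟩ := hcon
    have h3 := L.ev0 a b
    rw [← hx0, ← hy0, h1, h2] at h3
    unfold Lin3.ev at h3
    rw [mul_zero, mul_zero, add_zero] at h3
    exact mul_ne_zero (mul_ne_zero (by exact_mod_cast ha.ne') L.r20) L.r01 h3.symm
  set g := Int.gcd x0 y0 with hg
  have hg0 : 0 < g := by
    rw [hg, Int.gcd_pos_iff]
    exact hne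
  obtain ⟨x, hx⟩ : (g : ℤ) ∣ x0 := Int.gcd_dvd_left ..
  obtain ⟨y, hy⟩ : (g : ℤ) ∣ y0 := Int.gcd_dvd_right ..
  have hgZ : (g : ℤ) ≠ 0 := by exact_mod_cast hg0.ne'
  have hcopxy : IsCoprime x y := by
    rw [Int.isCoprime_iff_gcd_eq_one]
    have h1 : Int.gcd (g * x) (g * y) = g * Int.gcd x y := by
      rw [Int.gcd_mul_left, Int.natAbs_natCast]
    rw [← hx, ← hy, ← hg] at h1
    have h2 : g * 1 = g * Int.gcd x y := by rw [mul_one]; exact h1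
    exact (Nat.eq_of_mul_eq_mul_left hg0 h2).symm
  have hev : ∀ i, L.ev i x0 y0 = g * L.ev i x y := by
    intro i
    rw [hx, hy]
    unfold Lin3.ev
    ring
  have e0 := L.ev0 a b
  have e1 := L.ev1 a b
  have e2 := L.ev2 a b
  rw [← hx0, ← hy0, hev] at e0 e1 e2
  have hcopZ : IsCoprime (a : ℤ) (b : ℤ) := Nat.isCoprime_iff_coprime.mpr hcop
  -- the gcd is bounded
  have hgR : (g : ℤ) ∣ L.R ^ 2 := by
    have d0 : (g : ℤ) ∣ a * L.R ^ 2 := by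
      have : (g : ℤ) ∣ a * (L.u 2 * L.w 0 - L.u 0 * L.w 2) * (L.u 0 * L.w 1 - L.u 1 * L.w 0) :=
        ⟨_, e0.symm⟩
      refine this.trans ⟨(L.u 1 * L.w 2 - L.u 2 * L.w 1) * L.R, ?_⟩
      unfold Lin3.R
      ring
    have d1 : (g : ℤ) ∣ b * L.R ^ 2 := by
      have : (g : ℤ) ∣ b * (L.u 1 * L.w 2 - L.u 2 * L.w 1) * (L.u 0 * L.w 1 - L.u 1 * L.w 0) :=
        ⟨_, e1.symm⟩
      refine this.trans ⟨(L.u 2 * L.w 0 - L.u 0 * L.w 2) * L.R, ?_⟩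
      unfold Lin3.R
      ring
    obtain ⟨s, t, hst⟩ := hcopZ
    have : L.R ^ 2 = s * (a * L.R ^ 2) + t * (b * L.R ^ 2) := by
      linear_combination (-(L.R ^ 2)) * hst
    rw [this]
    exact dvd_add (Dvd.dvd.mul_left d0 _) (Dvd.dvd.mul_left d1 _)
  have hgle : (g : ℝ) ≤ Rr ^ 2 := by
    have h1 : (g : ℤ) ≤ |L.R ^ 2| :=
      Int.le_of_dvd (abs_pos.mpr (pow_ne_zero _ hR)) ((dvd_abs _ _).mpr hgR)
    rw [hRr, sq_abs]
    have h2 : ((g : ℤ) : ℝ) ≤ ((|L.R ^ 2| : ℤ) : ℝ) := by exact_mod_cast h1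
    rw [abs_of_nonneg (sq_nonneg _)] at h2
    push_cast at h2
    exact h2
  have hg1 : (1 : ℝ) ≤ g := by exact_mod_cast hg0
  have hcR : (c : ℝ) = a + b := by rw [← habc]; push_cast; ring
  have haR : (0 : ℝ) < a := by exact_mod_cast ha
  have hbR : (0 : ℝ) < b := by exact_mod_cast hb
  set H : ℝ := max |(x : ℝ)| |(y : ℝ)| with hH
  have hH0 : 0 ≤ H := le_max_of_le_left (abs_nonneg _)
  refine ⟨x, y, hcopxy, ?_, ?_, ?_, ?_⟩
  · rw [hx, hy]; ring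
  · -- upper bound
    have r12 : |(L.u 1 * L.w 2 - L.u 2 * L.w 1 : ℝ)| ≤ 2 * V ^ 2 := by
      calc |(L.u 1 * L.w 2 - L.u 2 * L.w 1 : ℝ)| ≤ |(L.u 1 : ℝ)| * |(L.w 2 : ℝ)| +
            |(L.u 2 : ℝ)| * |(L.w 1 : ℝ)| := by
            refine (abs_sub _ _).trans (le_of_eq ?_)
            rw [abs_mul, abs_mul]
        _ ≤ V * V + V * V := by gcongr <;> (rw [hV]; linarith)
        _ = 2 * V ^ 2 := by ring
    have r20 : |(L.u 2 * L.w 0 - L.u 0 * L.w 2 : ℝ)| ≤ 2 * V ^ 2 := by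
      calc |(L.u 2 * L.w 0 - L.u 0 * L.w 2 : ℝ)| ≤ |(L.u 2 : ℝ)| * |(L.w 0 : ℝ)| +
            |(L.u 0 : ℝ)| * |(L.w 2 : ℝ)| := by
            refine (abs_sub _ _).trans (le_of_eq ?_)
            rw [abs_mul, abs_mul]
        _ ≤ V * V + V * V := by gcongr <;> (rw [hV]; linarith)
        _ = 2 * V ^ 2 := by ring
    have bx : |(x0 : ℝ)| ≤ (4 * V ^ 3 + 2 * V * Rr ^ 2) * c := by
      have h1 : (x0 : ℝ) = L.w 1 * a * (L.u 2 * L.w 0 - L.u 0 * L.w 2) -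
          L.w 0 * b * (L.u 1 * L.w 2 - L.u 2 * L.w 1) := by
        rw [hx0]; unfold Lin3.px; push_cast; ring
      rw [h1]
      calc |(L.w 1 * a * (L.u 2 * L.w 0 - L.u 0 * L.w 2) -
          L.w 0 * b * (L.u 1 * L.w 2 - L.u 2 * L.w 1) : ℝ)|
          ≤ |(L.w 1 : ℝ)| * a * |(L.u 2 * L.w 0 - L.u 0 * L.w 2 : ℝ)| +
            |(L.w 0 : ℝ)| * b * |(L.u 1 * L.w 2 - L.u 2 * L.w 1 : ℝ)| := by
            refine (abs_sub _ _).trans (le_of_eq ?_)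
            rw [abs_mul, abs_mul, abs_mul, abs_mul, abs_of_pos haR, abs_of_pos hbR]
        _ ≤ V * a * (2 * V ^ 2) + V * b * (2 * V ^ 2) := by gcongr <;> (rw [hV]; linarith)
        _ = 2 * V ^ 3 * c := by rw [hcR]; ring
        _ ≤ (4 * V ^ 3 + 2 * V * Rr ^ 2) * c := by
            refine mul_le_mul_of_nonneg_right ?_ (Nat.cast_nonneg _)
            have : 0 ≤ V ^ 3 := by positivity
            have : 0 ≤ V * Rr ^ 2 := by positivity
            linarith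
    have by' : |(y0 : ℝ)| ≤ (4 * V ^ 3 + 2 * V * Rr ^ 2) * c := by
      have h1 : (y0 : ℝ) = L.u 0 * b * (L.u 1 * L.w 2 - L.u 2 * L.w 1) -
          L.u 1 * a * (L.u 2 * L.w 0 - L.u 0 * L.w 2) := by
        rw [hy0]; unfold Lin3.py; push_cast; ring
      rw [h1]
      calc |(L.u 0 * b * (L.u 1 * L.w 2 - L.u 2 * L.w 1) -
          L.u 1 * a * (L.u 2 * L.w 0 - L.u 0 * L.w 2) : ℝ)|
          ≤ |(L.u 0 : ℝ)| * b * |(L.u 1 * L.w 2 - L.u 2 * L.w 1 : ℝ)| +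
            |(L.u 1 : ℝ)| * a * |(L.u 2 * L.w 0 - L.u 0 * L.w 2 : ℝ)| := by
            refine (abs_sub _ _).trans (le_of_eq ?_)
            rw [abs_mul, abs_mul, abs_mul, abs_mul, abs_of_pos haR, abs_of_pos hbR]
        _ ≤ V * b * (2 * V ^ 2) + V * a * (2 * V ^ 2) := by gcongr <;> (rw [hV]; linarith)
        _ = 2 * V ^ 3 * c := by rw [hcR]; ring
        _ ≤ (4 * V ^ 3 + 2 * V * Rr ^ 2) * c := by
            refine mul_le_mul_of_nonneg_right ?_ (Nat.cast_nonneg _)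
            have : 0 ≤ V ^ 3 := by positivity
            have : 0 ≤ V * Rr ^ 2 := by positivity
            linarith
    have h1 : |(x0 : ℝ)| = g * |(x : ℝ)| := by
      rw [hx]; push_cast; rw [abs_mul, abs_of_pos (by linarith : (0 : ℝ) < g)]
    have h2 : |(y0 : ℝ)| = g * |(y : ℝ)| := by
      rw [hy]; push_cast; rw [abs_mul, abs_of_pos (by linarith : (0 : ℝ) < g)]
    have h3 : |(x : ℝ)| ≤ g * |(x : ℝ)| := le_mul_of_one_le_left (abs_nonneg _) hg1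
    have h4 : |(y : ℝ)| ≤ g * |(y : ℝ)| := le_mul_of_one_le_left (abs_nonneg _) hg1
    rw [← h1] at h3
    rw [← h2] at h4
    exact max_le (h3.trans bx) (h4.trans by')
  · -- lower bound
    have h1 : (c : ℝ) ≤ |((L.ev 2 x y : ℤ) : ℝ)| * g := by
      have h2 : ((g : ℤ) * L.ev 2 x y) = -((a + b : ℤ) * (L.u 1 * L.w 2 - L.u 2 * L.w 1) *
        (L.u 2 * L.w 0 - L.u 0 * L.w 2)) := e2
      have h3 : |(g : ℤ) * L.ev 2 x y| = (c : ℤ) * (|L.u 1 * L.w 2 - L.u 2 * L.w 1| *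
          |L.u 2 * L.w 0 - L.u 0 * L.w 2|) := by
        rw [h2, abs_neg, abs_mul, abs_mul, mul_assoc]
        congr 1
        rw [abs_of_nonneg (by positivity)]
        exact_mod_cast habc
      have h4 : (c : ℤ) ≤ |(g : ℤ) * L.ev 2 x y| := by
        rw [h3]
        have h7 : 1 ≤ |L.u 1 * L.w 2 - L.u 2 * L.w 1| * |L.u 2 * L.w 0 - L.u 0 * L.w 2| :=
          one_le_mul_of_one_le_of_one_le (Int.one_le_abs L.r12) (Int.one_le_abs L.r20)
        exact le_mul_of_one_le_right (Int.natCast_nonneg _) h7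
      have h5 : ((c : ℤ) : ℝ) ≤ ((|(g : ℤ) * L.ev 2 x y| : ℤ) : ℝ) := by exact_mod_cast h4
      rw [abs_mul, Int.cast_mul, Nat.abs_cast] at h5
      push_cast at h5
      rw [mul_comm] at h5
      exact_mod_cast h5
    have h2 : |((L.ev 2 x y : ℤ) : ℝ)| ≤ 2 * V * H := by
      unfold Lin3.ev
      push_cast
      calc |(L.u 2 * x + L.w 2 * y : ℝ)| ≤ |(L.u 2 : ℝ)| * |(x : ℝ)| + |(L.w 2 : ℝ)| * |(y : ℝ)| := by
            refine (abs_add_le _ _).trans (le_of_eq ?_)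
            rw [abs_mul, abs_mul]
        _ ≤ V * H + V * H := by
            gcongr
            · rw [hV]; linarith
            · exact le_max_left _ _
            · rw [hV]; linarith
            · exact le_max_right _ _
        _ = 2 * V * H := by ring
    calc (c : ℝ) ≤ |((L.ev 2 x y : ℤ) : ℝ)| * g := h1
      _ ≤ (2 * V * H) * Rr ^ 2 := by gcongr
      _ = (2 * V * Rr ^ 2) * H := by ring
      _ ≤ (4 * V ^ 3 + 2 * V * Rr ^ 2) * H := by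
          refine mul_le_mul_of_nonneg_right ?_ hH0
          have : 0 ≤ V ^ 3 := by positivity
          linarith
  · intro p hp i hd
    have hd' : (p : ℤ) ∣ (g : ℤ) * L.ev i x y := Dvd.dvd.mul_left hd _
    fin_cases i
    · change (p : ℤ) ∣ (g : ℤ) * L.ev 0 x y at hd'
      rw [e0] at hd'
      refine hd'.trans ⟨(L.u 1 * L.w 2 - L.u 2 * L.w 1) * (b * c), ?_⟩
      unfold Lin3.R
      push_cast
      ring
    · change (p : ℤ) ∣ (g : ℤ) * L.ev 1 x y at hd'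
      rw [e1] at hd'
      refine hd'.trans ⟨(L.u 2 * L.w 0 - L.u 0 * L.w 2) * (a * c), ?_⟩
      unfold Lin3.R
      push_cast
      ring
    · change (p : ℤ) ∣ (g : ℤ) * L.ev 2 x y at hd'
      rw [e2] at hd'
      refine hd'.trans ⟨-((L.u 0 * L.w 1 - L.u 1 * L.w 0) * (a * b)), ?_⟩
      unfold Lin3.R
      rw [← habc]
      push_cast
      ring

end Pool.Agent.TH498.MT
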