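import Pool.Agent.TH498.MT.M2
import Pool.Agent.TH498.HF.T1

/-!
# The minimal model of the member of a family with a given parameter
-/

set_option autoImplicit false
set_option maxHeartbeats 4000000

namespace Pool.Agent.TH498.MT

open Finset Polynomial Pool.Agent.W4.CF Pool.Agent.W4.VC Pool.Agent.TH498.KB Pool.Agent.TH498.HF
open Pool.Agent.H39R3 (GMin condW shortW)

theorem exists_gmin (E : WeierstrassCurve ℚ) (W0 : WeierstrassCurve ℤ) (hΔ : W0.Δ ≠ 0)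
    (C0 : WeierstrassCurve.VariableChange ℚ) (h0 : C0 • E = W0.map (Int.castRingHom ℚ)) :
    ∃ (W : WeierstrassCurve ℤ) (C : WeierstrassCurve.VariableChange ℚ), GMin W ∧
      C • E = W.map (Int.castRingHom ℚ) := by
  classical
  let Sx : Set ℕ := {n | ∃ (W : WeierstrassCurve ℤ) (C : WeierstrassCurve.VariableChange ℚ),
    W.Δ ≠ 0 ∧ C • E = W.map (Int.castRingHom ℚ) ∧ W.Δ.natAbs = n}
  have hne : Sx.Nonempty := ⟨_, W0, C0, hΔ, h0, rfl⟩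
  obtain ⟨W, C, h1, h2, h3⟩ := Nat.sInf_mem hne
  refine ⟨W, C, ⟨h1, ?_⟩, h2⟩
  rintro W' ⟨C', hC'⟩
  have hΔ' : W'.Δ ≠ 0 := by
    have h4 := congrArg WeierstrassCurve.Δ hC'
    rw [WeierstrassCurve.variableChange_Δ, WeierstrassCurve.map_Δ, WeierstrassCurve.map_Δ,
      eq_intCast, eq_intCast] at h4
    intro h5
    rw [h5, Int.cast_zero] at h4
    have h6 : ((C'.u⁻¹ : ℚˣ) : ℚ) ^ 12 ≠ 0 := pow_ne_zero _ (Units.ne_zero _)
    have h7 : ((W.Δ : ℤ) : ℚ) ≠ 0 := by exact_mod_cast h1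
    exact mul_ne_zero h6 h7 (by exact_mod_cast h4)
  have hmem : W'.Δ.natAbs ∈ Sx := ⟨W', C' * C, hΔ', by rw [mul_smul, h2, hC'], rfl⟩
  have h5 := Nat.sInf_le hmem
  rw [← h3] at h5
  rw [Int.abs_eq_natAbs, Int.abs_eq_natAbs]
  exact_mod_cast h5

theorem short_at (a1 a2 a3 : ℤ[X]) (a b : ℤ) (t u : ℚ) (hu : u ≠ 0)
    (ha : (a : ℚ) = u ^ 4 * ((27 * c4p a1 a2 a3).map (Int.castRingHom ℚ)).eval t)
    (hb : (b : ℚ) = u ^ 6 * ((54 * c6p a1 a2 a3).map (Int.castRingHom ℚ)).eval t) :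
    ∃ C : WeierstrassCurve.VariableChange ℚ,
      C • crv a1 a2 a3 t = (shortW a b).map (Int.castRingHom ℚ) := by
  have h6 : (6 * u : ℚ) ≠ 0 := mul_ne_zero (by norm_num) hu
  set x1 := (a1.map (Int.castRingHom ℚ)).eval t with hx1
  set x2 := (a2.map (Int.castRingHom ℚ)).eval t with hx2
  set x3 := (a3.map (Int.castRingHom ℚ)).eval t with hx3
  have e4 := crv_c4 a1 a2 a3 t
  have e6 := crv_c6 a1 a2 a3 t
  simp only [Polynomial.map_mul, Polynomial.map_ofNat, eval_mul, eval_ofNat] at ha hb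
  rw [← e4] at ha
  rw [← e6] at hb
  simp only [crv, WeierstrassCurve.c₄, WeierstrassCurve.b₂, WeierstrassCurve.b₄] at ha
  simp only [crv, WeierstrassCurve.c₆, WeierstrassCurve.b₂, WeierstrassCurve.b₄,
    WeierstrassCurve.b₆] at hb
  rw [← hx1, ← hx2, ← hx3] at ha hb
  refine ⟨⟨(Units.mk0 (6 * u) h6)⁻¹, -(x1 ^ 2 + 4 * x2) / 12, -x1 / 2,
    -(x3 + -(x1 ^ 2 + 4 * x2) / 12 * x1) / 2⟩, ?_⟩
  rw [WeierstrassCurve.variableChange_def]
  simp only [crv, inv_inv, Units.val_mk0, ← hx1, ← hx2, ← hx3, shortW, WeierstrassCurve.map,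
    eq_intCast, Int.cast_neg, Int.cast_zero]
  ext
  · simp only
    ring
  · simp only
    ring
  · simp only
    ring
  · simp only
    rw [ha]
    ring
  · simp only
    rw [hb]
    ring

/-- the discriminant form -/
theorem disc_facts (A B : ℤ[X]) (k m : ℕ) (f : Fin m → ℤ[X]) (n : Fin m → ℕ)
    (hF : FamB A B k m f n) (hR : Rev A B k m f n) :
    ∃ (N1 j : ℕ) (G : ℤ[X]), N1 ≠ 0 ∧ 1 ≤ j ∧ 1 ≤ ∑ i, n i ∧ ∀ a b : ℤ, b ≠ 0 →
      (4 * (hom A (4 * k) a b) ^ 3 - 27 * (hom B (6 * k) a b) ^ 2) *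
        hom G (j * (∑ i, n i) - 12 * k) a b = N1 * (hom (∏ i, f i) (∑ i, n i) a b) ^ j := by
  obtain ⟨hk, hA, hB, hlead, hcop, hn, hsq, hdeg, -, -, -⟩ := hF
  obtain ⟨j, N1, G, hN1, hG, hGd⟩ := hR
  set F : ℤ[X] := ∏ i, f i with hFdef
  set q : ℕ := ∑ i, n i with hq
  have hle : F.natDegree ≤ q :=
    (natDegree_prod_le _ _).trans (Finset.sum_le_sum fun i _ => hn i)
  have hj : 1 ≤ j := by
    rcases Nat.eq_zero_or_pos j with h | h
    · rw [h] at hGd; omega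
    · exact h
  have hq1 : 1 ≤ q := by
    rcases Nat.eq_zero_or_pos q with h | h
    · rw [h] at hGd; omega
    · exact h
  have hmul := Pool.Agent.W505.VC.t_HOM.1
  have hDd : (4 * A ^ 3 - 27 * B ^ 2 : ℤ[X]).natDegree ≤ 12 * k := by
    refine (natDegree_sub_le _ _).trans (max_le ?_ ?_)
    · have h1 := natDegree_C_mul_le (4 : ℤ) (A ^ 3)
      have h2 : (C (4 : ℤ) : ℤ[X]) = 4 := by simp
      rw [h2] at h1
      have h3 := (h1.trans natDegree_pow_le)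
      omega
    · have h1 := natDegree_C_mul_le (27 : ℤ) (B ^ 2)
      have h2 : (C (27 : ℤ) : ℤ[X]) = 27 := by simp
      rw [h2] at h1
      have h3 := (h1.trans natDegree_pow_le)
      omega
  have hpow : ∀ (i : ℕ) (a b : ℤ), hom (F ^ i) (i * q) a b = (hom F q a b) ^ i := by
    intro i a b
    induction i with
    | zero =>
      rw [pow_zero, pow_zero, Nat.zero_mul, ← C_1, hom_C, pow_zero, mul_one]
    | succ i ih =>
      rw [pow_succ, Nat.succ_mul, hmul (F ^ i) F (i * q) q (natDegree_pow_le.trans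
        (Nat.mul_le_mul_left _ hle)) hle, ih, pow_succ]
  refine ⟨N1, j, G, hN1, hj, hq1, ?_⟩
  intro a b hb
  have hD : hom (4 * A ^ 3 - 27 * B ^ 2) (12 * k) a b *
      hom G (j * q - 12 * k) a b = N1 * (hom F q a b) ^ j := by
    rw [← hmul _ G (12 * k) (j * q - 12 * k) hDd (by omega) a b, hG]
    have h1 : 12 * k + (j * q - 12 * k) = 0 + j * q := by omega
    have h2 : ((N1 : ℤ[X])) = C (N1 : ℤ) := by simp
    rw [h1, h2, hmul (C (N1 : ℤ)) (F ^ j) 0 (j * q) (by simp) (natDegree_pow_le.trans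
        (Nat.mul_le_mul_left _ hle)) a b, hpow, hom_C, pow_zero, mul_one]
  have hDAB : hom (4 * A ^ 3 - 27 * B ^ 2) (12 * k) a b =
      4 * (hom A (4 * k) a b) ^ 3 - 27 * (hom B (6 * k) a b) ^ 2 := by
    have hden : (b : ℚ) ≠ 0 := by exact_mod_cast hb
    have hAe := hom_eval A (4 * k) hA a b hden
    have hBe := hom_eval B (6 * k) hB a b hden
    have hDe := hom_eval (4 * A ^ 3 - 27 * B ^ 2) (12 * k) hDd a b hden
    have h4 : ((4 : ℤ[X]).map (Int.castRingHom ℚ)) = Polynomial.C 4 := by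
      rw [Polynomial.map_ofNat]; rfl
    have h27 : ((27 : ℤ[X]).map (Int.castRingHom ℚ)) = Polynomial.C 27 := by
      rw [Polynomial.map_ofNat]; rfl
    simp only [Polynomial.map_mul, Polynomial.map_sub, Polynomial.map_pow, eval_mul, eval_sub,
      eval_pow] at hDe
    rw [h4, h27, eval_C, eval_C] at hDe
    have : ((hom (4 * A ^ 3 - 27 * B ^ 2) (12 * k) a b : ℤ) : ℚ) =
        ((4 * (hom A (4 * k) a b) ^ 3 - 27 * (hom B (6 * k) a b) ^ 2 : ℤ) : ℚ) := by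
      push_cast
      rw [hDe, hAe, hBe]
      ring
    exact_mod_cast this
  rw [← hDAB]
  exact hD

/-- a bound for the conductor -/
theorem condW_le (W : WeierstrassCurve ℤ) (R M : ℕ) (hR : R ≠ 0) (hM : M ≠ 0)
    (h1 : ∀ p : ℕ, p.Prime → 5 ≤ p → (p : ℤ) ∣ W.Δ → p ∣ R)
    (h2 : ∀ p : ℕ, p.Prime → 5 ≤ p → (p : ℤ) ∣ W.Δ → (p : ℤ) ∣ W.c₄ → p ∣ M) :
    condW W ≤ R * M := by
  classical
  set P := W.Δ.natAbs.primeFactors.filter (fun p : ℕ => 5 ≤ p) with hP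
  have hPp : ∀ p ∈ P, p.Prime := fun p hp => Nat.prime_of_mem_primeFactors (mem_filter.mp hp).1
  have hPd : ∀ p ∈ P, (p : ℤ) ∣ W.Δ := fun p hp =>
    Int.natCast_dvd.mpr (Nat.dvd_of_mem_primeFactors (mem_filter.mp hp).1)
  have e1 : condW W = (∏ p ∈ P, p) * ∏ p ∈ P.filter (fun p : ℕ => (p : ℤ) ∣ W.c₄), p := by
    have h0 : ∏ p ∈ P.filter (fun p : ℕ => (p : ℤ) ∣ W.c₄), p =
        ∏ p ∈ P, if (p : ℤ) ∣ W.c₄ then p else 1 := Finset.prod_filter _ _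
    unfold condW
    rw [← hP, h0, ← prod_mul_distrib]
    refine prod_congr rfl fun p _ => ?_
    split_ifs
    · ring
    · ring
  rw [e1]
  have e2 : (∏ p ∈ P, p) ∣ R :=
    Finset.prod_primes_dvd _ (fun p hp => (hPp p hp).prime) fun p hp =>
      h1 p (hPp p hp) (mem_filter.mp hp).2 (hPd p hp)
  have e3 : (∏ p ∈ P.filter (fun p : ℕ => (p : ℤ) ∣ W.c₄), p) ∣ M :=
    Finset.prod_primes_dvd _ (fun p hp => (hPp p (mem_filter.mp hp).1).prime) fun p hp => by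
      obtain ⟨hp1, hp2⟩ := mem_filter.mp hp
      exact h2 p (hPp p hp1) (mem_filter.mp hp1).2 (hPd p hp1) hp2
  exact Nat.mul_le_mul (Nat.le_of_dvd (Nat.pos_of_ne_zero hR) e2)
    (Nat.le_of_dvd (Nat.pos_of_ne_zero hM) e3)

theorem curve_at (a1 a2 a3 : ℤ[X]) (k m : ℕ) (f : Fin m → ℤ[X]) (n : Fin m → ℕ)
    (hF : FamB (27 * c4p a1 a2 a3) (54 * c6p a1 a2 a3) k m f n)
    (hR : Rev (27 * c4p a1 a2 a3) (54 * c6p a1 a2 a3) k m f n) :
    ∃ C : ℝ, 1 ≤ C ∧ ∀ x y : ℤ, IsCoprime x y → y ≠ 0 → hom (∏ i, f i) (∑ i, n i) x y ≠ 0 →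
      ∃ (W : WeierstrassCurve ℤ) (D : WeierstrassCurve.VariableChange ℚ), GMin W ∧
        D • crv a1 a2 a3 ((x : ℚ) / (y : ℚ)) = W.map (Int.castRingHom ℚ) ∧
        (max |(x : ℝ)| |(y : ℝ)|) ^ (12 * k) ≤ C * max (|(W.c₄ : ℝ)| ^ 3) ((W.c₆ : ℝ) ^ 2) ∧
        max (|(W.c₄ : ℝ)| ^ 3) ((W.c₆ : ℝ) ^ 2) ≤ C * (max |(x : ℝ)| |(y : ℝ)|) ^ (12 * k) ∧
        ∀ R0 : ℕ, R0 ≠ 0 → (∀ p : ℕ, p.Prime → (p : ℤ) ∣ hom (∏ i, f i) (∑ i, n i) x y →
          p ∣ R0) → (condW W : ℝ) ≤ C * R0 := by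
  classical
  obtain ⟨N1, j, G, hN1, hj, hq1, hdisc⟩ := disc_facts _ _ k m f n hF hR
  obtain ⟨hk, hA, hB, hlead, hcop, hn, hsq, hdeg, -, -, -⟩ := hF
  obtain ⟨M, K, hM, hK, hbez⟩ := bez2 _ _ k hk hA hB hlead hcop
  obtain ⟨c, hc, hsize⟩ := form_size _ _ k hk hA hB hlead hcop
  set A := 27 * c4p a1 a2 a3 with hAdef
  set B := 54 * c6p a1 a2 a3 with hBdef
  obtain ⟨CA, hCA, hsA⟩ := Pool.Agent.W505.VC.t_HOM.2.1 A (4 * k)
  obtain ⟨CB, hCB, hsB⟩ := Pool.Agent.W505.VC.t_HOM.2.1 B (6 * k)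
  have hM' : (1 : ℝ) ≤ M := by exact_mod_cast hM
  set C1 : ℝ := 19683 * (M : ℝ) ^ 12 / c with hC1
  set C2 : ℝ := 6 ^ 12 * (CA ^ 3 + CB ^ 2) with hC2
  set C3 : ℝ := (30 * N1) * (30 * M) with hC3
  have hC1' : 0 < C1 := by positivity
  have hC2' : 0 < C2 := by positivity
  have hC3' : 0 ≤ C3 := by positivity
  refine ⟨1 + C1 + C2 + C3, by linarith, ?_⟩
  intro x y hxy hy hF0
  have hyQ : (y : ℚ) ≠ 0 := by exact_mod_cast hy
  set Ah := hom A (4 * k) x y with hAh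
  set Bh := hom B (6 * k) x y with hBh
  set Fh := hom (∏ i, f i) (∑ i, n i) x y with hFh
  set t : ℚ := (x : ℚ) / (y : ℚ) with ht
  have hD0 := hdisc x y hy
  rw [← hAh, ← hBh, ← hFh] at hD0
  have hne : 4 * Ah ^ 3 - 27 * Bh ^ 2 ≠ 0 := by
    intro h0
    rw [h0, zero_mul] at hD0
    have h5 : (N1 : ℤ) * Fh ^ j ≠ 0 := mul_ne_zero (by exact_mod_cast hN1) (pow_ne_zero _ hF0)
    exact h5 hD0.symm
  have hAe := hom_eval A (4 * k) hA x y hyQ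
  have hBe := hom_eval B (6 * k) hB x y hyQ
  rw [← hAh, ← ht] at hAe
  rw [← hBh, ← ht] at hBe
  have hyk : (y : ℚ) ^ k ≠ 0 := pow_ne_zero _ hyQ
  have p4 : (y : ℚ) ^ (4 * k) = ((y : ℚ) ^ k) ^ 4 := by rw [← pow_mul]; congr 1; ring
  have p6 : (y : ℚ) ^ (6 * k) = ((y : ℚ) ^ k) ^ 6 := by rw [← pow_mul]; congr 1; ring
  rw [p4] at hAe
  rw [p6] at hBe
  obtain ⟨D0, hD0'⟩ := short_at a1 a2 a3 Ah Bh t ((y : ℚ) ^ k) hyk hAe hBe
  have hΔ0 : (shortW Ah Bh).Δ ≠ 0 := by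
    rw [Pool.Agent.H39R3.shortW_Δ]
    exact mul_ne_zero (by norm_num) hne
  obtain ⟨W, D, hW, hD⟩ := exists_gmin (crv a1 a2 a3 t) (shortW Ah Bh) hΔ0 D0 hD0'
  refine ⟨W, D, hW, hD, ?_⟩
  -- the relation with the forms
  have h4 := congrArg WeierstrassCurve.c₄ hD
  have h6 := congrArg WeierstrassCurve.c₆ hD
  rw [WeierstrassCurve.variableChange_c₄, WeierstrassCurve.map_c₄, crv_c4, eq_intCast] at h4
  rw [WeierstrassCurve.variableChange_c₆, WeierstrassCurve.map_c₆, crv_c6, eq_intCast] at h6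
  set w : ℚ := ((D.u⁻¹ : ℚˣ) : ℚ) with hw
  have hw0 : w ≠ 0 := Units.ne_zero _
  set v : ℚ := w / (y : ℚ) ^ k with hv
  have hv0 : v ≠ 0 := div_ne_zero hw0 hyk
  have ha2 : ((27 * W.c₄ : ℤ) : ℚ) = v ^ 4 * Ah := by
    rw [hAe, hAdef]
    simp only [Polynomial.map_mul, Polynomial.map_ofNat, eval_mul, eval_ofNat]
    push_cast
    rw [← h4, hv, div_pow]
    field_simp
  have hb2 : ((54 * W.c₆ : ℤ) : ℚ) = v ^ 6 * Bh := by
    rw [hBe, hBdef]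
    simp only [Polynomial.map_mul, Polynomial.map_ofNat, eval_mul, eval_ofNat]
    push_cast
    rw [← h6, hv, div_pow]
    field_simp
  have hvd : (v.den : ℚ) ≠ 0 := by exact_mod_cast v.den_nz
  have ha3 : (27 * W.c₄) * (v.den : ℤ) ^ 4 = v.num ^ 4 * Ah := by
    have : (((27 * W.c₄) * (v.den : ℤ) ^ 4 : ℤ) : ℚ) = ((v.num ^ 4 * Ah : ℤ) : ℚ) := by
      rw [Int.cast_mul, ha2]
      push_cast
      nth_rewrite 1 [← Rat.num_div_den v]
      field_simp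
    exact_mod_cast this
  have hb3 : (54 * W.c₆) * (v.den : ℤ) ^ 6 = v.num ^ 6 * Bh := by
    have : (((54 * W.c₆) * (v.den : ℤ) ^ 6 : ℤ) : ℚ) = ((v.num ^ 6 * Bh : ℤ) : ℚ) := by
      rw [Int.cast_mul, hb2]
      push_cast
      nth_rewrite 1 [← Rat.num_div_den v]
      field_simp
    exact_mod_cast this
  have hcv : IsCoprime v.num (v.den : ℤ) := by
    rw [Int.isCoprime_iff_gcd_eq_one]
    exact v.reduced
  have d1 : (v.den : ℤ) ^ 4 ∣ Ah :=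
    (IsCoprime.pow hcv.symm).dvd_of_dvd_mul_left (ha3 ▸ Dvd.intro_left _ rfl)
  have d2 : (v.den : ℤ) ^ 6 ∣ Bh :=
    (IsCoprime.pow hcv.symm).dvd_of_dvd_mul_left (hb3 ▸ Dvd.intro_left _ rfl)
  have d3 : (v.den : ℤ) ∣ M := by
    refine (hbez _ _ hxy).1 _ ?_ ?_
    · exact (dvd_pow_self _ (by norm_num)).trans d1
    · exact (dvd_pow_self _ (by norm_num)).trans d2
  have d4 : v.num ^ 4 ∣ 27 * W.c₄ :=
    (IsCoprime.pow hcv).dvd_of_dvd_mul_right (by rw [ha3]; exact Dvd.intro _ rfl)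
  have d5 : v.num ^ 6 ∣ 54 * W.c₆ :=
    (IsCoprime.pow hcv).dvd_of_dvd_mul_right (by rw [hb3]; exact Dvd.intro _ rfl)
  have hr6 : |v.num| ≤ (6 : ℕ) := prim_of_gmin W hW _ d4 d5
  have hr0 : v.num ≠ 0 := Rat.num_ne_zero.mpr hv0
  set r := v.num with hr
  set e := v.den with he
  have he1 : 1 ≤ e := v.den_pos
  have heM : e ≤ M := Nat.le_of_dvd (by omega) (by exact_mod_cast d3)
  have hr1R : (1 : ℝ) ≤ |(r : ℝ)| := by exact_mod_cast Int.one_le_abs hr0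
  have hr6R : |(r : ℝ)| ≤ 6 := by exact_mod_cast hr6
  have he1R : (1 : ℝ) ≤ e := by exact_mod_cast he1
  have heMR : (e : ℝ) ≤ M := by exact_mod_cast heM
  have ha4 : 27 * |(W.c₄ : ℝ)| * (e : ℝ) ^ 4 = |(r : ℝ)| ^ 4 * |(Ah : ℝ)| := by
    have h1 : ((27 * W.c₄ * (e : ℤ) ^ 4 : ℤ) : ℝ) = ((r ^ 4 * Ah : ℤ) : ℝ) := by rw [ha3]
    push_cast at h1
    have h2 := congrArg abs h1
    rw [abs_mul, abs_mul, abs_mul, abs_pow, abs_pow, abs_of_pos (by norm_num : (0 : ℝ) < 27),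
      abs_of_nonneg (by positivity : (0 : ℝ) ≤ (e : ℝ))] at h2
    exact h2
  have hb4 : 54 * |(W.c₆ : ℝ)| * (e : ℝ) ^ 6 = |(r : ℝ)| ^ 6 * |(Bh : ℝ)| := by
    have h1 : ((54 * W.c₆ * (e : ℤ) ^ 6 : ℤ) : ℝ) = ((r ^ 6 * Bh : ℤ) : ℝ) := by rw [hb3]
    push_cast at h1
    have h2 := congrArg abs h1
    rw [abs_mul, abs_mul, abs_mul, abs_pow, abs_pow, abs_of_pos (by norm_num : (0 : ℝ) < 54),
      abs_of_nonneg (by positivity : (0 : ℝ) ≤ (e : ℝ))] at h2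
    exact h2
  set H : ℝ := max |(x : ℝ)| |(y : ℝ)| with hH
  have hH0 : 0 ≤ H := le_max_of_le_left (abs_nonneg _)
  set hgt : ℝ := max (|(W.c₄ : ℝ)| ^ 3) ((W.c₆ : ℝ) ^ 2) with hhgt
  have hhgt0 : 0 ≤ hgt := le_max_of_le_left (by positivity)
  refine ⟨?_, ?_, ?_⟩
  · -- lower bound for the height
    have e1 : |(Ah : ℝ)| ≤ 27 * (M : ℝ) ^ 4 * |(W.c₄ : ℝ)| := by
      calc |(Ah : ℝ)| ≤ |(r : ℝ)| ^ 4 * |(Ah : ℝ)| :=
            le_mul_of_one_le_left (abs_nonneg _) (one_le_pow₀ hr1R)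
        _ = 27 * |(W.c₄ : ℝ)| * (e : ℝ) ^ 4 := ha4.symm
        _ ≤ 27 * |(W.c₄ : ℝ)| * (M : ℝ) ^ 4 := by gcongr
        _ = 27 * (M : ℝ) ^ 4 * |(W.c₄ : ℝ)| := by ring
    have e2 : |(Bh : ℝ)| ≤ 54 * (M : ℝ) ^ 6 * |(W.c₆ : ℝ)| := by
      calc |(Bh : ℝ)| ≤ |(r : ℝ)| ^ 6 * |(Bh : ℝ)| :=
            le_mul_of_one_le_left (abs_nonneg _) (one_le_pow₀ hr1R)
        _ = 54 * |(W.c₆ : ℝ)| * (e : ℝ) ^ 6 := hb4.symm
        _ ≤ 54 * |(W.c₆ : ℝ)| * (M : ℝ) ^ 6 := by gcongr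
        _ = 54 * (M : ℝ) ^ 6 * |(W.c₆ : ℝ)| := by ring
    have e3 : |(Ah : ℝ)| ^ 3 ≤ 19683 * (M : ℝ) ^ 12 * hgt := by
      calc |(Ah : ℝ)| ^ 3 ≤ (27 * (M : ℝ) ^ 4 * |(W.c₄ : ℝ)|) ^ 3 := by gcongr
        _ = 19683 * (M : ℝ) ^ 12 * |(W.c₄ : ℝ)| ^ 3 := by ring
        _ ≤ 19683 * (M : ℝ) ^ 12 * hgt := by
            gcongr
            exact le_max_left _ _
    have e4 : ((Bh : ℝ)) ^ 2 ≤ 19683 * (M : ℝ) ^ 12 * hgt := by
      calc ((Bh : ℝ)) ^ 2 = |(Bh : ℝ)| ^ 2 := (sq_abs _).symm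
        _ ≤ (54 * (M : ℝ) ^ 6 * |(W.c₆ : ℝ)|) ^ 2 := by gcongr
        _ = 2916 * (M : ℝ) ^ 12 * (W.c₆ : ℝ) ^ 2 := by rw [mul_pow, sq_abs]; ring
        _ ≤ 19683 * (M : ℝ) ^ 12 * hgt := by
            gcongr
            · norm_num
            · exact le_max_right _ _
    have e5 := (hsize x y).trans (max_le e3 e4)
    have e6 : H ^ (12 * k) ≤ C1 * hgt := by
      rw [hC1, div_mul_eq_mul_div, le_div_iff₀ hc]
      linarith
    refine e6.trans (mul_le_mul_of_nonneg_right ?_ hhgt0)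
    linarith
  · -- upper bound for the height
    have e1 : |(W.c₄ : ℝ)| ≤ 6 ^ 4 * |(Ah : ℝ)| := by
      calc |(W.c₄ : ℝ)| ≤ 27 * |(W.c₄ : ℝ)| * (e : ℝ) ^ 4 := by
            have : 1 ≤ (e : ℝ) ^ 4 := one_le_pow₀ he1R
            nlinarith [abs_nonneg (W.c₄ : ℝ)]
        _ = |(r : ℝ)| ^ 4 * |(Ah : ℝ)| := ha4
        _ ≤ 6 ^ 4 * |(Ah : ℝ)| := by gcongr
    have e2 : |(W.c₆ : ℝ)| ≤ 6 ^ 6 * |(Bh : ℝ)| := by
      calc |(W.c₆ : ℝ)| ≤ 54 * |(W.c₆ : ℝ)| * (e : ℝ) ^ 6 := by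
            have : 1 ≤ (e : ℝ) ^ 6 := one_le_pow₀ he1R
            nlinarith [abs_nonneg (W.c₆ : ℝ)]
        _ = |(r : ℝ)| ^ 6 * |(Bh : ℝ)| := hb4
        _ ≤ 6 ^ 6 * |(Bh : ℝ)| := by gcongr
    have p1 : (H ^ (4 * k)) ^ 3 = H ^ (12 * k) := by rw [← pow_mul]; congr 1; ring
    have p2 : (H ^ (6 * k)) ^ 2 = H ^ (12 * k) := by rw [← pow_mul]; congr 1; ring
    have hHk : 0 ≤ H ^ (12 * k) := pow_nonneg hH0 _
    have e3 : |(W.c₄ : ℝ)| ^ 3 ≤ C2 * H ^ (12 * k) := by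
      calc |(W.c₄ : ℝ)| ^ 3 ≤ (6 ^ 4 * |(Ah : ℝ)|) ^ 3 := by gcongr
        _ ≤ (6 ^ 4 * (CA * H ^ (4 * k))) ^ 3 := by
            gcongr
            exact hsA x y
        _ = 6 ^ 12 * CA ^ 3 * (H ^ (4 * k)) ^ 3 := by ring
        _ = 6 ^ 12 * CA ^ 3 * H ^ (12 * k) := by rw [p1]
        _ ≤ C2 * H ^ (12 * k) := by
            refine mul_le_mul_of_nonneg_right ?_ hHk
            rw [hC2]
            nlinarith [sq_nonneg CB]
    have e4 : (W.c₆ : ℝ) ^ 2 ≤ C2 * H ^ (12 * k) := by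
      calc (W.c₆ : ℝ) ^ 2 = |(W.c₆ : ℝ)| ^ 2 := (sq_abs _).symm
        _ ≤ (6 ^ 6 * |(Bh : ℝ)|) ^ 2 := by gcongr
        _ ≤ (6 ^ 6 * (CB * H ^ (6 * k))) ^ 2 := by
            gcongr
            exact hsB x y
        _ = 6 ^ 12 * CB ^ 2 * (H ^ (6 * k)) ^ 2 := by ring
        _ = 6 ^ 12 * CB ^ 2 * H ^ (12 * k) := by rw [p2]
        _ ≤ C2 * H ^ (12 * k) := by
            refine mul_le_mul_of_nonneg_right ?_ hHk
            rw [hC2]
            have : 0 ≤ CA ^ 3 := by positivity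
            nlinarith
    refine (max_le e3 e4).trans (mul_le_mul_of_nonneg_right ?_ hHk)
    linarith
  · intro R0 hR0 hR0p
    have hΔrel : 136048896 * W.Δ * (e : ℤ) ^ 12 = r ^ 12 * (4 * Ah ^ 3 - 27 * Bh ^ 2) := by
      have h1 : (4 * (27 * W.c₄) ^ 3 - 27 * (54 * W.c₆) ^ 2 : ℤ) = 136048896 * W.Δ := by
        have := W.c_relation
        linear_combination (-78732) * this
      rw [← h1]
      calc (4 * (27 * W.c₄) ^ 3 - 27 * (54 * W.c₆) ^ 2) * (e : ℤ) ^ 12 =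
            4 * (27 * W.c₄ * (e : ℤ) ^ 4) ^ 3 - 27 * (54 * W.c₆ * (e : ℤ) ^ 6) ^ 2 := by ring
        _ = 4 * (r ^ 4 * Ah) ^ 3 - 27 * (r ^ 6 * Bh) ^ 2 := by rw [ha3, hb3]
        _ = _ := by ring
    have hp30 : ∀ p : ℕ, p.Prime → (p : ℤ) ∣ r → p ∣ 30 := by
      intro p hp hd
      have h1 : p ≤ 6 := by
        have h2 : (p : ℤ) ≤ |r| := Int.le_of_dvd (abs_pos.mpr hr0) ((dvd_abs _ _).mpr hd)
        have h3 : (p : ℤ) ≤ 6 := h2.trans (by exact_mod_cast hr6)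
        exact_mod_cast h3
      have h2 := hp.two_le
      interval_cases p
      · norm_num
      · norm_num
      · norm_num at hp
      · norm_num
      · norm_num at hp
    have hcond := condW_le W (30 * N1 * R0) (30 * M)
      (mul_ne_zero (mul_ne_zero (by norm_num) hN1) hR0) (by omega) (by
        intro p hp h5 hd
        have hpZ : Prime (p : ℤ) := Nat.prime_iff_prime_int.mp hp
        have h7 : (p : ℤ) ∣ r ^ 12 * (4 * Ah ^ 3 - 27 * Bh ^ 2) := by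
          rw [← hΔrel]
          exact Dvd.dvd.mul_right (Dvd.dvd.mul_left hd _) _
        rcases hpZ.dvd_or_dvd h7 with h8 | h8
        · exact Dvd.dvd.mul_right (Dvd.dvd.mul_right (hp30 p hp (hpZ.dvd_of_dvd_pow h8)) _) _
        · have h9 : (p : ℤ) ∣ (N1 : ℤ) * Fh ^ j := by
            rw [← hD0]
            exact Dvd.dvd.mul_right h8 _
          rcases hpZ.dvd_or_dvd h9 with h10 | h10
          · exact Dvd.dvd.mul_right (Dvd.dvd.mul_left (by exact_mod_cast h10) _) _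
          · exact Dvd.dvd.mul_left (hR0p p hp (hpZ.dvd_of_dvd_pow h10)) _) (by
        intro p hp h5 hd hd4
        have hpZ : Prime (p : ℤ) := Nat.prime_iff_prime_int.mp hp
        have hd6 : (p : ℤ) ∣ W.c₆ := by
          have h7 : (p : ℤ) ∣ W.c₆ ^ 2 := by
            have h8 : W.c₆ ^ 2 = W.c₄ ^ 3 - 1728 * W.Δ := by
              have := W.c_relation
              linarith
            rw [h8]
            exact dvd_sub (dvd_pow hd4 (by norm_num)) (Dvd.dvd.mul_left hd _)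
          exact hpZ.dvd_of_dvd_pow h7
        have h7 : (p : ℤ) ∣ r ^ 4 * Ah := by
          rw [← ha3]
          exact Dvd.dvd.mul_right (Dvd.dvd.mul_left hd4 _) _
        have h8 : (p : ℤ) ∣ r ^ 6 * Bh := by
          rw [← hb3]
          exact Dvd.dvd.mul_right (Dvd.dvd.mul_left hd6 _) _
        by_cases hpr : (p : ℤ) ∣ r
        · exact Dvd.dvd.mul_right (hp30 p hp hpr) _
        · have h9 : (p : ℤ) ∣ Ah := (hpZ.dvd_or_dvd h7).resolve_left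
            (fun h => hpr (hpZ.dvd_of_dvd_pow h))
          have h10 : (p : ℤ) ∣ Bh := (hpZ.dvd_or_dvd h8).resolve_left
            (fun h => hpr (hpZ.dvd_of_dvd_pow h))
          have h11 : (p : ℤ) ∣ (M : ℤ) := (hbez _ _ hxy).1 _ h9 h10
          exact Dvd.dvd.mul_left (by exact_mod_cast h11) _)
    have h12 : (condW W : ℝ) ≤ C3 * R0 := by
      have : (condW W : ℝ) ≤ ((30 * N1 * R0 * (30 * M) : ℕ) : ℝ) := by exact_mod_cast hcond
      refine this.trans (le_of_eq ?_)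
      rw [hC3]
      push_cast
      ring
    refine h12.trans (mul_le_mul_of_nonneg_right ?_ (Nat.cast_nonneg _))
    linarith

end Pool.Agent.TH498.MT
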