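import Pool.Agent.TH498.MT.M3
import Pool.Agent.W16.GT.Main

/-!
# Many members of a family with a large height for their conductor
-/

set_option autoImplicit false
set_option maxHeartbeats 4000000

namespace Pool.Agent.TH498.MT

open Finset Polynomial Filter Topology Pool.Agent.W4.CF Pool.Agent.W4.VC Pool.Agent.TH498.KB
open Pool.Agent.TH498.HF
open Pool.Agent.H39R3 (GMin condW shortW)

/-- three of the forms are linear -/
structure Three (m : ℕ) (f : Fin m → ℤ[X]) (n : Fin m → ℕ) where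
  L : Lin3
  j : Fin 3 → Fin m
  hj : Function.Injective j
  hf : ∀ i, f (j i) = C (L.u i) * X + C (L.w i)
  hn : ∀ i, n (j i) = 1

theorem hom_lin (u w x y : ℤ) : hom (C u * X + C w) 1 x y = u * x + w * y := by
  have h0 : (C u * X + C w : ℤ[X]).coeff 0 = w := by
    rw [coeff_add, coeff_C_zero, coeff_C_mul, coeff_X_zero, mul_zero, zero_add]
  have h1 : (C u * X + C w : ℤ[X]).coeff 1 = u := by
    rw [coeff_add, coeff_C_mul, coeff_X_one, mul_one, coeff_C_of_ne_zero one_ne_zero, add_zero]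
  unfold hom
  rw [sum_range_succ, sum_range_one, h0, h1]
  ring

/-- a natural number divisible by all the primes dividing the form -/
theorem rad_form (m : ℕ) (f : Fin m → ℤ[X]) (n : Fin m → ℕ) (hn : ∀ i, (f i).natDegree ≤ n i)
    (T : Three m f n) : ∃ C : ℝ, 1 ≤ C ∧ ∀ (x y : ℤ) (r : ℕ), r ≠ 0 →
      hom (∏ i, f i) (∑ i, n i) x y ≠ 0 → 1 ≤ max |(x : ℝ)| |(y : ℝ)| →
      (∀ p : ℕ, p.Prime → ∀ i, (p : ℤ) ∣ T.L.ev i x y → (p : ℤ) ∣ T.L.R * (r : ℕ)) →
      ∃ R0 : ℕ, R0 ≠ 0 ∧ (∀ p : ℕ, p.Prime → (p : ℤ) ∣ hom (∏ i, f i) (∑ i, n i) x y → p ∣ R0) ∧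
        (R0 : ℝ) ≤ C * (∏ p ∈ r.primeFactors, p : ℕ) *
          (max |(x : ℝ)| |(y : ℝ)|) ^ (∑ i, n i - 3) := by
  classical
  have hsz := fun i : Fin m => Pool.Agent.W505.VC.t_HOM.2.1 (f i) (n i)
  choose Cs hCs hsz using hsz
  set I3 : Finset (Fin m) := univ.image T.j with hI3
  set O : Finset (Fin m) := univ \ I3 with hO
  have hR := T.L.R_ne
  have hRr1 : (1 : ℝ) ≤ |(T.L.R : ℝ)| := by exact_mod_cast Int.one_le_abs hR
  have hsum3 : ∑ i ∈ I3, n i = 3 := by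
    rw [hI3, sum_image (fun a _ b _ h => T.hj h)]
    simp [T.hn]
  have hsumO : ∑ i ∈ O, n i = ∑ i, n i - 3 := by
    have h1 : ∑ i ∈ O, n i + ∑ i ∈ I3, n i = ∑ i, n i :=
      sum_sdiff (subset_univ I3)
    omega
  refine ⟨|(T.L.R : ℝ)| * ∏ i ∈ O, Cs i, ?_, ?_⟩
  · refine one_le_mul_of_one_le_of_one_le hRr1 ?_
    exact Finset.prod_induction _ (fun z : ℝ => 1 ≤ z)
      (fun _ _ h1 h2 => one_le_mul_of_one_le_of_one_le h1 h2) le_rfl (fun i _ => hCs i)
  intro x y r hr hF hH hp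
  have hprod := (hom_prod univ f n (fun i _ => hn i) x y).2
  have hne : ∀ i, hom (f i) (n i) x y ≠ 0 := by
    intro i h0
    apply hF
    rw [hprod]
    exact prod_eq_zero (mem_univ i) h0
  refine ⟨T.L.R.natAbs * (∏ p ∈ r.primeFactors, p) * ∏ i ∈ O, (hom (f i) (n i) x y).natAbs,
    ?_, ?_, ?_⟩
  · refine mul_ne_zero (mul_ne_zero (Int.natAbs_ne_zero.mpr hR) ?_) ?_
    · exact (prod_pos fun p hp => (Nat.prime_of_mem_primeFactors hp).pos).ne'
    · exact prod_ne_zero_iff.mpr fun i _ => Int.natAbs_ne_zero.mpr (hne i)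
  · intro p hpp hd
    have hpZ : Prime (p : ℤ) := Nat.prime_iff_prime_int.mp hpp
    rw [hprod] at hd
    obtain ⟨i, -, hi⟩ := (hpZ.dvd_finsetProd_iff _).mp hd
    by_cases hiO : i ∈ O
    · refine Dvd.dvd.mul_left ?_ _
      exact (Int.natCast_dvd.mp hi).trans (dvd_prod_of_mem _ hiO)
    · have hi3 : i ∈ I3 := by
        by_contra h
        exact hiO (mem_sdiff.mpr ⟨mem_univ i, h⟩)
      obtain ⟨l, -, rfl⟩ := mem_image.mp hi3
      rw [T.hf l, T.hn l, hom_lin] at hi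
      have h1 := hp p hpp l hi
      refine Dvd.dvd.mul_right ?_ _
      rcases hpZ.dvd_or_dvd h1 with h2 | h2
      · exact Dvd.dvd.mul_right (Int.natCast_dvd.mp h2) _
      · refine Dvd.dvd.mul_left ?_ _
        have h3 : p ∣ r := by exact_mod_cast h2
        exact dvd_prod_of_mem (fun p => p) (Nat.mem_primeFactors.mpr ⟨hpp, h3, hr⟩)
  · set H : ℝ := max |(x : ℝ)| |(y : ℝ)| with hHdef
    have h1 : ((∏ i ∈ O, (hom (f i) (n i) x y).natAbs : ℕ) : ℝ) ≤
        (∏ i ∈ O, Cs i) * H ^ (∑ i, n i - 3) := by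
      rw [← hsumO, ← prod_pow_eq_pow_sum, ← prod_mul_distrib]
      push_cast
      refine prod_le_prod (fun i _ => Nat.cast_nonneg _) fun i _ => ?_
      have h2 := hsz i x y
      rw [Nat.cast_natAbs, Int.cast_abs]
      exact h2
    have h2 : ((T.L.R.natAbs : ℕ) : ℝ) = |(T.L.R : ℝ)| := by
      rw [Nat.cast_natAbs, Int.cast_abs]
    rw [Nat.cast_mul, Nat.cast_mul, h2]
    calc |(T.L.R : ℝ)| * ((∏ p ∈ r.primeFactors, p : ℕ) : ℝ) *
          ((∏ i ∈ O, (hom (f i) (n i) x y).natAbs : ℕ) : ℝ)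
        ≤ |(T.L.R : ℝ)| * ((∏ p ∈ r.primeFactors, p : ℕ) : ℝ) *
          ((∏ i ∈ O, Cs i) * H ^ (∑ i, n i - 3)) := by gcongr
      _ = _ := by ring

/-- different triples give different parameters -/
theorem param_inj (L : Lin3) {a b a' b' : ℕ} {x y x' y' : ℤ} (ha' : 0 < a')
    (hab : Nat.Coprime a b) (hab' : Nat.Coprime a' b')
    (h : x * L.py a b = y * L.px a b) (h' : x' * L.py a' b' = y' * L.px a' b')
    (hxy : IsCoprime x y) (hxy' : IsCoprime x' y') (he : x * y' = x' * y) : a = a' ∧ b = b' := by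
  -- the determinant
  have hdet : L.px a b * L.py a' b' - L.px a' b' * L.py a b = L.R * (a * b' - a' * b) := by
    unfold Lin3.px Lin3.py Lin3.R; ring
  have key : L.px a b * L.py a' b' - L.px a' b' * L.py a b = 0 := by
    -- `(px, py) = l (x, y)` up to rational factors
    obtain ⟨s, t, hst⟩ := hxy
    obtain ⟨s', t', hst'⟩ := hxy'
    set g := s * L.px a b + t * L.py a b with hg
    set g' := s' * L.px a' b' + t' * L.py a' b' with hg'
    have e1 : L.px a b = g * x := by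
      rw [hg]; linear_combination (-(L.px a b)) * hst - t * h
    have e2 : L.py a b = g * y := by
      rw [hg]; linear_combination (-(L.py a b)) * hst + s * h
    have e3 : L.px a' b' = g' * x' := by
      rw [hg']; linear_combination (-(L.px a' b')) * hst' - t' * h'
    have e4 : L.py a' b' = g' * y' := by
      rw [hg']; linear_combination (-(L.py a' b')) * hst' + s' * h'
    rw [e1, e2, e3, e4]
    linear_combination (g * g') * he
  rw [key] at hdet
  have h1 : (a : ℤ) * b' = a' * b := by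
    have := (mul_eq_zero.mp hdet.symm).resolve_left L.R_ne
    linarith
  have h2 : a * b' = a' * b := by exact_mod_cast h1
  have h3 : a ∣ a' := hab.dvd_of_dvd_mul_right (h2 ▸ Dvd.intro _ rfl)
  have h4 : a' ∣ a := hab'.dvd_of_dvd_mul_right (h2.symm ▸ Dvd.intro _ rfl)
  have h5 : a = a' := Nat.dvd_antisymm h3 h4
  refine ⟨h5, ?_⟩
  rw [h5] at h2
  exact (Nat.eq_of_mul_eq_mul_left ha' h2).symm

theorem masser_core (a1 a2 a3 : ℤ[X]) (k m : ℕ) (f : Fin m → ℤ[X]) (n : Fin m → ℕ)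
    (hF : FamB (27 * c4p a1 a2 a3) (54 * c6p a1 a2 a3) k m f n)
    (hR : Rev (27 * c4p a1 a2 a3) (54 * c6p a1 a2 a3) k m f n) (T : Three m f n)
    (hq : ∑ i, n i = 2 * k + 2) {K K' : ℝ} (hK : 0 < K) (hK' : 0 < K')
    (h : K + K' < √(8 / 9) * Real.exp (59 / 30)) :
    ∃ C : ℝ, 1 ≤ C ∧ ∀ᶠ Y : ℝ in atTop, ∃ U : Finset (ℤ × ℤ),
      Real.exp (K' * √Y / Real.log Y) ≤ C * U.card + C ∧ ∀ z ∈ U, ∃ W : WeierstrassCurve ℤ,
        GMin W ∧ (∃ (t : ℚ) (D : WeierstrassCurve.VariableChange ℚ),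
          D • crv a1 a2 a3 t = W.map (Int.castRingHom ℚ)) ∧ z = (W.c₄, W.c₆) ∧
        max (|(W.c₄ : ℝ)| ^ 3) ((W.c₆ : ℝ) ^ 2) ≤ C * Real.exp (12 * k * Y) ∧
        (condW W : ℝ) ≤ C * Real.exp (2 * k * Y) ∧
        (condW W : ℝ) ^ 6 * Real.exp (6 * (K * √Y / Real.log Y)) ≤
          C * max (|(W.c₄ : ℝ)| ^ 3) ((W.c₆ : ℝ) ^ 2) := by
  classical
  obtain ⟨Cc, hCc, hcurve⟩ := curve_at a1 a2 a3 k m f n hF hR
  obtain ⟨hk, hA, hB, hlead, hcop, hn, hsq, hdeg, -, -, -⟩ := hF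
  obtain ⟨Cr, hCr, hrad⟩ := rad_form m f n hn T
  obtain ⟨Cp, hCp, hpt⟩ := T.L.point
  set F : ℤ[X] := ∏ i, f i with hFdef
  set q : ℕ := ∑ i, n i with hqdef
  have hle : F.natDegree ≤ q :=
    (natDegree_prod_le _ _).trans (Finset.sum_le_sum fun i _ => hn i)
  have hF0 : F ≠ 0 := by
    intro h0
    rw [h0] at hsq
    simp at hsq
  have hCc0 : 0 < Cc := by linarith
  have hCr0 : 0 < Cr := by linarith
  have hCp0 : 0 < Cp := by linarith
  set C4 : ℝ := Cc * Cp ^ (12 * k) with hC4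
  set C5 : ℝ := Cc * (Cr * Cp) * Cp ^ (2 * k) with hC5
  set C6 : ℝ := (Cc * (Cr * Cp)) ^ 6 * Cc with hC6
  have hC4' : 0 < C4 := by positivity
  have hC5' : 0 < C5 := by positivity
  have hC6' : 0 < C6 := by positivity
  have hqR : (0 : ℝ) ≤ q := Nat.cast_nonneg _
  have hkR : (0 : ℝ) ≤ k := Nat.cast_nonneg _
  refine ⟨1 + C4 + C5 + C6 + (q + 1) + 12 * k, by linarith, ?_⟩
  filter_upwards [Pool.Agent.W16.GT.many hK hK' h, eventually_ge_atTop 1] with Y hY hY1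
  obtain ⟨S, hScard, hS⟩ := hY
  -- the points
  have hex : ∀ t ∈ S, ∃ p : ℤ × ℤ, IsCoprime p.1 p.2 ∧
      (p.1 * T.L.py t.1 t.2.1 = p.2 * T.L.px t.1 t.2.1) ∧
      max |(p.1 : ℝ)| |(p.2 : ℝ)| ≤ Cp * t.2.2 ∧ (t.2.2 : ℝ) ≤ Cp * max |(p.1 : ℝ)| |(p.2 : ℝ)| ∧
      (∀ l : ℕ, l.Prime → ∀ i, (l : ℤ) ∣ T.L.ev i p.1 p.2 →
        (l : ℤ) ∣ T.L.R * (t.1 * t.2.1 * t.2.2 : ℕ)) := by
    intro t ht
    obtain ⟨h1, h2, h3, h4⟩ := hS t ht
    obtain ⟨x, y, g1, g2, g3, g4, g5⟩ := hpt t.1 t.2.1 t.2.2 h1.1 h1.2.1 h1.2.2.2.1 h1.2.2.2.2.1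
    exact ⟨(x, y), g1, g2, g3, g4, g5⟩
  choose! P hPc hPr hPu hPl hPp using hex
  have hPinj : ∀ t ∈ S, ∀ t' ∈ S, (P t).1 * (P t').2 = (P t').1 * (P t).2 → t = t' := by
    intro t ht t' ht' he
    obtain ⟨h1, -⟩ := hS t ht
    obtain ⟨h1', -⟩ := hS t' ht'
    obtain ⟨e1, e2⟩ := param_inj T.L h1'.1 h1.2.2.2.2.1 h1'.2.2.2.2.1
      (hPr t ht) (hPr t' ht') (hPc t ht) (hPc t' ht') he
    have e3 : t.2.2 = t'.2.2 := by
      rw [← h1.2.2.2.1, ← h1'.2.2.2.1, e1, e2]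
    exact Prod.ext e1 (Prod.ext e2 e3)
  -- the points at infinity and the zeros of the form
  set S1 := S.filter (fun t => (P t).2 = 0) with hS1
  set S2 := S.filter (fun t => (P t).2 ≠ 0 ∧ hom F q (P t).1 (P t).2 = 0) with hS2
  set G := S.filter (fun t => (P t).2 ≠ 0 ∧ hom F q (P t).1 (P t).2 ≠ 0) with hG
  have hS1c : S1.card ≤ 1 := by
    rw [card_le_one]
    intro t ht t' ht'
    obtain ⟨a1', a2'⟩ := mem_filter.mp ht
    obtain ⟨b1, b2⟩ := mem_filter.mp ht'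
    exact hPinj t a1' t' b1 (by rw [a2', b2]; ring)
  have hS2c : S2.card ≤ q := by
    have hF' : F.map (Int.castRingHom ℚ) ≠ 0 :=
      (Polynomial.map_ne_zero_iff Int.cast_injective).mpr hF0
    calc S2.card ≤ (F.map (Int.castRingHom ℚ)).roots.toFinset.card := by
          refine card_le_card_of_injOn (fun t => (((P t).1 : ℤ) : ℚ) / (((P t).2 : ℤ) : ℚ)) ?_ ?_
          · intro t ht
            obtain ⟨ht1, ht2, ht3⟩ := mem_filter.mp ht
            have hb : (((P t).2 : ℤ) : ℚ) ≠ 0 := by exact_mod_cast ht2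
            have h5 := hom_eval F q hle (P t).1 (P t).2 hb
            rw [ht3] at h5
            rw [mem_coe, Multiset.mem_toFinset, mem_roots hF', IsRoot.def]
            have h6 : ((((P t).2 : ℤ) : ℚ)) ^ q ≠ 0 := pow_ne_zero _ hb
            have h7 : ((((P t).2 : ℤ) : ℚ)) ^ q * eval ((((P t).1 : ℤ) : ℚ) / (((P t).2 : ℤ) : ℚ))
                (F.map (Int.castRingHom ℚ)) = 0 := by
              rw [← h5]; simp
            exact (mul_eq_zero.mp h7).resolve_left h6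
          · intro t ht t' ht' heq
            obtain ⟨ht1, ht2, -⟩ := mem_filter.mp ht
            obtain ⟨ht1', ht2', -⟩ := mem_filter.mp ht'
            refine hPinj t ht1 t' ht1' ?_
            have hb : (((P t).2 : ℤ) : ℚ) ≠ 0 := by exact_mod_cast ht2
            have hb' : (((P t').2 : ℤ) : ℚ) ≠ 0 := by exact_mod_cast ht2'
            have h8 : (((P t).1 : ℤ) : ℚ) * (((P t').2 : ℤ) : ℚ) =
                (((P t').1 : ℤ) : ℚ) * (((P t).2 : ℤ) : ℚ) := by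
              rw [← div_eq_div_iff hb hb']
              exact heq
            exact_mod_cast h8
      _ ≤ (F.map (Int.castRingHom ℚ)).roots.card := Multiset.toFinset_card_le _
      _ ≤ (F.map (Int.castRingHom ℚ)).natDegree := card_roots' _
      _ ≤ q := natDegree_map_le.trans hle
  have hcov : S ⊆ (S1 ∪ S2) ∪ G := by
    intro t ht
    by_cases h1 : (P t).2 = 0
    · exact mem_union_left _ (mem_union_left _ (mem_filter.mpr ⟨ht, h1⟩))
    · by_cases h2 : hom F q (P t).1 (P t).2 = 0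
      · exact mem_union_left _ (mem_union_right _ (mem_filter.mpr ⟨ht, h1, h2⟩))
      · exact mem_union_right _ (mem_filter.mpr ⟨ht, h1, h2⟩)
  have hScard2 : (S.card : ℝ) ≤ (q + 1) + G.card := by
    have h1 : S.card ≤ (1 + q) + G.card :=
      (card_le_card hcov).trans ((card_union_le _ _).trans (Nat.add_le_add_right
        ((card_union_le _ _).trans (Nat.add_le_add hS1c hS2c)) _))
    have h2 : (S.card : ℝ) ≤ ((1 + q + G.card : ℕ) : ℝ) := by exact_mod_cast h1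
    push_cast at h2
    linarith
  -- the curves
  have hGm : ∀ t ∈ G, t ∈ S ∧ (P t).2 ≠ 0 ∧ hom F q (P t).1 (P t).2 ≠ 0 := fun t ht => by
    obtain ⟨a, b⟩ := mem_filter.mp ht
    exact ⟨a, b⟩
  have hcv : ∀ t ∈ G, ∃ (W : WeierstrassCurve ℤ) (D : WeierstrassCurve.VariableChange ℚ),
      GMin W ∧ D • crv a1 a2 a3 (((P t).1 : ℚ) / ((P t).2 : ℚ)) = W.map (Int.castRingHom ℚ) ∧
        (max |((P t).1 : ℝ)| |((P t).2 : ℝ)|) ^ (12 * k) ≤
          Cc * max (|(W.c₄ : ℝ)| ^ 3) ((W.c₆ : ℝ) ^ 2) ∧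
        max (|(W.c₄ : ℝ)| ^ 3) ((W.c₆ : ℝ) ^ 2) ≤
          Cc * (max |((P t).1 : ℝ)| |((P t).2 : ℝ)|) ^ (12 * k) ∧
        ∀ R0 : ℕ, R0 ≠ 0 → (∀ p : ℕ, p.Prime → (p : ℤ) ∣ hom F q (P t).1 (P t).2 →
          p ∣ R0) → (condW W : ℝ) ≤ Cc * R0 := by
    intro t ht
    obtain ⟨h1, h2, h3⟩ := hGm t ht
    exact hcurve (P t).1 (P t).2 (hPc t h1) h2 h3
  choose! W D hWm hWD hWl hWu hWc using hcv
  let φ : ℕ × ℕ × ℕ → ℤ × ℤ := fun t => ((W t).c₄, (W t).c₆)
  have hfib : G.card ≤ (12 * k) * (G.image φ).card := by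
    refine card_le_mul_card_image G (12 * k) fun z hz => ?_
    obtain ⟨t0, ht0, rfl⟩ := mem_image.mp hz
    have h1 : (G.filter (fun t => φ t = φ t0)).card =
        ((G.filter (fun t => φ t = φ t0)).image
          (fun t => (((P t).1 : ℤ) : ℚ) / (((P t).2 : ℤ) : ℚ))).card := by
      rw [card_image_of_injOn]
      intro t ht t' ht' heq
      obtain ⟨a1', a2', -⟩ := hGm t (mem_filter.mp ht).1
      obtain ⟨b1, b2, -⟩ := hGm t' (mem_filter.mp ht').1
      refine hPinj t a1' t' b1 ?_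
      have hb : (((P t).2 : ℤ) : ℚ) ≠ 0 := by exact_mod_cast a2'
      have hb' : (((P t').2 : ℤ) : ℚ) ≠ 0 := by exact_mod_cast b2
      have h8 : (((P t).1 : ℤ) : ℚ) * (((P t').2 : ℤ) : ℚ) =
          (((P t').1 : ℤ) : ℚ) * (((P t).2 : ℤ) : ℚ) := by
        rw [← div_eq_div_iff hb hb']
        exact heq
      exact_mod_cast h8
    rw [h1]
    have hΔ0 := (hWm t0 ht0).1
    refine fibre (27 * c4p a1 a2 a3) (54 * c6p a1 a2 a3) k hk hA hB hlead hcop
      (27 * (W t0).c₄) (54 * (W t0).c₆) ?_ _ ?_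
    · have h2 : (4 * (27 * (W t0).c₄) ^ 3 - 27 * (54 * (W t0).c₆) ^ 2 : ℤ) =
          136048896 * (W t0).Δ := by
        have := (W t0).c_relation
        linear_combination (-78732) * this
      rw [h2]
      exact mul_ne_zero (by norm_num) hΔ0
    · intro t ht
      obtain ⟨s, hs, rfl⟩ := mem_image.mp ht
      obtain ⟨hs1, hs2⟩ := mem_filter.mp hs
      have hD := hWD s hs1
      have h4 := congrArg WeierstrassCurve.c₄ hD
      have h6 := congrArg WeierstrassCurve.c₆ hD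
      rw [WeierstrassCurve.variableChange_c₄, WeierstrassCurve.map_c₄, crv_c4, eq_intCast] at h4
      rw [WeierstrassCurve.variableChange_c₆, WeierstrassCurve.map_c₆, crv_c6, eq_intCast] at h6
      have hz4 : (W s).c₄ = (W t0).c₄ := (Prod.ext_iff.mp hs2).1
      have hz6 : (W s).c₆ = (W t0).c₆ := (Prod.ext_iff.mp hs2).2
      have hu0 : (((D s).u : ℚˣ) : ℚ) ≠ 0 := Units.ne_zero _
      refine ⟨(((D s).u : ℚˣ) : ℚ), hu0, ?_, ?_⟩
      · simp only [Polynomial.map_mul, Polynomial.map_ofNat, eval_mul, eval_ofNat]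
        push_cast
        rw [← hz4, ← h4]
        have : (((D s).u : ℚˣ) : ℚ) ^ 4 * (((D s).u⁻¹ : ℚˣ) : ℚ) ^ 4 = 1 := by
          rw [← mul_pow, Units.mul_inv, one_pow]
        linear_combination (-27 * eval (((P s).1 : ℚ) / ((P s).2 : ℚ))
          ((c4p a1 a2 a3).map (Int.castRingHom ℚ))) * this
      · simp only [Polynomial.map_mul, Polynomial.map_ofNat, eval_mul, eval_ofNat]
        push_cast
        rw [← hz6, ← h6]
        have : (((D s).u : ℚˣ) : ℚ) ^ 6 * (((D s).u⁻¹ : ℚˣ) : ℚ) ^ 6 = 1 := by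
          rw [← mul_pow, Units.mul_inv, one_pow]
        linear_combination (-54 * eval (((P s).1 : ℚ) / ((P s).2 : ℚ))
          ((c6p a1 a2 a3).map (Int.castRingHom ℚ))) * this
  refine ⟨G.image φ, ?_, ?_⟩
  · have h1 : (G.card : ℝ) ≤ 12 * k * (G.image φ).card := by exact_mod_cast hfib
    have h2 : (0 : ℝ) ≤ ((G.image φ).card : ℝ) := Nat.cast_nonneg _
    have h3 : 12 * (k : ℝ) * (G.image φ).card ≤
        (1 + C4 + C5 + C6 + (q + 1) + 12 * k) * (G.image φ).card :=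
      mul_le_mul_of_nonneg_right (by linarith) h2
    linarith
  · intro z hz
    obtain ⟨t, ht, rfl⟩ := mem_image.mp hz
    obtain ⟨htS, hy0, hF0'⟩ := hGm t ht
    obtain ⟨habc, -, hcY, hradt⟩ := hS t htS
    set H : ℝ := max |((P t).1 : ℝ)| |((P t).2 : ℝ)| with hHd
    have hy1 : (1 : ℝ) ≤ |((P t).2 : ℝ)| := by exact_mod_cast Int.one_le_abs hy0
    have hH1 : 1 ≤ H := hy1.trans (le_max_right _ _)
    have hH0 : 0 < H := by linarith
    have hc0 : (0 : ℝ) < t.2.2 := by exact_mod_cast habc.2.2.1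
    have hcexp : (t.2.2 : ℝ) ≤ Real.exp Y := (Real.log_le_iff_le_exp hc0).mp hcY
    have hHexp : H ≤ Cp * Real.exp Y := (hPu t htS).trans (by gcongr)
    have habc0 : t.1 * t.2.1 * t.2.2 ≠ 0 :=
      mul_ne_zero (mul_ne_zero habc.1.ne' habc.2.1.ne') habc.2.2.1.ne'
    obtain ⟨R0, hR0, hR0p, hR0le⟩ := hrad (P t).1 (P t).2 (t.1 * t.2.1 * t.2.2) habc0 hF0' hH1
      (hPp t htS)
    rw [← hHd] at hR0le
    have hcond := hWc t ht R0 hR0 hR0p
    set ρ : ℝ := K * √Y / Real.log Y with hρ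
    have hradpos : (0 : ℝ) < Pool.Agent.H390R2.rad (t.1 * t.2.1 * t.2.2) := by
      unfold Pool.Agent.H390R2.rad
      exact_mod_cast prod_pos fun p hp => (Nat.prime_of_mem_primeFactors hp).pos
    have hradle : (Pool.Agent.H390R2.rad (t.1 * t.2.1 * t.2.2) : ℝ) ≤
        t.2.2 * Real.exp (-ρ) := by
      have h1 : Real.log (Pool.Agent.H390R2.rad (t.1 * t.2.1 * t.2.2)) ≤
          Real.log t.2.2 - ρ := by linarith
      rw [← Real.log_le_log_iff hradpos (by positivity), Real.log_mul hc0.ne'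
        (Real.exp_pos _).ne', Real.log_exp]
      linarith
    have hq3 : q - 3 + 1 = 2 * k := by omega
    have hcond2 : (condW (W t) : ℝ) ≤ (Cc * (Cr * Cp)) * H ^ (2 * k) * Real.exp (-ρ) := by
      have e1 : (R0 : ℝ) ≤ Cr * (Cp * H * Real.exp (-ρ)) * H ^ (q - 3) := by
        refine hR0le.trans ?_
        have e2 : ((∏ p ∈ (t.1 * t.2.1 * t.2.2).primeFactors, p : ℕ) : ℝ) ≤
            Cp * H * Real.exp (-ρ) := by
          change (Pool.Agent.H390R2.rad (t.1 * t.2.1 * t.2.2) : ℝ) ≤ _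
          refine hradle.trans (mul_le_mul_of_nonneg_right ?_ (Real.exp_pos _).le)
          exact hPl t htS
        gcongr
      calc (condW (W t) : ℝ) ≤ Cc * R0 := hcond
        _ ≤ Cc * (Cr * (Cp * H * Real.exp (-ρ)) * H ^ (q - 3)) := by gcongr
        _ = (Cc * (Cr * Cp)) * (H ^ (q - 3) * H) * Real.exp (-ρ) := by ring
        _ = (Cc * (Cr * Cp)) * H ^ (2 * k) * Real.exp (-ρ) := by
            rw [← pow_succ, hq3]
    have hwht0 : 0 ≤ max (|((W t).c₄ : ℝ)| ^ 3) (((W t).c₆ : ℝ) ^ 2) :=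
      le_max_of_le_left (by positivity)
    refine ⟨W t, hWm t ht, ⟨_, D t, hWD t ht⟩, rfl, ?_, ?_, ?_⟩
    · calc max (|((W t).c₄ : ℝ)| ^ 3) (((W t).c₆ : ℝ) ^ 2) ≤ Cc * H ^ (12 * k) := hWu t ht
        _ ≤ Cc * (Cp * Real.exp Y) ^ (12 * k) := by gcongr
        _ = C4 * Real.exp (12 * k * Y) := by
            rw [mul_pow, ← Real.exp_nat_mul, hC4]
            push_cast
            ring
        _ ≤ _ := by
            refine mul_le_mul_of_nonneg_right ?_ (Real.exp_pos _).le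
            linarith
    · have hY0 : 0 ≤ ρ := by
        rw [hρ]
        have := Real.log_nonneg hY1
        positivity
      have h1 : Real.exp (-ρ) ≤ 1 := Real.exp_le_one_iff.mpr (by linarith)
      calc (condW (W t) : ℝ) ≤ (Cc * (Cr * Cp)) * H ^ (2 * k) * Real.exp (-ρ) := hcond2
        _ ≤ (Cc * (Cr * Cp)) * H ^ (2 * k) * 1 := by gcongr
        _ ≤ (Cc * (Cr * Cp)) * (Cp * Real.exp Y) ^ (2 * k) * 1 := by gcongr
        _ = C5 * Real.exp (2 * k * Y) := by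
            rw [mul_pow, ← Real.exp_nat_mul, hC5]
            push_cast
            ring
        _ ≤ _ := by
            refine mul_le_mul_of_nonneg_right ?_ (Real.exp_pos _).le
            linarith
    · have h1 : (condW (W t) : ℝ) ^ 6 ≤
          ((Cc * (Cr * Cp)) * H ^ (2 * k) * Real.exp (-ρ)) ^ 6 := by gcongr
      have h2 : Real.exp (-ρ) ^ 6 * Real.exp (6 * ρ) = 1 := by
        rw [← Real.exp_nat_mul, ← Real.exp_add]
        have : ((6 : ℕ) : ℝ) * -ρ + 6 * ρ = 0 := by push_cast; ring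
        rw [this, Real.exp_zero]
      have h3 : (H ^ (2 * k)) ^ 6 = H ^ (12 * k) := by
        rw [← pow_mul]; congr 1; ring
      calc (condW (W t) : ℝ) ^ 6 * Real.exp (6 * ρ)
          ≤ ((Cc * (Cr * Cp)) * H ^ (2 * k) * Real.exp (-ρ)) ^ 6 * Real.exp (6 * ρ) := by gcongr
        _ = (Cc * (Cr * Cp)) ^ 6 * (H ^ (2 * k)) ^ 6 * (Real.exp (-ρ) ^ 6 * Real.exp (6 * ρ)) := by
            ring
        _ = (Cc * (Cr * Cp)) ^ 6 * H ^ (12 * k) := by rw [h2, h3, mul_one]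
        _ ≤ (Cc * (Cr * Cp)) ^ 6 * (Cc * max (|((W t).c₄ : ℝ)| ^ 3) (((W t).c₆ : ℝ) ^ 2)) := by
            gcongr
            exact hWl t ht
        _ = C6 * max (|((W t).c₄ : ℝ)| ^ 3) (((W t).c₆ : ℝ) ^ 2) := by rw [hC6]; ring
        _ ≤ _ := by
            refine mul_le_mul_of_nonneg_right ?_ hwht0
            linarith

end Pool.Agent.TH498.MT
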