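import Pool.Agent.TH498.MT.M4

/-!
# The asymptotic form
-/

set_option autoImplicit false
set_option maxHeartbeats 4000000

namespace Pool.Agent.TH498.MT

open Finset Polynomial Filter Topology Pool.Agent.W4.CF Pool.Agent.W4.VC Pool.Agent.TH498.KB
open Pool.Agent.TH498.HF
open Pool.Agent.H39R3 (GMin condW shortW)

/-- few members with a given bound for the conductor -/
theorem fin_small (a1 a2 a3 : ℤ[X]) (k m : ℕ) (f : Fin m → ℤ[X]) (n : Fin m → ℕ)
    (hF : FamB (27 * c4p a1 a2 a3) (54 * c6p a1 a2 a3) k m f n) (hq : 3 ≤ ∑ i, n i) (N0 : ℕ) :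
    {z : ℤ × ℤ | ∃ W : WeierstrassCurve ℤ, GMin W ∧
      (∃ (t : ℚ) (D : WeierstrassCurve.VariableChange ℚ),
        D • crv a1 a2 a3 t = W.map (Int.castRingHom ℚ)) ∧ z = (W.c₄, W.c₆) ∧
      condW W ≤ N0}.Finite := by
  classical
  obtain ⟨C, d, hC, h⟩ := core_free _ _ k m f n hF (β := Fin 1) (fun _ => univ) (fun _ => hq) 1
    (fun i => (card_le_univ _).trans (by simp)) 6
  let φ : ℤ × ℤ → ℤ × ℤ := fun q => (27 * q.1, 54 * q.2)
  have hφ : Function.Injective φ := by
    rintro ⟨a, b⟩ ⟨a', b'⟩ hab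
    simp only [φ, Prod.mk.injEq] at hab
    obtain ⟨h1, h2⟩ := hab
    ext
    · simp only; omega
    · simp only; omega
  set S : Set (ℤ × ℤ) := {z : ℤ × ℤ | ∃ W : WeierstrassCurve ℤ, GMin W ∧
      (∃ (t : ℚ) (D : WeierstrassCurve.VariableChange ℚ),
        D • crv a1 a2 a3 t = W.map (Int.castRingHom ℚ)) ∧ z = (W.c₄, W.c₆) ∧
      condW W ≤ N0} with hS
  have hR1 : (1 : ℝ) ≤ (N0 : ℝ) + 1 := by
    have : (0 : ℝ) ≤ N0 := Nat.cast_nonneg _
    linarith
  have hfin := fin_of_bound (φ '' S) _ (fun s hs => h ((N0 : ℝ) + 1) hR1 s (by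
    intro p hp
    obtain ⟨z, ⟨W, hW, ⟨t, D, hD⟩, rfl, hcond⟩, rfl⟩ := hs hp
    have h3 : (4 * (27 * W.c₄) ^ 3 - 27 * (54 * W.c₆) ^ 2 : ℤ) = 136048896 * W.Δ := by
      have := W.c_relation
      linear_combination (-78732) * this
    refine ⟨?_, mem_inv a1 a2 a3 t D W hD, fun r h4 h6 => prim_of_gmin W hW r h4 h6, ?_⟩
    · change (4 * (27 * W.c₄) ^ 3 - 27 * (54 * W.c₆) ^ 2 : ℤ) ≠ 0
      rw [h3]
      exact mul_ne_zero (by norm_num) hW.1
    · change (rad5 (4 * (27 * W.c₄) ^ 3 - 27 * (54 * W.c₆) ^ 2) : ℝ) ≤ _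
      have hle : rad5 (4 * (27 * W.c₄) ^ 3 - 27 * (54 * W.c₆) ^ 2) ≤ rad5 W.Δ := by
        rw [h3]
        unfold rad5
        have hsub : (136048896 * W.Δ).natAbs.primeFactors.filter (fun p => 5 ≤ p) ⊆
            W.Δ.natAbs.primeFactors.filter (fun p => 5 ≤ p) := by
          intro p hp
          obtain ⟨hp1, hp2⟩ := mem_filter.mp hp
          have hpp := Nat.prime_of_mem_primeFactors hp1
          refine mem_filter.mpr ⟨?_, hp2⟩
          have hd := Nat.dvd_of_mem_primeFactors hp1
          rw [Int.natAbs_mul] at hd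
          rcases (Nat.Prime.dvd_mul hpp).mp hd with h | h
          · exfalso
            have h' : p ∣ 2 ^ 8 * 3 ^ 12 := by
              have e : (136048896 : ℤ).natAbs = 2 ^ 8 * 3 ^ 12 := by norm_num
              rwa [e] at h
            rcases (Nat.Prime.dvd_mul hpp).mp h' with h | h
            · have := Nat.le_of_dvd (by norm_num) (hpp.dvd_of_dvd_pow h)
              omega
            · have := Nat.le_of_dvd (by norm_num) (hpp.dvd_of_dvd_pow h)
              omega
          · exact Nat.mem_primeFactors.mpr ⟨hpp, h, Int.natAbs_ne_zero.mpr hW.1⟩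
        exact Finset.prod_le_prod_of_subset_of_one_le' hsub fun i hi _ =>
          (Nat.prime_of_mem_primeFactors (mem_filter.mp hi).1).one_le
      have hle2 : rad5 W.Δ ≤ condW W := by
        unfold rad5 condW
        refine Finset.prod_le_prod' fun p hp => ?_
        have h1 := (Nat.prime_of_mem_primeFactors (mem_filter.mp hp).1).one_le
        split_ifs
        · nlinarith
        · exact le_rfl
      have h5 : ((rad5 (4 * (27 * W.c₄) ^ 3 - 27 * (54 * W.c₆) ^ 2) : ℕ) : ℝ) ≤ (N0 : ℝ) := by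
        exact_mod_cast (hle.trans hle2).trans hcond
      linarith))
  exact Set.Finite.of_finite_image hfin.1 hφ.injOn

/-- monotonicity of `√s / log s` -/
theorem sqrt_div_log_mono {a b : ℝ} (ha : Real.exp 2 ≤ a) (hab : a ≤ b) :
    √a / Real.log a ≤ √b / Real.log b := by
  have h1 := Real.log_div_sqrt_antitoneOn (show a ∈ {x : ℝ | Real.exp 2 ≤ x} from ha)
    (show b ∈ {x : ℝ | Real.exp 2 ≤ x} from ha.trans hab) hab
  have ha0 : 0 < a := (Real.exp_pos 2).trans_le ha
  have hb0 : 0 < b := ha0.trans_le hab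
  have hla : 2 ≤ Real.log a := by rwa [Real.le_log_iff_exp_le ha0]
  have hlb : 2 ≤ Real.log b := by
    rw [Real.le_log_iff_exp_le hb0]; exact ha.trans hab
  have hsa : 0 < √a := Real.sqrt_pos.mpr ha0
  have hsb : 0 < √b := Real.sqrt_pos.mpr hb0
  simp only at h1
  rw [div_le_div_iff₀ hsb hsa] at h1
  rw [div_le_div_iff₀ (by linarith) (by linarith)]
  linarith

/-- `√s / log s` tends to infinity -/
theorem rho_tendsto : Tendsto (fun Y : ℝ => √Y / Real.log Y) atTop atTop := by
  rw [tendsto_atTop]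
  intro c
  have h1 := Pool.Agent.W16.GT.rho_atTop (max c 1)
  filter_upwards [h1, eventually_ge_atTop (Real.exp 1)] with Y hY hY1
  have h2 : 1 ≤ Real.log Y := by
    rwa [Real.le_log_iff_exp_le ((Real.exp_pos 1).trans_le hY1)]
  calc c ≤ max c 1 := le_max_left _ _
    _ ≤ max c 1 * Real.log Y := le_mul_of_one_le_right (by positivity) h2
    _ ≤ _ := hY

theorem sqrt_add_le' {a b : ℝ} (ha : 0 ≤ a) (hb : 0 ≤ b) : √(a + b) ≤ √a + √b := by
  rw [Real.sqrt_le_left (by positivity), add_sq, Real.sq_sqrt ha, Real.sq_sqrt hb]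
  have : 0 ≤ 2 * √a * √b := by positivity
  linarith

theorem masser (a1 a2 a3 : ℤ[X]) (k m : ℕ) (f : Fin m → ℤ[X]) (n : Fin m → ℕ)
    (hF : FamB (27 * c4p a1 a2 a3) (54 * c6p a1 a2 a3) k m f n)
    (hR : Rev (27 * c4p a1 a2 a3) (54 * c6p a1 a2 a3) k m f n) (T : Three m f n)
    (hq : ∑ i, n i = 2 * k + 2) {κ κ' : ℝ} (hκ : 0 < κ) (hκ' : 0 < κ')
    (h : κ * √(2 * k) / 6 + κ' * √(12 * k) < √(8 / 9) * Real.exp (59 / 30)) (C0 : ℝ)
    (hC0 : 0 < C0) :
    ∀ᶠ Z : ℝ in atTop, ∃ U : Finset (ℤ × ℤ),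
      Real.exp (κ' * √Z / Real.log Z) ≤ U.card ∧ ∀ z ∈ U, ∃ W : WeierstrassCurve ℤ,
        GMin W ∧ (∃ (t : ℚ) (D : WeierstrassCurve.VariableChange ℚ),
          D • crv a1 a2 a3 t = W.map (Int.castRingHom ℚ)) ∧ z = (W.c₄, W.c₆) ∧
        max (|(W.c₄ : ℝ)| ^ 3) ((W.c₆ : ℝ) ^ 2) ≤ Real.exp Z ∧
        C0 * (condW W : ℝ) ^ 6 * Real.exp (κ * √(Real.log (condW W)) /
          Real.log (Real.log (condW W))) < max (|(W.c₄ : ℝ)| ^ 3) ((W.c₆ : ℝ) ^ 2) := by
  classical
  have hk : 1 ≤ k := hF.hk
  have hkR : (1 : ℝ) ≤ k := by exact_mod_cast hk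
  set D0 : ℝ := √(8 / 9) * Real.exp (59 / 30) with hD0
  set η : ℝ := (D0 - (κ * √(2 * k) / 6 + κ' * √(12 * k))) / 3 with hη
  have hη0 : 0 < η := by rw [hη]; linarith
  have hs2 : 0 < √(2 * (k : ℝ)) := Real.sqrt_pos.mpr (by linarith)
  have hs12 : 0 < √(12 * (k : ℝ)) := Real.sqrt_pos.mpr (by linarith)
  set K : ℝ := κ * √(2 * k) / 6 + η with hK
  set K' : ℝ := κ' * √(12 * k) + η with hK'
  have hK0 : 0 < K := by positivity
  have hK'0 : 0 < K' := by positivity
  have hKK : K + K' < D0 := by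
    rw [hK, hK']
    have : 3 * η = D0 - (κ * √(2 * k) / 6 + κ' * √(12 * k)) := by rw [hη]; ring
    linarith
  obtain ⟨C, hC, hcore⟩ := masser_core a1 a2 a3 k m f n hF hR T hq hK0 hK'0 hKK
  have hC0' : 0 < C := by linarith
  have hlC : 0 ≤ Real.log C := Real.log_nonneg hC
  -- the finite exceptional set
  set N0 : ℕ := ⌈Real.exp (Real.exp 2)⌉₊ with hN0
  have hE := fin_small a1 a2 a3 k m f n hF (by omega) N0
  set E := hE.toFinset with hEdef
  -- the height parameter
  set Yf : ℝ → ℝ := fun Z => (Z - Real.log C) / (12 * k) with hYf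
  have hYt : Tendsto Yf atTop atTop := by
    have h1 : Tendsto (fun Z : ℝ => Z - Real.log C) atTop atTop :=
      tendsto_atTop_add_const_right _ _ tendsto_id
    exact h1.atTop_div_const (by positivity)
  have e1 := hYt.eventually hcore
  -- the first asymptotic condition
  have e2 : ∀ᶠ Y : ℝ in atTop, κ * √(Real.log C) + Real.log (C0 * C) < 6 * η * (√Y / Real.log Y) :=
    (rho_tendsto.const_mul_atTop (by positivity)).eventually_gt_atTop _
  have e3 := hYt.eventually e2
  have e4 := hYt.eventually (eventually_ge_atTop (Real.exp 1))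
  -- the second one
  set ε : ℝ := η / (2 * K') with hε
  have hε0 : 0 < ε := by positivity
  have hε1 : ε ≤ 1 / 2 := by
    rw [hε, div_le_iff₀ (by positivity)]
    have : 0 < κ' * √(12 * k) := by positivity
    rw [hK']
    linarith
  have e5 : ∀ᶠ Z : ℝ in atTop, Real.log C ≤ ε * Z :=
    (tendsto_id.const_mul_atTop hε0).eventually_ge_atTop _
  have e6 : ∀ᶠ Z : ℝ in atTop, Real.log (2 * C + C * E.card) ≤
      (η / 2) / √(12 * k) * (√Z / Real.log Z) :=
    (rho_tendsto.const_mul_atTop (by positivity)).eventually_ge_atTop _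
  filter_upwards [e1, e3, e4, e5, e6, eventually_ge_atTop (Real.exp 1)] with Z h1 h3 h4 h5 h6 h7
  obtain ⟨U, hU1, hU2⟩ := h1
  set Y : ℝ := Yf Z with hYd
  have hYZ : 12 * k * Y = Z - Real.log C := by
    rw [hYd, hYf]; field_simp
  have hY0 : 0 < Y := (Real.exp_pos 1).trans_le h4
  have hlY : 1 ≤ Real.log Y := by rwa [Real.le_log_iff_exp_le hY0]
  have hZ0 : 0 < Z := (Real.exp_pos 1).trans_le h7
  have hlZ : 1 ≤ Real.log Z := by rwa [Real.le_log_iff_exp_le hZ0]
  have hYleZ : Y ≤ Z := by
    have : Y ≤ 12 * k * Y := le_mul_of_one_le_left hY0.le (by linarith)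
    linarith
  set ρ : ℝ := √Y / Real.log Y with hρ
  have hρ0 : 0 < ρ := div_pos (Real.sqrt_pos.mpr hY0) (by linarith)
  refine ⟨U \ E, ?_, ?_⟩
  · -- the number of curves
    have hcard : (U.card : ℝ) ≤ (U \ E).card + E.card := by
      have : U.card ≤ (U \ E).card + E.card := by
        have h8 := card_le_card (show U ⊆ (U \ E) ∪ E by
          intro x hx
          by_cases hxE : x ∈ E
          · exact mem_union_right _ hxE
          · exact mem_union_left _ (mem_sdiff.mpr ⟨hx, hxE⟩))
        exact h8.trans (card_union_le _ _)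
      exact_mod_cast this
    have hKρ : κ' * √Z / Real.log Z + (η / 2) / √(12 * k) * (√Z / Real.log Z) ≤
        K' * √Y / Real.log Y := by
      have a1' : √(12 * k) * √Y = √(Z - Real.log C) := by
        rw [← Real.sqrt_mul (by positivity), hYZ]
      have a2' : (1 - ε) * √Z ≤ √(Z - Real.log C) := by
        have b1 : (1 - ε) * √Z = √((1 - ε) ^ 2 * Z) := by
          rw [Real.sqrt_mul (sq_nonneg _), Real.sqrt_sq (by linarith)]
        rw [b1]
        refine Real.sqrt_le_sqrt ?_
        have c1 : (1 - ε) ^ 2 ≤ 1 - ε := by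
          have : (1 - ε) * (1 - ε) ≤ (1 - ε) * 1 :=
            mul_le_mul_of_nonneg_left (by linarith) (by linarith)
          rw [sq]; linarith
        have c2 : (1 - ε) ^ 2 * Z ≤ (1 - ε) * Z := mul_le_mul_of_nonneg_right c1 hZ0.le
        have c3 : (1 - ε) * Z = Z - ε * Z := by ring
        linarith
      have a3' : (κ' * √(12 * k) + η / 2) ≤ K' * (1 - ε) := by
        have : K' * ε = η / 2 := by rw [hε]; field_simp
        rw [mul_sub, mul_one, this, hK']
        linarith
      have a4' : (κ' * √(12 * k) + η / 2) * √Z ≤ K' * (√(12 * k) * √Y) := by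
        rw [a1']
        calc (κ' * √(12 * k) + η / 2) * √Z ≤ K' * (1 - ε) * √Z := by gcongr
          _ = K' * ((1 - ε) * √Z) := by ring
          _ ≤ K' * √(Z - Real.log C) := by gcongr
      have a5' : (κ' + η / 2 / √(12 * k)) * √Z ≤ K' * √Y := by
        have b2 : √(12 * k) * ((κ' + η / 2 / √(12 * k)) * √Z) = (κ' * √(12 * k) + η / 2) * √Z := by
          field_simp
        have b3 : √(12 * k) * ((κ' + η / 2 / √(12 * k)) * √Z) ≤ √(12 * k) * (K' * √Y) := by
          rw [b2]
          linarith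
        exact le_of_mul_le_mul_left b3 hs12
      have a6' : Real.log Y ≤ Real.log Z := Real.log_le_log hY0 hYleZ
      calc κ' * √Z / Real.log Z + η / 2 / √(12 * k) * (√Z / Real.log Z)
          = (κ' + η / 2 / √(12 * k)) * √Z / Real.log Z := by ring
        _ ≤ K' * √Y / Real.log Z := by gcongr
        _ ≤ K' * √Y / Real.log Y := by
            refine div_le_div_of_nonneg_left (by positivity) (by linarith) a6'
    have hbig : (2 * C + C * E.card) * Real.exp (κ' * √Z / Real.log Z) ≤
        Real.exp (K' * √Y / Real.log Y) := by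
      have hpos : 0 < 2 * C + C * (E.card : ℝ) := by positivity
      rw [← Real.exp_log hpos, ← Real.exp_add]
      refine Real.exp_le_exp.mpr ?_
      linarith
    have hX1 : 1 ≤ Real.exp (κ' * √Z / Real.log Z) := Real.one_le_exp (by positivity)
    set Xe := Real.exp (κ' * √Z / Real.log Z) with hXe
    have hEc : (0 : ℝ) ≤ E.card := Nat.cast_nonneg _
    -- `C Xe ≤ C card`
    have h9 : C * Xe ≤ C * (U \ E).card := by
      have h10 : C * (U.card : ℝ) ≤ C * ((U \ E).card + E.card) :=
        mul_le_mul_of_nonneg_left hcard hC0'.le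
      have h11 : C * E.card ≤ C * E.card * Xe := le_mul_of_one_le_right (by positivity) hX1
      have h12 : C ≤ C * Xe := le_mul_of_one_le_right hC0'.le hX1
      have h13 : (2 * C + C * E.card) * Xe = 2 * (C * Xe) + C * E.card * Xe := by ring
      have h14 : C * ((U \ E).card + E.card : ℝ) = C * (U \ E).card + C * E.card := by ring
      rw [h13] at hbig
      rw [h14] at h10
      linarith
    exact le_of_mul_le_mul_left h9 hC0'
  · intro z hz
    obtain ⟨hzU, hzE⟩ := mem_sdiff.mp hz
    obtain ⟨W, hW, htD, rfl, hht, hcN, hmain⟩ := hU2 z hzU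
    refine ⟨W, hW, htD, rfl, ?_, ?_⟩
    · refine hht.trans (le_of_eq ?_)
      rw [hYZ, Real.exp_sub, Real.exp_log hC0']
      field_simp
    · have hNbig : N0 < condW W := by
        by_contra hcon
        apply hzE
        rw [hEdef, Set.Finite.mem_toFinset]
        exact ⟨W, hW, htD, rfl, not_lt.mp hcon⟩
      set N : ℝ := (condW W : ℝ) with hN
      have hNexp : Real.exp (Real.exp 2) ≤ N := by
        have : (N0 : ℝ) ≤ N := Nat.cast_le.mpr hNbig.le
        exact (Nat.le_ceil _).trans this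
      have hN0' : 0 < N := (Real.exp_pos _).trans_le hNexp
      have hlN : Real.exp 2 ≤ Real.log N := by rwa [Real.le_log_iff_exp_le hN0']
      have hlN2 : Real.log N ≤ 2 * k * Y + Real.log C := by
        rw [Real.log_le_iff_le_exp hN0', Real.exp_add, Real.exp_log hC0', mul_comm]
        exact hcN
      set s : ℝ := 2 * k * Y + Real.log C with hs
      have hYs : Y ≤ s := by
        have : Y ≤ 2 * k * Y := le_mul_of_one_le_left hY0.le (by linarith)
        linarith
      have hg : √(Real.log N) / Real.log (Real.log N) ≤ √(2 * k) * ρ + √(Real.log C) := by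
        calc √(Real.log N) / Real.log (Real.log N) ≤ √s / Real.log s :=
              sqrt_div_log_mono hlN hlN2
          _ ≤ √s / Real.log Y := by
              refine div_le_div_of_nonneg_left (Real.sqrt_nonneg _) (by linarith) ?_
              exact Real.log_le_log hY0 hYs
          _ ≤ (√(2 * k) * √Y + √(Real.log C)) / Real.log Y := by
              refine div_le_div_of_nonneg_right ?_ (by linarith)
              rw [hs, ← Real.sqrt_mul (by positivity)]
              exact sqrt_add_le' (by positivity) hlC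
          _ = √(2 * k) * ρ + √(Real.log C) / Real.log Y := by rw [hρ]; ring
          _ ≤ √(2 * k) * ρ + √(Real.log C) := by
              have := div_le_self (Real.sqrt_nonneg (Real.log C)) hlY
              linarith
      have hexp : Real.log (C0 * C) + κ * √(Real.log N) / Real.log (Real.log N) <
          6 * (K * √Y / Real.log Y) := by
        have b1 : κ * √(Real.log N) / Real.log (Real.log N) ≤
            κ * (√(2 * k) * ρ + √(Real.log C)) := by
          rw [mul_div_assoc]
          exact mul_le_mul_of_nonneg_left hg hκ.le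
        have b2 : 6 * (K * √Y / Real.log Y) = κ * (√(2 * k) * ρ) + 6 * η * ρ := by
          rw [hK, hρ]; ring
        rw [b2]
        linarith
      have hexp2 : C0 * C * Real.exp (κ * √(Real.log N) / Real.log (Real.log N)) <
          Real.exp (6 * (K * √Y / Real.log Y)) := by
        have hpos : 0 < C0 * C := by positivity
        rw [← Real.exp_log hpos, ← Real.exp_add]
        exact Real.exp_lt_exp.mpr hexp
      have hN6 : 0 < N ^ 6 := pow_pos hN0' 6
      have hfin : C * (C0 * N ^ 6 * Real.exp (κ * √(Real.log N) / Real.log (Real.log N))) <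
          C * max (|(W.c₄ : ℝ)| ^ 3) ((W.c₆ : ℝ) ^ 2) := by
        calc C * (C0 * N ^ 6 * Real.exp (κ * √(Real.log N) / Real.log (Real.log N)))
            = N ^ 6 * (C0 * C * Real.exp (κ * √(Real.log N) / Real.log (Real.log N))) := by ring
          _ < N ^ 6 * Real.exp (6 * (K * √Y / Real.log Y)) := mul_lt_mul_of_pos_left hexp2 hN6
          _ ≤ _ := hmain
      exact lt_of_mul_lt_mul_left hfin hC0'.le

end Pool.Agent.TH498.MT
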