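import Pool.Agent.TH498.MT.M3

/-!
# Semistable members with a small conductor
-/

set_option autoImplicit false
set_option maxHeartbeats 4000000

namespace Pool.Agent.TH498.MT

open Finset Polynomial Filter Topology Pool.Agent.W4.CF Pool.Agent.W4.VC Pool.Agent.TH498.KB
open Pool.Agent.TH498.HF

/-- many coprime pairs whose first entry is divisible by a given number -/
theorem pairs_mod (M0 : ℕ) (hM0 : 2 ≤ M0) : ∃ C : ℝ, 1 ≤ C ∧ ∀ H : ℕ, ∃ P : Finset (ℤ × ℤ),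
    (H : ℝ) ^ 2 ≤ C * P.card ∧ ∀ p ∈ P, IsCoprime p.1 p.2 ∧ (M0 : ℤ) ∣ p.1 ∧ 0 < p.2 ∧
      |(p.1 : ℝ)| ≤ C * H ∧ |(p.2 : ℝ)| ≤ C * H := by
  classical
  have hcls : ∀ c : ℕ × ℕ, ∃ a b r s : ℤ, (∃ a b : ℤ, IsCoprime a b ∧ (M0 : ℤ) ∣ a - c.1 ∧
      (M0 : ℤ) ∣ b - c.2) → r * a + s * b = 1 ∧ (M0 : ℤ) ∣ a - c.1 ∧ (M0 : ℤ) ∣ b - c.2 := by
    intro c
    by_cases h : ∃ a b : ℤ, IsCoprime a b ∧ (M0 : ℤ) ∣ a - c.1 ∧ (M0 : ℤ) ∣ b - c.2
    · obtain ⟨a, b, ⟨r, s, hrs⟩, h1, h2⟩ := h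
      exact ⟨a, b, r, s, fun _ => ⟨hrs, h1, h2⟩⟩
    · exact ⟨0, 0, 0, 0, fun h' => absurd h' h⟩
  choose a b r s hc using hcls
  let cl : ℕ × ℕ → ℕ × ℕ := fun p => (p.1 % M0, p.2 % M0)
  let G : ℕ × ℕ → ℤ × ℤ := fun p => (b (cl p) * p.1 - a (cl p) * p.2, r (cl p) * p.1 + s (cl p) * p.2)
  let Φ : ℕ × ℕ → ℤ × ℤ := fun p => if 0 < (G p).2 then G p else (-(G p).1, -(G p).2)
  set R : Finset (ℕ × ℕ) := range M0 ×ˢ range M0 with hR
  set C0 : ℝ := ∑ c ∈ R, ((|a c| + |b c| + |r c| + |s c| : ℤ) : ℝ) with hC0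
  have hC00 : 0 ≤ C0 := sum_nonneg fun c _ => by positivity
  refine ⟨C0 + 8 * (M0 : ℝ) ^ 2, by
    have : (2 : ℝ) ≤ M0 := by exact_mod_cast hM0
    nlinarith, fun H => ?_⟩
  have hclR : ∀ p, cl p ∈ R := fun p => mem_product.mpr
    ⟨mem_range.mpr (Nat.mod_lt _ (by omega)), mem_range.mpr (Nat.mod_lt _ (by omega))⟩
  have hle : ∀ p, ((|a (cl p)| + |b (cl p)| + |r (cl p)| + |s (cl p)| : ℤ) : ℝ) ≤ C0 := fun p =>
    single_le_sum (f := fun c => ((|a c| + |b c| + |r c| + |s c| : ℤ) : ℝ))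
      (fun c _ => by positivity) (hclR p)
  have hgood : ∀ p ∈ cpr H, r (cl p) * a (cl p) + s (cl p) * b (cl p) = 1 ∧
      (M0 : ℤ) ∣ a (cl p) - p.1 ∧ (M0 : ℤ) ∣ b (cl p) - p.2 := by
    intro p hp
    obtain ⟨-, h2⟩ := mem_filter.mp hp
    have m1 : (M0 : ℤ) ∣ (p.1 : ℤ) - ((cl p).1 : ℕ) := by
      have := Int.dvd_self_sub_emod (x := (p.1 : ℤ)) (m := (M0 : ℤ))
      simpa [cl] using this
    have m2 : (M0 : ℤ) ∣ (p.2 : ℤ) - ((cl p).2 : ℕ) := by
      have := Int.dvd_self_sub_emod (x := (p.2 : ℤ)) (m := (M0 : ℤ))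
      simpa [cl] using this
    obtain ⟨h3, h4, h5⟩ := hc (cl p) ⟨p.1, p.2, Nat.isCoprime_iff_coprime.mpr h2, m1, m2⟩
    refine ⟨h3, ?_, ?_⟩
    · have := dvd_sub h4 m1
      have e : a (cl p) - ((cl p).1 : ℕ) - ((p.1 : ℤ) - ((cl p).1 : ℕ)) = a (cl p) - p.1 := by ring
      rwa [e] at this
    · have := dvd_sub h5 m2
      have e : b (cl p) - ((cl p).2 : ℕ) - ((p.2 : ℤ) - ((cl p).2 : ℕ)) = b (cl p) - p.2 := by ring
      rwa [e] at this
  have hG1 : ∀ p ∈ cpr H, IsCoprime (G p).1 (G p).2 ∧ (M0 : ℤ) ∣ (G p).1 ∧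
      (p.1 : ℤ) = s (cl p) * (G p).1 + a (cl p) * (G p).2 ∧
      (p.2 : ℤ) = -r (cl p) * (G p).1 + b (cl p) * (G p).2 := by
    intro p hp
    obtain ⟨h1, h2, h3⟩ := hgood p hp
    have e1 : (p.1 : ℤ) = s (cl p) * (G p).1 + a (cl p) * (G p).2 := by
      simp only [G]
      linear_combination (-(p.1 : ℤ)) * h1
    have e2 : (p.2 : ℤ) = -r (cl p) * (G p).1 + b (cl p) * (G p).2 := by
      simp only [G]
      linear_combination (-(p.2 : ℤ)) * h1
    refine ⟨?_, ?_, e1, e2⟩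
    · obtain ⟨-, hcop⟩ := mem_filter.mp hp
      obtain ⟨u, v, huv⟩ := Nat.isCoprime_iff_coprime.mpr hcop
      refine ⟨s (cl p) * u - r (cl p) * v, a (cl p) * u + b (cl p) * v, ?_⟩
      have : u * (s (cl p) * (G p).1 + a (cl p) * (G p).2) +
          v * (-r (cl p) * (G p).1 + b (cl p) * (G p).2) = 1 := by
        rw [← e1, ← e2]; exact huv
      linear_combination this
    · have e3 : (G p).1 = (b (cl p) - p.2) * p.1 - (a (cl p) - p.1) * p.2 := by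
        simp only [G]; ring
      rw [e3]
      exact dvd_sub (h3.mul_right _) (h2.mul_right _)
  have hG2 : ∀ p ∈ cpr H, (G p).2 ≠ 0 := by
    intro p hp h0
    obtain ⟨h1, h2, -⟩ := hG1 p hp
    rw [h0] at h1
    have h3 : IsUnit (G p).1 := isCoprime_zero_right.mp h1
    have h4 : IsUnit (M0 : ℤ) := isUnit_of_dvd_unit h2 h3
    rw [Int.isUnit_iff] at h4
    omega
  have hsz : ∀ p ∈ cpr H, |((G p).1 : ℝ)| ≤ C0 * H ∧ |((G p).2 : ℝ)| ≤ C0 * H := by
    intro p hp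
    obtain ⟨h1, -⟩ := mem_filter.mp hp
    obtain ⟨h2, h3⟩ := mem_product.mp h1
    have b1 : (p.1 : ℝ) ≤ H := by exact_mod_cast (mem_Ioc.mp h2).2
    have b2 : (p.2 : ℝ) ≤ H := by exact_mod_cast (mem_Ioc.mp h3).2
    have c1 : (0 : ℝ) ≤ p.1 := Nat.cast_nonneg _
    have c2 : (0 : ℝ) ≤ p.2 := Nat.cast_nonneg _
    have hH0 : (0 : ℝ) ≤ H := Nat.cast_nonneg _
    have h4 := hle p
    push_cast at h4
    have d1 := abs_nonneg ((a (cl p) : ℤ) : ℝ)
    have d2 := abs_nonneg ((b (cl p) : ℤ) : ℝ)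
    have d3 := abs_nonneg ((r (cl p) : ℤ) : ℝ)
    have d4 := abs_nonneg ((s (cl p) : ℤ) : ℝ)
    constructor
    · have e : (((G p).1 : ℤ) : ℝ) = b (cl p) * p.1 - a (cl p) * p.2 := by
        simp only [G]; push_cast; ring
      rw [e]
      refine (abs_sub _ _).trans ?_
      rw [abs_mul, abs_mul, abs_of_nonneg c1, abs_of_nonneg c2]
      nlinarith [mul_le_mul_of_nonneg_left b1 d2, mul_le_mul_of_nonneg_left b2 d1,
        mul_nonneg d3 hH0, mul_nonneg d4 hH0, mul_le_mul_of_nonneg_right h4 hH0]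
    · have e : (((G p).2 : ℤ) : ℝ) = r (cl p) * p.1 + s (cl p) * p.2 := by
        simp only [G]; push_cast; ring
      rw [e]
      refine (abs_add_le _ _).trans ?_
      rw [abs_mul, abs_mul, abs_of_nonneg c1, abs_of_nonneg c2]
      nlinarith [mul_le_mul_of_nonneg_left b1 d3, mul_le_mul_of_nonneg_left b2 d4,
        mul_nonneg d1 hH0, mul_nonneg d2 hH0, mul_le_mul_of_nonneg_right h4 hH0]
  have hH0 : (0 : ℝ) ≤ H := Nat.cast_nonneg _
  have hbig : C0 * H ≤ (C0 + 8 * (M0 : ℝ) ^ 2) * H :=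
    mul_le_mul_of_nonneg_right (by nlinarith [sq_nonneg (M0 : ℝ)]) hH0
  refine ⟨(cpr H).image Φ, ?_, ?_⟩
  · have hcard : (cpr H).card ≤ (((cpr H).image Φ) ×ˢ (R ×ˢ (univ : Finset Bool))).card := by
      refine card_le_card_of_injOn (fun p => (Φ p, (cl p, decide (0 < (G p).2)))) ?_ ?_
      · intro p hp
        have hp' : p ∈ cpr H := hp
        rw [mem_coe, mem_product, mem_product]
        exact ⟨mem_image_of_mem _ hp', hclR p, mem_univ _⟩
      · intro p hp p' hp' heq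
        have hp1 : p ∈ cpr H := hp
        have hp2 : p' ∈ cpr H := hp'
        have h1 : Φ p = Φ p' := congrArg Prod.fst heq
        have hcl : cl p = cl p' := congrArg (fun z => z.2.1) heq
        have h3 : decide (0 < (G p).2) = decide (0 < (G p').2) := congrArg (fun z => z.2.2) heq
        have hGG : G p = G p' := by
          by_cases h4 : 0 < (G p).2
          · have h5 : 0 < (G p').2 := by simpa [h4] using h3
            simp only [Φ, h4, h5, if_true] at h1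
            exact h1
          · have h5 : ¬ 0 < (G p').2 := by simpa [h4] using h3
            simp only [Φ, h4, h5, if_false, Prod.mk.injEq, neg_inj] at h1
            exact Prod.ext h1.1 h1.2
        obtain ⟨-, -, e1, e2⟩ := hG1 p hp1
        obtain ⟨-, -, e1', e2'⟩ := hG1 p' hp2
        rw [← hcl, ← hGG] at e1' e2'
        refine Prod.ext ?_ ?_
        · exact_mod_cast e1.trans e1'.symm
        · exact_mod_cast e2.trans e2'.symm
    rw [card_product, card_product, hR, card_product, card_range, card_univ, Fintype.card_bool]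
      at hcard
    have h1 := cpr_card H
    have h2 : ((cpr H).card : ℝ) ≤ ((cpr H).image Φ).card * (M0 * M0 * 2) := by
      exact_mod_cast hcard
    have h3 : 0 ≤ C0 * (((cpr H).image Φ).card : ℝ) := by positivity
    nlinarith
  · intro z hz
    obtain ⟨p, hp, rfl⟩ := mem_image.mp hz
    obtain ⟨h1, h2, -⟩ := hG1 p hp
    obtain ⟨h3, h4⟩ := hsz p hp
    by_cases h5 : 0 < (G p).2
    · simp only [Φ, h5, if_true]
      exact ⟨h1, h2, trivial, h3.trans hbig, h4.trans hbig⟩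
    · simp only [Φ, h5, if_false]
      have h6 := hG2 p hp
      refine ⟨h1.neg_neg, (dvd_neg).mpr h2, by omega, ?_, ?_⟩
      · rw [Int.cast_neg, abs_neg]
        exact h3.trans hbig
      · rw [Int.cast_neg, abs_neg]
        exact h4.trans hbig

/-- a model of a family whose fibre at `0` is nodal with unit `c₄` -/
structure Adapt (a1 a2 a3 : ℤ[X]) (k : ℕ) where
  b1 : ℤ[X]
  b2 : ℤ[X]
  b3 : ℤ[X]
  α : ℤ
  β : ℤ
  u : ℤ
  hα : α ≠ 0
  hu : u ≠ 0
  e1 : C u * b1 = a1.comp (C α * X + C β)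
  e2 : C (u ^ 2) * b2 = a2.comp (C α * X + C β)
  e3 : C (u ^ 3) * b3 = a3.comp (C α * X + C β)
  d1 : b1.natDegree ≤ k
  d2 : b2.natDegree ≤ 2 * k
  d3 : b3.natDegree ≤ 3 * k
  z1 : b1.coeff 0 = 1 ∨ b1.coeff 0 = -1
  z2 : b2.coeff 0 = 0
  z3 : b3.coeff 0 = 0

/-- the integral model -/
def Adapt.W {a1 a2 a3 : ℤ[X]} {k : ℕ} (T : Adapt a1 a2 a3 k) (x y : ℤ) : WeierstrassCurve ℤ :=
  ⟨hom T.b1 k x y, hom T.b2 (2 * k) x y, hom T.b3 (3 * k) x y, 0, 0⟩

theorem hom_mod (b : ℤ[X]) (n : ℕ) (x y : ℤ) : x ∣ hom b n x y - b.coeff 0 * y ^ n := by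
  unfold hom
  rw [sum_range_succ']
  have e : ∑ j ∈ range n, b.coeff (j + 1) * x ^ (j + 1) * y ^ (n - (j + 1)) +
      b.coeff 0 * x ^ 0 * y ^ (n - 0) - b.coeff 0 * y ^ n =
      ∑ j ∈ range n, b.coeff (j + 1) * x ^ (j + 1) * y ^ (n - (j + 1)) := by
    rw [pow_zero, Nat.sub_zero]; ring
  rw [e]
  refine dvd_sum fun j _ => ?_
  exact Dvd.dvd.mul_right (Dvd.dvd.mul_left (dvd_pow_self _ (by omega)) _) _

theorem eval_comp_lin (a b : ℤ[X]) (α β v x y : ℤ) (hy : (y : ℚ) ≠ 0)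
    (h : C v * b = a.comp (C α * X + C β)) :
    (v : ℚ) * (b.map (Int.castRingHom ℚ)).eval ((x : ℚ) / y) =
      (a.map (Int.castRingHom ℚ)).eval (((α * x + β * y : ℤ) : ℚ) / y) := by
  have h1 := congrArg (fun f : ℤ[X] => (f.map (Int.castRingHom ℚ)).eval ((x : ℚ) / y)) h
  simp only [Polynomial.map_mul, Polynomial.map_C, eval_mul, eval_C, Polynomial.map_comp,
    Polynomial.map_add, map_X, eval_comp, eval_add, eval_X, Int.coe_castRingHom] at h1
  rw [h1]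
  congr 1
  push_cast
  field_simp

theorem semi_at (a1 a2 a3 : ℤ[X]) (k m : ℕ) (f : Fin m → ℤ[X]) (n : Fin m → ℕ)
    (hF : FamB (27 * c4p a1 a2 a3) (54 * c6p a1 a2 a3) k m f n)
    (hR : Rev (27 * c4p a1 a2 a3) (54 * c6p a1 a2 a3) k m f n) (T : Adapt a1 a2 a3 k) :
    ∃ (M0 : ℕ) (C : ℝ), 2 ≤ M0 ∧ 1 ≤ C ∧ ∀ x y : ℤ, IsCoprime x y → (M0 : ℤ) ∣ x → y ≠ 0 →
      IsCoprime (T.α * x + T.β * y) y ∧
      (hom (∏ i, f i) (∑ i, n i) (T.α * x + T.β * y) y ≠ 0 →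
      (T.W x y).Δ ≠ 0 ∧ IsCoprime (T.W x y).c₄ (T.W x y).Δ ∧
      (∃ D : WeierstrassCurve.VariableChange ℚ,
        D • crv a1 a2 a3 (((T.α * x + T.β * y : ℤ) : ℚ) / (y : ℚ)) =
          (T.W x y).map (Int.castRingHom ℚ)) ∧
      ((∏ p ∈ (T.W x y).Δ.natAbs.primeFactors, p : ℕ) : ℝ) ≤
        C * (max |(x : ℝ)| |(y : ℝ)|) ^ (∑ i, n i) ∧
      |((T.W x y).Δ : ℝ)| ≤ C * (max |(x : ℝ)| |(y : ℝ)|) ^ (12 * k)) := by
  classical
  obtain ⟨N1, j, G, hN1, hj, hq1, hdisc⟩ := disc_facts _ _ k m f n hF hR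
  obtain ⟨hk, hA, hB, hlead, hcop, hn, hsq, hdeg, -, -, -⟩ := hF
  obtain ⟨M, K, hM, hK, hbez⟩ := bez2 _ _ k hk hA hB hlead hcop
  set A := 27 * c4p a1 a2 a3 with hAdef
  set B := 54 * c6p a1 a2 a3 with hBdef
  set F : ℤ[X] := ∏ i, f i with hFdef
  set q : ℕ := ∑ i, n i with hqdef
  obtain ⟨CA, hCA, hsA⟩ := Pool.Agent.W505.VC.t_HOM.2.1 A (4 * k)
  obtain ⟨CB, hCB, hsB⟩ := Pool.Agent.W505.VC.t_HOM.2.1 B (6 * k)
  obtain ⟨CF, hCF, hsF⟩ := Pool.Agent.W505.VC.t_HOM.2.1 F q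
  set lm : ℝ := |(T.α : ℝ)| + |(T.β : ℝ)| + 1 with hlm
  have hlm1 : 1 ≤ lm := by
    have := abs_nonneg (T.α : ℝ)
    have := abs_nonneg (T.β : ℝ)
    linarith
  set M0 : ℕ := 6 * M * T.α.natAbs with hM0
  have hα1 : 1 ≤ T.α.natAbs := Int.natAbs_pos.mpr T.hα
  refine ⟨M0, N1 * (CF * lm ^ q) + (4 * CA ^ 3 + 27 * CB ^ 2) * lm ^ (12 * k), ?_, ?_, ?_⟩
  · rw [hM0]; nlinarith
  · have : (0 : ℝ) ≤ N1 * (CF * lm ^ q) := by positivity
    have h1 : (1 : ℝ) ≤ lm ^ (12 * k) := one_le_pow₀ hlm1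
    have h2 : (1 : ℝ) ≤ CA ^ 3 := one_le_pow₀ hCA
    have h3 : (0 : ℝ) ≤ CB ^ 2 := by positivity
    nlinarith
  intro x y hxy hMx hy0
  have hyQ : (y : ℚ) ≠ 0 := by exact_mod_cast hy0
  have hαx : T.α ∣ x := by
    refine dvd_trans ?_ hMx
    rw [hM0, Nat.cast_mul]
    exact Dvd.dvd.mul_left (Int.dvd_natAbs_self) _
  have hX : IsCoprime (T.α * x + T.β * y) y := by
    have h1 : IsCoprime T.α y := hxy.of_isCoprime_of_dvd_left hαx
    exact (h1.mul_left hxy).add_mul_right_left T.β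
  refine ⟨hX, ?_⟩
  intro hF0
  set Xx : ℤ := T.α * x + T.β * y with hXx
  set W := T.W x y with hW
  have hyk : (y : ℚ) ^ k ≠ 0 := pow_ne_zero _ hyQ
  have huQ : (T.u : ℚ) ≠ 0 := by exact_mod_cast T.hu
  -- the coefficients
  have E1 : ((hom T.b1 k x y : ℤ) : ℚ) = (y : ℚ) ^ k / T.u *
      (a1.map (Int.castRingHom ℚ)).eval ((Xx : ℚ) / y) := by
    rw [← eval_comp_lin a1 T.b1 T.α T.β T.u x y hyQ T.e1, hom_eval T.b1 k T.d1 x y hyQ]
    field_simp
  have E2 : ((hom T.b2 (2 * k) x y : ℤ) : ℚ) = ((y : ℚ) ^ k / T.u) ^ 2 *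
      (a2.map (Int.castRingHom ℚ)).eval ((Xx : ℚ) / y) := by
    rw [← eval_comp_lin a2 T.b2 T.α T.β (T.u ^ 2) x y hyQ T.e2, hom_eval T.b2 (2 * k) T.d2 x y hyQ]
    push_cast
    rw [mul_comm 2 k, pow_mul]
    field_simp
  have E3 : ((hom T.b3 (3 * k) x y : ℤ) : ℚ) = ((y : ℚ) ^ k / T.u) ^ 3 *
      (a3.map (Int.castRingHom ℚ)).eval ((Xx : ℚ) / y) := by
    rw [← eval_comp_lin a3 T.b3 T.α T.β (T.u ^ 3) x y hyQ T.e3, hom_eval T.b3 (3 * k) T.d3 x y hyQ]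
    push_cast
    rw [mul_comm 3 k, pow_mul]
    field_simp
  have hDu : (T.u : ℚ) / (y : ℚ) ^ k ≠ 0 := div_ne_zero huQ hyk
  have hD : ∃ D : WeierstrassCurve.VariableChange ℚ,
      (((D.u⁻¹ : ℚˣ) : ℚ) = (y : ℚ) ^ k / T.u) ∧
      D • crv a1 a2 a3 ((Xx : ℚ) / (y : ℚ)) = W.map (Int.castRingHom ℚ) := by
    refine ⟨⟨Units.mk0 _ hDu, 0, 0, 0⟩, ?_, ?_⟩
    · rw [Units.val_inv_eq_inv_val, Units.val_mk0, inv_div]
    · rw [WeierstrassCurve.variableChange_def]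
      simp only [crv, Units.val_inv_eq_inv_val, Units.val_mk0, hW, Adapt.W, WeierstrassCurve.map,
        eq_intCast, Int.cast_zero, inv_div]
      ext
      · simp only
        rw [E1]; ring
      · simp only
        rw [E2]; ring
      · simp only
        rw [E3]; ring
      · simp only
        ring
      · simp only
        ring
  obtain ⟨D, hDuv, hDW⟩ := hD
  have hAe := hom_eval A (4 * k) hA Xx y hyQ
  have hBe := hom_eval B (6 * k) hB Xx y hyQ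
  have hc4 : hom A (4 * k) Xx y = 27 * (T.u ^ 4 * W.c₄) := by
    have h1 := congrArg WeierstrassCurve.c₄ hDW
    rw [WeierstrassCurve.variableChange_c₄, WeierstrassCurve.map_c₄, crv_c4, eq_intCast, hDuv] at h1
    have : ((hom A (4 * k) Xx y : ℤ) : ℚ) = ((27 * (T.u ^ 4 * W.c₄) : ℤ) : ℚ) := by
      rw [hAe, hAdef]
      simp only [Polynomial.map_mul, Polynomial.map_ofNat, eval_mul, eval_ofNat]
      push_cast
      rw [← h1]
      field_simp
      ring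
    exact_mod_cast this
  have hc6 : hom B (6 * k) Xx y = 54 * (T.u ^ 6 * W.c₆) := by
    have h1 := congrArg WeierstrassCurve.c₆ hDW
    rw [WeierstrassCurve.variableChange_c₆, WeierstrassCurve.map_c₆, crv_c6, eq_intCast, hDuv] at h1
    have : ((hom B (6 * k) Xx y : ℤ) : ℚ) = ((54 * (T.u ^ 6 * W.c₆) : ℤ) : ℚ) := by
      rw [hBe, hBdef]
      simp only [Polynomial.map_mul, Polynomial.map_ofNat, eval_mul, eval_ofNat]
      push_cast
      rw [← h1]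
      field_simp
      ring
    exact_mod_cast this
  have hrel := W.c_relation
  have hdd : 4 * (hom A (4 * k) Xx y) ^ 3 - 27 * (hom B (6 * k) Xx y) ^ 2 =
      136048896 * T.u ^ 12 * W.Δ := by
    rw [hc4, hc6]
    linear_combination (-78732 * T.u ^ 12) * hrel
  have hdiscXY := hdisc Xx y hy0
  rw [hdd] at hdiscXY
  have hRHS : ((N1 : ℕ) : ℤ) * (hom F q Xx y) ^ j ≠ 0 :=
    mul_ne_zero (by exact_mod_cast hN1) (pow_ne_zero _ hF0)
  have hΔ0 : W.Δ ≠ 0 := by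
    intro h0
    rw [h0, mul_zero, zero_mul] at hdiscXY
    exact hRHS hdiscXY.symm
  have hΔd : W.Δ ∣ ((N1 : ℕ) : ℤ) * (hom F q Xx y) ^ j := by
    rw [← hdiscXY]
    exact Dvd.dvd.mul_right (Dvd.intro_left _ rfl) _
  have hm0 : 0 ≤ max |(x : ℝ)| |(y : ℝ)| := le_max_of_le_left (abs_nonneg _)
  have hXsz : max |(Xx : ℝ)| |(y : ℝ)| ≤ lm * max |(x : ℝ)| |(y : ℝ)| := by
    refine max_le ?_ ?_
    · have : (Xx : ℝ) = T.α * x + T.β * y := by rw [hXx]; push_cast; ring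
      rw [this]
      refine (abs_add_le _ _).trans ?_
      rw [abs_mul, abs_mul, hlm]
      have h1 := mul_le_mul_of_nonneg_left (le_max_left |(x : ℝ)| |(y : ℝ)|) (abs_nonneg (T.α : ℝ))
      have h2 := mul_le_mul_of_nonneg_left (le_max_right |(x : ℝ)| |(y : ℝ)|)
        (abs_nonneg (T.β : ℝ))
      linarith
    · calc |(y : ℝ)| ≤ max |(x : ℝ)| |(y : ℝ)| := le_max_right _ _
        _ ≤ lm * max |(x : ℝ)| |(y : ℝ)| := le_mul_of_one_le_left hm0 hlm1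
  have hXm0 : 0 ≤ max |(Xx : ℝ)| |(y : ℝ)| := le_max_of_le_left (abs_nonneg _)
  refine ⟨hΔ0, ?_, ⟨D, hDW⟩, ?_, ?_⟩
  · -- semistability
    refine isCoprime_of_prime_dvd (fun h => hΔ0 h.2) ?_
    intro z hz hz4 hzΔ
    have hz6 : z ∣ W.c₆ := by
      have h1 : z ∣ W.c₆ ^ 2 := by
        have h2 : W.c₆ ^ 2 = W.c₄ ^ 3 - 1728 * W.Δ := by linear_combination hrel
        rw [h2]
        exact dvd_sub (Dvd.dvd.pow hz4 (by norm_num)) (Dvd.dvd.mul_left hzΔ _)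
      exact hz.dvd_of_dvd_pow h1
    have hzM : z ∣ (M : ℤ) := (hbez Xx y hX).1 z
      (by rw [hc4]; exact Dvd.dvd.mul_left (Dvd.dvd.mul_left hz4 _) _)
      (by rw [hc6]; exact Dvd.dvd.mul_left (Dvd.dvd.mul_left hz6 _) _)
    have hzx : z ∣ x := by
      refine dvd_trans (dvd_trans hzM ?_) hMx
      rw [hM0]
      exact_mod_cast Dvd.dvd.mul_right (Dvd.intro_left 6 rfl) T.α.natAbs
    have hzy : ¬ z ∣ y := fun h => hz.not_isUnit (hxy.isUnit_of_dvd' hzx h)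
    have g1 : z ∣ hom T.b1 k x y - T.b1.coeff 0 * y ^ k := hzx.trans (hom_mod _ _ _ _)
    have g2 : z ∣ hom T.b2 (2 * k) x y := by
      have := hzx.trans (hom_mod T.b2 (2 * k) x y)
      rwa [T.z2, zero_mul, sub_zero] at this
    have g3 : z ∣ hom T.b3 (3 * k) x y := by
      have := hzx.trans (hom_mod T.b3 (3 * k) x y)
      rwa [T.z3, zero_mul, sub_zero] at this
    have g4 : W.c₄ = (hom T.b1 k x y) ^ 4 + hom T.b2 (2 * k) x y *
        (8 * (hom T.b1 k x y) ^ 2 + 16 * hom T.b2 (2 * k) x y) -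
        24 * hom T.b1 k x y * hom T.b3 (3 * k) x y := by
      rw [hW]
      simp only [Adapt.W, WeierstrassCurve.c₄, WeierstrassCurve.b₂, WeierstrassCurve.b₄]
      ring
    have g5 : z ∣ (hom T.b1 k x y) ^ 4 := by
      have h1 : (hom T.b1 k x y) ^ 4 = W.c₄ - hom T.b2 (2 * k) x y *
          (8 * (hom T.b1 k x y) ^ 2 + 16 * hom T.b2 (2 * k) x y) +
          24 * hom T.b1 k x y * hom T.b3 (3 * k) x y := by rw [g4]; ring
      rw [h1]
      exact dvd_add (dvd_sub hz4 (g2.mul_right _)) (g3.mul_left _)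
    have g6 := hz.dvd_of_dvd_pow g5
    have g7 : z ∣ T.b1.coeff 0 * y ^ k := by
      have := dvd_sub g6 g1
      rwa [sub_sub_cancel] at this
    have g8 : z ∣ y ^ k := by
      rcases T.z1 with h | h
      · rwa [h, one_mul] at g7
      · rw [h] at g7
        have := (dvd_neg).mpr g7
        have e : -(-1 * y ^ k) = y ^ k := by ring
        rwa [e] at this
    exact hzy (hz.dvd_of_dvd_pow g8)
  · -- the conductor
    have hd : (∏ p ∈ W.Δ.natAbs.primeFactors, p) ∣ N1 * (hom F q Xx y).natAbs := by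
      refine Finset.prod_primes_dvd _ (fun p hp => (Nat.prime_of_mem_primeFactors hp).prime) ?_
      intro p hp
      have hpp := Nat.prime_of_mem_primeFactors hp
      have h1 : (p : ℤ) ∣ W.Δ := Int.natCast_dvd.mpr (Nat.dvd_of_mem_primeFactors hp)
      have h2 := h1.trans hΔd
      rcases (Nat.prime_iff_prime_int.mp hpp).dvd_or_dvd h2 with h | h
      · exact Dvd.dvd.mul_right (by exact_mod_cast h) _
      · exact Dvd.dvd.mul_left (Int.natCast_dvd.mp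
          ((Nat.prime_iff_prime_int.mp hpp).dvd_of_dvd_pow h)) _
    have hle := Nat.le_of_dvd (Nat.pos_of_ne_zero (Nat.mul_ne_zero hN1
      (Int.natAbs_ne_zero.mpr hF0))) hd
    have h1 : ((∏ p ∈ W.Δ.natAbs.primeFactors, p : ℕ) : ℝ) ≤ N1 * |((hom F q Xx y : ℤ) : ℝ)| := by
      have h2 : (((hom F q Xx y).natAbs : ℕ) : ℝ) = |((hom F q Xx y : ℤ) : ℝ)| := by
        rw [Nat.cast_natAbs, Int.cast_abs]
      rw [← h2]
      exact_mod_cast hle
    have h2 : |((hom F q Xx y : ℤ) : ℝ)| ≤ CF * (lm ^ q * (max |(x : ℝ)| |(y : ℝ)|) ^ q) := by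
      refine (hsF Xx y).trans (mul_le_mul_of_nonneg_left ?_ (by linarith))
      rw [← mul_pow]
      exact pow_le_pow_left₀ hXm0 hXsz q
    have h3 : (0 : ℝ) ≤ (4 * CA ^ 3 + 27 * CB ^ 2) * lm ^ (12 * k) := by positivity
    have h4 : (0 : ℝ) ≤ (max |(x : ℝ)| |(y : ℝ)|) ^ q := pow_nonneg hm0 _
    calc ((∏ p ∈ W.Δ.natAbs.primeFactors, p : ℕ) : ℝ) ≤ N1 * |((hom F q Xx y : ℤ) : ℝ)| := h1
      _ ≤ N1 * (CF * (lm ^ q * (max |(x : ℝ)| |(y : ℝ)|) ^ q)) :=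
          mul_le_mul_of_nonneg_left h2 (Nat.cast_nonneg _)
      _ = (N1 * (CF * lm ^ q)) * (max |(x : ℝ)| |(y : ℝ)|) ^ q := by ring
      _ ≤ _ := mul_le_mul_of_nonneg_right (by linarith) h4
  · -- the discriminant
    have h1 : |(W.Δ : ℝ)| ≤ |((4 * (hom A (4 * k) Xx y) ^ 3 - 27 * (hom B (6 * k) Xx y) ^ 2 : ℤ) : ℝ)|
        := by
      rw [hdd, Int.cast_mul, abs_mul]
      refine le_mul_of_one_le_left (abs_nonneg _) ?_
      have h2 : (1 : ℤ) ≤ |136048896 * T.u ^ 12| := by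
        have h3 : (136048896 * T.u ^ 12 : ℤ) ≠ 0 :=
          mul_ne_zero (by norm_num) (pow_ne_zero _ T.hu)
        exact Int.one_le_abs h3
      rw [← Int.cast_abs]
      exact_mod_cast h2
    set μ := max |(x : ℝ)| |(y : ℝ)| with hμ
    have hpow : ∀ i : ℕ, (max |(Xx : ℝ)| |(y : ℝ)|) ^ i ≤ lm ^ i * μ ^ i := by
      intro i
      rw [← mul_pow]
      exact pow_le_pow_left₀ hXm0 hXsz i
    have hA3 : |((hom A (4 * k) Xx y : ℤ) : ℝ)| ^ 3 ≤ CA ^ 3 * (lm ^ (12 * k) * μ ^ (12 * k)) := by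
      calc |((hom A (4 * k) Xx y : ℤ) : ℝ)| ^ 3 ≤
            (CA * (max |(Xx : ℝ)| |(y : ℝ)|) ^ (4 * k)) ^ 3 :=
            pow_le_pow_left₀ (abs_nonneg _) (hsA Xx y) 3
        _ = CA ^ 3 * (max |(Xx : ℝ)| |(y : ℝ)|) ^ (12 * k) := by
            rw [mul_pow, ← pow_mul]; congr 2; ring
        _ ≤ _ := mul_le_mul_of_nonneg_left (hpow _) (by positivity)
    have hB2 : |((hom B (6 * k) Xx y : ℤ) : ℝ)| ^ 2 ≤ CB ^ 2 * (lm ^ (12 * k) * μ ^ (12 * k)) := by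
      calc |((hom B (6 * k) Xx y : ℤ) : ℝ)| ^ 2 ≤
            (CB * (max |(Xx : ℝ)| |(y : ℝ)|) ^ (6 * k)) ^ 2 :=
            pow_le_pow_left₀ (abs_nonneg _) (hsB Xx y) 2
        _ = CB ^ 2 * (max |(Xx : ℝ)| |(y : ℝ)|) ^ (12 * k) := by
            rw [mul_pow, ← pow_mul]; congr 2; ring
        _ ≤ _ := mul_le_mul_of_nonneg_left (hpow _) (by positivity)
    have h5 : |((4 * (hom A (4 * k) Xx y) ^ 3 - 27 * (hom B (6 * k) Xx y) ^ 2 : ℤ) : ℝ)| ≤
        4 * |((hom A (4 * k) Xx y : ℤ) : ℝ)| ^ 3 + 27 * |((hom B (6 * k) Xx y : ℤ) : ℝ)| ^ 2 := by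
      push_cast
      refine (abs_sub _ _).trans (le_of_eq ?_)
      rw [abs_mul, abs_mul, abs_pow, abs_pow]
      norm_num
    have h6 : (0 : ℝ) ≤ N1 * (CF * lm ^ q) := by positivity
    have h7 : (0 : ℝ) ≤ μ ^ (12 * k) := pow_nonneg hm0 _
    calc |(W.Δ : ℝ)| ≤ 4 * |((hom A (4 * k) Xx y : ℤ) : ℝ)| ^ 3 +
          27 * |((hom B (6 * k) Xx y : ℤ) : ℝ)| ^ 2 := h1.trans h5
      _ ≤ 4 * (CA ^ 3 * (lm ^ (12 * k) * μ ^ (12 * k))) +
          27 * (CB ^ 2 * (lm ^ (12 * k) * μ ^ (12 * k))) := by linarith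
      _ = ((4 * CA ^ 3 + 27 * CB ^ 2) * lm ^ (12 * k)) * μ ^ (12 * k) := by ring
      _ ≤ _ := mul_le_mul_of_nonneg_right (by linarith) h7

/-- many semistable members with a small conductor and a small discriminant -/
theorem low_semi (a1 a2 a3 : ℤ[X]) (k m : ℕ) (f : Fin m → ℤ[X]) (n : Fin m → ℕ)
    (hF : FamB (27 * c4p a1 a2 a3) (54 * c6p a1 a2 a3) k m f n)
    (hR : Rev (27 * c4p a1 a2 a3) (54 * c6p a1 a2 a3) k m f n) (T : Adapt a1 a2 a3 k) :
    ∃ (c : ℝ) (N0 : ℕ), 0 < c ∧ ∀ N : ℕ, N0 ≤ N → ∀ S : Set (ℤ × ℤ), S.Finite →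
      (∀ W : WeierstrassCurve ℤ, W.Δ ≠ 0 → IsCoprime W.c₄ W.Δ →
        (∃ (t : ℚ) (D : WeierstrassCurve.VariableChange ℚ),
          D • crv a1 a2 a3 t = W.map (Int.castRingHom ℚ)) →
        ∏ p ∈ W.Δ.natAbs.primeFactors, p ≤ N →
        |(W.Δ : ℝ)| ≤ (N : ℝ) ^ (12 * (k : ℝ) / ((∑ i, n i : ℕ) : ℝ)) → (W.c₄, W.c₆) ∈ S) →
      c * (N : ℝ) ^ (2 / ((∑ i, n i : ℕ) : ℝ)) ≤ S.ncard := by
  classical
  obtain ⟨M0, Cc, hM0, hCc, hat⟩ := semi_at a1 a2 a3 k m f n hF hR T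
  obtain ⟨Cp, hCp, hpairs⟩ := pairs_mod M0 hM0
  obtain ⟨-, -, -, -, -, hq1, -⟩ := disc_facts _ _ k m f n hF hR
  obtain ⟨hk, hA, hB, hlead, hcop, hn, hsq, hdeg, -, -, -⟩ := hF
  set F : ℤ[X] := ∏ i, f i with hFdef
  set q : ℕ := ∑ i, n i with hqdef
  have hle : F.natDegree ≤ q :=
    (natDegree_prod_le _ _).trans (Finset.sum_le_sum fun i _ => hn i)
  have hF0 : F ≠ 0 := by
    intro h0
    rw [h0] at hsq
    simp at hsq
  have hCc0 : 0 < Cc := by linarith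
  have hCp0 : 0 < Cp := by linarith
  have hkR : (0 : ℝ) < k := by exact_mod_cast hk
  have hq0 : (0 : ℝ) < q := by exact_mod_cast hq1
  set e : ℝ := 12 * (k : ℝ) / q with he
  have he0 : 0 < e := by positivity
  set C2 : ℝ := max (Cc * Cp ^ q) ((Cc ^ (1 / e)) * Cp ^ q) with hC2
  have hC2' : 1 ≤ C2 := (one_le_mul_of_one_le_of_one_le hCc (one_le_pow₀ hCp)).trans
    (le_max_left _ _)
  -- the parameter
  let τ : ℤ × ℤ → ℚ := fun p => ((T.α * p.1 + T.β * p.2 : ℤ) : ℚ) / (p.2 : ℚ)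
  have hkey : ∀ (N H : ℕ), C2 * (H : ℝ) ^ q ≤ N → ∀ S : Set (ℤ × ℤ), S.Finite →
      (∀ W : WeierstrassCurve ℤ, W.Δ ≠ 0 → IsCoprime W.c₄ W.Δ →
        (∃ (t : ℚ) (D : WeierstrassCurve.VariableChange ℚ),
          D • crv a1 a2 a3 t = W.map (Int.castRingHom ℚ)) →
        ∏ p ∈ W.Δ.natAbs.primeFactors, p ≤ N → |(W.Δ : ℝ)| ≤ (N : ℝ) ^ e →
        (W.c₄, W.c₆) ∈ S) → (H : ℝ) ^ 2 ≤ Cp * (12 * k * S.ncard + q) := by
    intro N H hNH S hS hmem
    obtain ⟨P0, hP0c, hP0⟩ := hpairs H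
    set P := P0.filter (fun p => hom F q (T.α * p.1 + T.β * p.2) p.2 ≠ 0) with hP
    have hτinj : ∀ p ∈ P0, ∀ p' ∈ P0, τ p = τ p' → p = p' := by
      intro p hp p' hp' heq
      obtain ⟨c1, c2, c3, -⟩ := hP0 p hp
      obtain ⟨c1', c2', c3', -⟩ := hP0 p' hp'
      have g1 := Rat.div_int_inj (a := T.α * p.1 + T.β * p.2) (b := p.2)
        (c := T.α * p'.1 + T.β * p'.2) (d := p'.2) c3 c3'
        (Int.isCoprime_iff_gcd_eq_one.mp (hat p.1 p.2 c1 c2 c3.ne').1)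
        (Int.isCoprime_iff_gcd_eq_one.mp (hat p'.1 p'.2 c1' c2' c3'.ne').1) heq
      have g2 : T.α * p.1 = T.α * p'.1 := by
        have := g1.1
        rw [g1.2] at this
        linarith
      exact Prod.ext (mul_left_cancel₀ T.hα g2) g1.2
    have hlost : (P0.filter (fun p => ¬ hom F q (T.α * p.1 + T.β * p.2) p.2 ≠ 0)).card ≤ q := by
      have hF' : F.map (Int.castRingHom ℚ) ≠ 0 :=
        (Polynomial.map_ne_zero_iff Int.cast_injective).mpr hF0
      calc (P0.filter (fun p => ¬ hom F q (T.α * p.1 + T.β * p.2) p.2 ≠ 0)).card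
          ≤ (F.map (Int.castRingHom ℚ)).roots.toFinset.card := by
            refine card_le_card_of_injOn τ ?_ ?_
            · intro p hp
              obtain ⟨hp1, hp2⟩ := mem_filter.mp hp
              push Not at hp2
              have hb : (p.2 : ℚ) ≠ 0 := by
                have := (hP0 p hp1).2.2.1
                exact_mod_cast this.ne'
              have h5 := hom_eval F q hle (T.α * p.1 + T.β * p.2) p.2 hb
              rw [hp2] at h5
              rw [mem_coe, Multiset.mem_toFinset, mem_roots hF', IsRoot.def]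
              have h6 : (p.2 : ℚ) ^ q ≠ 0 := pow_ne_zero _ hb
              have h7 : (p.2 : ℚ) ^ q * eval (((T.α * p.1 + T.β * p.2 : ℤ) : ℚ) / (p.2 : ℚ))
                  (F.map (Int.castRingHom ℚ)) = 0 := by
                rw [← h5]; simp
              exact (mul_eq_zero.mp h7).resolve_left h6
            · intro p hp p' hp' heq
              exact hτinj p (mem_filter.mp hp).1 p' (mem_filter.mp hp').1 heq
        _ ≤ (F.map (Int.castRingHom ℚ)).roots.card := Multiset.toFinset_card_le _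
        _ ≤ (F.map (Int.castRingHom ℚ)).natDegree := card_roots' _
        _ ≤ q := natDegree_map_le.trans hle
    have hPc : (P0.card : ℝ) ≤ (P.card : ℝ) + q := by
      have h2 : P0.card = P.card +
          (P0.filter (fun p => ¬ hom F q (T.α * p.1 + T.β * p.2) p.2 ≠ 0)).card :=
        (card_filter_add_card_filter_not (s := P0) _).symm
      rw [h2]
      push_cast
      have : ((P0.filter (fun p => ¬ hom F q (T.α * p.1 + T.β * p.2) p.2 ≠ 0)).card : ℝ) ≤ q := by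
        exact_mod_cast hlost
      linarith
    have hex : ∀ p ∈ P, ∃ (W : WeierstrassCurve ℤ) (D : WeierstrassCurve.VariableChange ℚ),
        W.Δ ≠ 0 ∧ D • crv a1 a2 a3 (τ p) = W.map (Int.castRingHom ℚ) ∧ (W.c₄, W.c₆) ∈ S := by
      intro p hp
      obtain ⟨hp1, hp2⟩ := mem_filter.mp hp
      obtain ⟨c1, c2, c3, c4, c5⟩ := hP0 p hp1
      obtain ⟨d1, d2⟩ := hat p.1 p.2 c1 c2 c3.ne'
      obtain ⟨d3, d4, ⟨D, hD⟩, d5, d6⟩ := d2 hp2
      have hm : max |(p.1 : ℝ)| |(p.2 : ℝ)| ≤ Cp * H := max_le c4 c5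
      have hm0 : 0 ≤ max |(p.1 : ℝ)| |(p.2 : ℝ)| := le_max_of_le_left (abs_nonneg _)
      have hH00 : (0 : ℝ) ≤ H := Nat.cast_nonneg _
      refine ⟨T.W p.1 p.2, D, d3, hD, hmem _ d3 d4 ⟨_, D, hD⟩ ?_ ?_⟩
      · have h7 : ((∏ p ∈ (T.W p.1 p.2).Δ.natAbs.primeFactors, p : ℕ) : ℝ) ≤ (N : ℕ) := by
          calc ((∏ p ∈ (T.W p.1 p.2).Δ.natAbs.primeFactors, p : ℕ) : ℝ)
              ≤ Cc * (max |(p.1 : ℝ)| |(p.2 : ℝ)|) ^ q := d5
            _ ≤ Cc * (Cp * H) ^ q := by gcongr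
            _ = Cc * Cp ^ q * (H : ℝ) ^ q := by rw [mul_pow]; ring
            _ ≤ C2 * (H : ℝ) ^ q := by
                refine mul_le_mul_of_nonneg_right (le_max_left _ _) (by positivity)
            _ ≤ N := hNH
        exact_mod_cast h7
      · have e1 : (Cp * H) ^ (12 * k) = ((Cp * H : ℝ) ^ q) ^ e := by
          rw [← Real.rpow_natCast, ← Real.rpow_natCast, ← Real.rpow_mul (by positivity)]
          congr 1
          rw [he]
          push_cast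
          field_simp
        have e2 : Cc = (Cc ^ (1 / e)) ^ e := by
          rw [← Real.rpow_mul hCc0.le, one_div_mul_cancel he0.ne', Real.rpow_one]
        calc |((T.W p.1 p.2).Δ : ℝ)| ≤ Cc * (max |(p.1 : ℝ)| |(p.2 : ℝ)|) ^ (12 * k) := d6
          _ ≤ Cc * (Cp * H) ^ (12 * k) := by gcongr
          _ = (Cc ^ (1 / e)) ^ e * ((Cp * H : ℝ) ^ q) ^ e := by rw [← e2, ← e1]
          _ = (Cc ^ (1 / e) * (Cp * H : ℝ) ^ q) ^ e := by
              rw [Real.mul_rpow (by positivity) (by positivity)]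
          _ ≤ (N : ℝ) ^ e := by
              refine Real.rpow_le_rpow (by positivity) (le_trans ?_ hNH) he0.le
              rw [mul_pow, ← mul_assoc]
              exact mul_le_mul_of_nonneg_right (le_max_right _ _) (by positivity)
    choose! W D hWm hWD hWS using hex
    let φ : ℤ × ℤ → ℤ × ℤ := fun p => ((W p).c₄, (W p).c₆)
    have hfib : P.card ≤ (12 * k) * (P.image φ).card := by
      refine card_le_mul_card_image P (12 * k) fun z hz => ?_
      obtain ⟨t0, ht0, rfl⟩ := mem_image.mp hz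
      have h1 : (P.filter (fun t => φ t = φ t0)).card =
          ((P.filter (fun t => φ t = φ t0)).image τ).card := by
        rw [card_image_of_injOn]
        intro t ht t' ht' heq
        exact hτinj t (mem_filter.mp (mem_filter.mp ht).1).1 t'
          (mem_filter.mp (mem_filter.mp ht').1).1 heq
      rw [h1]
      have hΔ0 := hWm t0 ht0
      refine fibre (27 * c4p a1 a2 a3) (54 * c6p a1 a2 a3) k hk hA hB hlead hcop
        (27 * (W t0).c₄) (54 * (W t0).c₆) ?_ _ ?_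
      · have h2 : (4 * (27 * (W t0).c₄) ^ 3 - 27 * (54 * (W t0).c₆) ^ 2 : ℤ) =
            136048896 * (W t0).Δ := by
          have := (W t0).c_relation
          linear_combination (-78732) * this
        rw [h2]
        exact mul_ne_zero (by norm_num) hΔ0
      · intro t ht
        obtain ⟨s, hs, rfl⟩ := mem_image.mp ht
        obtain ⟨hs1, hs2⟩ := mem_filter.mp hs
        have hD := hWD s hs1
        have h4 := congrArg WeierstrassCurve.c₄ hD
        have h6 := congrArg WeierstrassCurve.c₆ hD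
        rw [WeierstrassCurve.variableChange_c₄, WeierstrassCurve.map_c₄, crv_c4, eq_intCast] at h4
        rw [WeierstrassCurve.variableChange_c₆, WeierstrassCurve.map_c₆, crv_c6, eq_intCast] at h6
        have hz4 : (W s).c₄ = (W t0).c₄ := (Prod.ext_iff.mp hs2).1
        have hz6 : (W s).c₆ = (W t0).c₆ := (Prod.ext_iff.mp hs2).2
        have hu0 : (((D s).u : ℚˣ) : ℚ) ≠ 0 := Units.ne_zero _
        refine ⟨(((D s).u : ℚˣ) : ℚ), hu0, ?_, ?_⟩
        · simp only [Polynomial.map_mul, Polynomial.map_ofNat, eval_mul, eval_ofNat]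
          push_cast
          rw [← hz4, ← h4]
          have : (((D s).u : ℚˣ) : ℚ) ^ 4 * (((D s).u⁻¹ : ℚˣ) : ℚ) ^ 4 = 1 := by
            rw [← mul_pow, Units.mul_inv, one_pow]
          linear_combination (-27 * eval (τ s) ((c4p a1 a2 a3).map (Int.castRingHom ℚ))) * this
        · simp only [Polynomial.map_mul, Polynomial.map_ofNat, eval_mul, eval_ofNat]
          push_cast
          rw [← hz6, ← h6]
          have : (((D s).u : ℚˣ) : ℚ) ^ 6 * (((D s).u⁻¹ : ℚˣ) : ℚ) ^ 6 = 1 := by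
            rw [← mul_pow, Units.mul_inv, one_pow]
          linear_combination (-54 * eval (τ s) ((c6p a1 a2 a3).map (Int.castRingHom ℚ))) * this
    have himg : (P.image φ).card ≤ S.ncard := by
      rw [Set.ncard_eq_toFinset_card _ hS]
      refine card_le_card fun x hx => ?_
      obtain ⟨p, hp, rfl⟩ := mem_image.mp hx
      rw [Set.Finite.mem_toFinset]
      exact hWS p hp
    have h5 : (P.card : ℝ) ≤ 12 * k * S.ncard := by
      have : P.card ≤ 12 * k * S.ncard := hfib.trans (Nat.mul_le_mul_left _ himg)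
      exact_mod_cast this
    refine hP0c.trans (mul_le_mul_of_nonneg_left ?_ hCp0.le)
    linarith
  refine ⟨C2 ^ (-(2 / (q : ℝ))) / (96 * k * Cp), ⌈C2 * (8 * Cp * q) ^ q⌉₊, by positivity, ?_⟩
  intro N hN S hS hmem
  have hC20 : 0 < C2 := by linarith
  have hN' : C2 * (8 * Cp * (q : ℝ)) ^ q ≤ N := Nat.ceil_le.mp hN
  have hq1' : (1 : ℝ) ≤ q := by exact_mod_cast hq1
  set y : ℝ := ((N : ℝ) / C2) ^ (1 / (q : ℝ)) with hy
  have hy0 : 0 ≤ y := by positivity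
  have hyq : y ^ q = N / C2 := by
    rw [hy, ← Real.rpow_natCast, ← Real.rpow_mul (by positivity), one_div_mul_cancel hq0.ne',
      Real.rpow_one]
  have hy32 : 8 * Cp * (q : ℝ) ≤ y := by
    refine le_of_pow_le_pow_left₀ (n := q) (by omega) hy0 ?_
    rw [hyq, le_div_iff₀ hC20]
    linarith
  have hCpq : 1 ≤ Cp * (q : ℝ) := one_le_mul_of_one_le_of_one_le hCp hq1'
  have hfl : (⌊y⌋₊ : ℝ) ≤ y := Nat.floor_le hy0
  have hfl2 : y - 1 ≤ (⌊y⌋₊ : ℝ) := (Nat.sub_one_lt_floor y).le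
  have h := hkey N ⌊y⌋₊ (by
    calc C2 * ((⌊y⌋₊ : ℕ) : ℝ) ^ q ≤ C2 * y ^ q := by gcongr
      _ = N := by rw [hyq]; field_simp) S hS hmem
  have hy2 : y ^ 2 = C2 ^ (-(2 / (q : ℝ))) * (N : ℝ) ^ (2 / (q : ℝ)) := by
    rw [hy, ← Real.rpow_natCast, ← Real.rpow_mul (by positivity),
      Real.div_rpow (Nat.cast_nonneg _) hC20.le, Real.rpow_neg hC20.le]
    have : 1 / (q : ℝ) * ((2 : ℕ) : ℝ) = 2 / q := by push_cast; ring
    rw [this]
    field_simp
  have h8 : y / 2 ≤ (⌊y⌋₊ : ℝ) := by linarith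
  have h9 : (y / 2) ^ 2 ≤ (⌊y⌋₊ : ℝ) ^ 2 := pow_le_pow_left₀ (by positivity) h8 2
  have h9' : y * (8 * Cp * (q : ℝ)) ≤ y * y := mul_le_mul_of_nonneg_left hy32 hy0
  have h9'' : 8 * (Cp * (q : ℝ)) ≤ y * (Cp * q) := by
    refine mul_le_mul_of_nonneg_right ?_ (by linarith)
    linarith
  have h10 : y ^ 2 / 8 ≤ Cp * (12 * k * S.ncard) := by nlinarith
  have h11 : C2 ^ (-(2 / (q : ℝ))) / (96 * k * Cp) * (N : ℝ) ^ (2 / (q : ℝ)) =
      y ^ 2 / (96 * k * Cp) := by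
    rw [hy2]; ring
  rw [h11, div_le_iff₀ (by positivity)]
  nlinarith

end Pool.Agent.TH498.MT
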