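import Pool.Agent.TH498.MT.T2

/-!
# Semistable members: an upper bound for their number
-/

set_option autoImplicit false
set_option maxHeartbeats 4000000

namespace Pool.Agent.TH498.MT

open Finset Polynomial Filter Topology Pool.Agent.W4.CF Pool.Agent.W4.VC Pool.Agent.TH498.KB
open Pool.Agent.TH498.HF

/-- a member of a family as a value of forms -/
theorem mem_form (A B : ℤ[X]) (k : ℕ) (hk : 1 ≤ k) (hA : A.natDegree ≤ 4 * k)
    (hB : B.natDegree ≤ 6 * k) (hlead : A.natDegree = 4 * k ∨ B.natDegree = 6 * k)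
    (hcop : IsCoprime (A.map (Int.castRingHom ℚ)) (B.map (Int.castRingHom ℚ))) :
    ∃ M : ℕ, 1 ≤ M ∧ ∀ a b : ℤ, Mem A B a b → ∃ (x y r : ℤ) (e : ℕ), IsCoprime x y ∧ 0 < y ∧
      1 ≤ e ∧ e ≤ M ∧ r ≠ 0 ∧ r ^ 4 ∣ a ∧ r ^ 6 ∣ b ∧
      a * (e : ℤ) ^ 4 = r ^ 4 * hom A (4 * k) x y ∧
      b * (e : ℤ) ^ 6 = r ^ 6 * hom B (6 * k) x y := by
  obtain ⟨M, K, hM, hK, hbez⟩ := bez2 A B k hk hA hB hlead hcop
  refine ⟨M, hM, ?_⟩
  rintro a b ⟨t, u, hu, ha, hb⟩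
  have hden : ((t.den : ℤ) : ℚ) ≠ 0 := by exact_mod_cast t.den_nz
  have hA' := hom_eval A (4 * k) hA t.num t.den hden
  have hB' := hom_eval B (6 * k) hB t.num t.den hden
  have ht : ((t.num : ℤ) : ℚ) / ((t.den : ℤ) : ℚ) = t := by
    push_cast
    exact Rat.num_div_den t
  rw [ht] at hA' hB'
  set v : ℚ := u / (t.den : ℚ) ^ k with hv
  have hdk : (t.den : ℚ) ^ k ≠ 0 := pow_ne_zero _ (by exact_mod_cast t.den_nz)
  have ha2 : (a : ℚ) = v ^ 4 * ((hom A (4 * k) t.num t.den : ℤ) : ℚ) := by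
    rw [hA', ha, hv, div_pow, ← pow_mul, mul_comm k 4]
    have : (t.den : ℚ) ^ (4 * k) ≠ 0 := pow_ne_zero _ (by exact_mod_cast t.den_nz)
    push_cast
    field_simp
  have hb2 : (b : ℚ) = v ^ 6 * ((hom B (6 * k) t.num t.den : ℤ) : ℚ) := by
    rw [hB', hb, hv, div_pow, ← pow_mul, mul_comm k 6]
    have : (t.den : ℚ) ^ (6 * k) ≠ 0 := pow_ne_zero _ (by exact_mod_cast t.den_nz)
    push_cast
    field_simp
  have hv0 : v ≠ 0 := div_ne_zero hu hdk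
  have hvd : (v.den : ℚ) ≠ 0 := by exact_mod_cast v.den_nz
  have ha3 : a * (v.den : ℤ) ^ 4 = v.num ^ 4 * hom A (4 * k) t.num t.den := by
    have : ((a * (v.den : ℤ) ^ 4 : ℤ) : ℚ) =
        ((v.num ^ 4 * hom A (4 * k) t.num t.den : ℤ) : ℚ) := by
      push_cast
      rw [ha2]
      nth_rewrite 1 [← Rat.num_div_den v]
      field_simp
    exact_mod_cast this
  have hb3 : b * (v.den : ℤ) ^ 6 = v.num ^ 6 * hom B (6 * k) t.num t.den := by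
    have : ((b * (v.den : ℤ) ^ 6 : ℤ) : ℚ) =
        ((v.num ^ 6 * hom B (6 * k) t.num t.den : ℤ) : ℚ) := by
      push_cast
      rw [hb2]
      nth_rewrite 1 [← Rat.num_div_den v]
      field_simp
    exact_mod_cast this
  have hcv : IsCoprime v.num (v.den : ℤ) := by
    rw [Int.isCoprime_iff_gcd_eq_one]
    exact v.reduced
  have hct : IsCoprime t.num (t.den : ℤ) := by
    rw [Int.isCoprime_iff_gcd_eq_one]
    exact t.reduced
  have d1 : (v.den : ℤ) ^ 4 ∣ hom A (4 * k) t.num t.den :=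
    (IsCoprime.pow hcv.symm).dvd_of_dvd_mul_left (ha3 ▸ Dvd.intro_left _ rfl)
  have d2 : (v.den : ℤ) ^ 6 ∣ hom B (6 * k) t.num t.den :=
    (IsCoprime.pow hcv.symm).dvd_of_dvd_mul_left (hb3 ▸ Dvd.intro_left _ rfl)
  have d3 : (v.den : ℤ) ∣ M := by
    refine (hbez _ _ hct).1 _ ?_ ?_
    · exact (dvd_pow_self _ (by norm_num)).trans d1
    · exact (dvd_pow_self _ (by norm_num)).trans d2
  have d4 : v.num ^ 4 ∣ a :=
    (IsCoprime.pow hcv).dvd_of_dvd_mul_right (by rw [ha3]; exact Dvd.intro _ rfl)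
  have d5 : v.num ^ 6 ∣ b :=
    (IsCoprime.pow hcv).dvd_of_dvd_mul_right (by rw [hb3]; exact Dvd.intro _ rfl)
  exact ⟨t.num, t.den, v.num, v.den, hct, by exact_mod_cast t.den_pos, v.den_pos,
    Nat.le_of_dvd (by omega) (by exact_mod_cast d3), Rat.num_ne_zero.mpr hv0, d4, d5, ha3, hb3⟩

/-- the size of the product of two linear forms -/
theorem Two.size {m : ℕ} {f : Fin m → ℤ[X]} {n : Fin m → ℕ} (hn : ∀ i, (f i).natDegree ≤ n i)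
    (T : Two m f n) : ∃ K : ℝ, 1 ≤ K ∧ ∀ x y : ℤ, hom (∏ i, f i) (∑ i, n i) x y ≠ 0 →
      max |(x : ℝ)| |(y : ℝ)| ≤ K * |((hom (∏ i, f i) (∑ i, n i) x y : ℤ) : ℝ)| := by
  refine ⟨1 + |(T.u 0 : ℝ)| + |(T.u 1 : ℝ)| + |(T.w 0 : ℝ)| + |(T.w 1 : ℝ)|, ?_, ?_⟩
  · have := abs_nonneg (T.u 0 : ℝ)
    have := abs_nonneg (T.u 1 : ℝ)
    have := abs_nonneg (T.w 0 : ℝ)
    have := abs_nonneg (T.w 1 : ℝ)
    linarith
  intro x y h0
  have hp := (hom_prod univ f n (fun i _ => hn i) x y).2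
  rw [hp] at h0 ⊢
  have hne : ∀ i, hom (f i) (n i) x y ≠ 0 := fun i => prod_ne_zero_iff.mp h0 i (mem_univ i)
  set l0 : ℤ := T.u 0 * x + T.w 0 * y with hl0
  set l1 : ℤ := T.u 1 * x + T.w 1 * y with hl1
  have e0 : hom (f (T.j 0)) (n (T.j 0)) x y = l0 := by rw [T.hf, T.hn, hom_lin]
  have e1 : hom (f (T.j 1)) (n (T.j 1)) x y = l1 := by rw [T.hf, T.hn, hom_lin]
  have hd : l0 * l1 ∣ ∏ i, hom (f i) (n i) x y := by
    rw [← mul_prod_erase univ _ (mem_univ (T.j 0)), e0]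
    refine mul_dvd_mul_left _ ?_
    rw [← e1]
    exact dvd_prod_of_mem _ (mem_erase.mpr ⟨T.hj.symm, mem_univ _⟩)
  have hl0' : l0 ≠ 0 := e0 ▸ hne _
  have hl1' : l1 ≠ 0 := e1 ▸ hne _
  have hle : |((l0 * l1 : ℤ) : ℝ)| ≤ |((∏ i, hom (f i) (n i) x y : ℤ) : ℝ)| := by
    rw [← Int.cast_abs, ← Int.cast_abs]
    exact_mod_cast Int.le_of_dvd (abs_pos.mpr h0) ((abs_dvd_abs _ _).mpr hd)
  have a0 : (1 : ℝ) ≤ |(l0 : ℝ)| := by exact_mod_cast Int.one_le_abs hl0'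
  have a1 : (1 : ℝ) ≤ |(l1 : ℝ)| := by exact_mod_cast Int.one_le_abs hl1'
  rw [Int.cast_mul, abs_mul] at hle
  set P := |((∏ i, hom (f i) (n i) x y : ℤ) : ℝ)| with hP
  have b0 : |(l0 : ℝ)| ≤ P := by nlinarith
  have b1 : |(l1 : ℝ)| ≤ P := by nlinarith
  have hdet : (1 : ℝ) ≤ |((T.u 0 * T.w 1 - T.u 1 * T.w 0 : ℤ) : ℝ)| := by
    exact_mod_cast Int.one_le_abs T.hdet
  have hx : |(x : ℝ)| ≤ (|(T.w 0 : ℝ)| + |(T.w 1 : ℝ)|) * P := by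
    have e : ((T.u 0 * T.w 1 - T.u 1 * T.w 0 : ℤ) : ℝ) * x = T.w 1 * l0 - T.w 0 * l1 := by
      rw [hl0, hl1]; push_cast; ring
    calc |(x : ℝ)| ≤ |((T.u 0 * T.w 1 - T.u 1 * T.w 0 : ℤ) : ℝ)| * |(x : ℝ)| :=
          le_mul_of_one_le_left (abs_nonneg _) hdet
      _ = |(T.w 1 * l0 - T.w 0 * l1 : ℝ)| := by rw [← abs_mul, e]
      _ ≤ |(T.w 1 : ℝ)| * |(l0 : ℝ)| + |(T.w 0 : ℝ)| * |(l1 : ℝ)| := by
          refine (abs_sub _ _).trans (le_of_eq ?_)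
          rw [abs_mul, abs_mul]
      _ ≤ |(T.w 1 : ℝ)| * P + |(T.w 0 : ℝ)| * P := by gcongr
      _ = _ := by ring
  have hy : |(y : ℝ)| ≤ (|(T.u 0 : ℝ)| + |(T.u 1 : ℝ)|) * P := by
    have e : ((T.u 0 * T.w 1 - T.u 1 * T.w 0 : ℤ) : ℝ) * y = T.u 0 * l1 - T.u 1 * l0 := by
      rw [hl0, hl1]; push_cast; ring
    calc |(y : ℝ)| ≤ |((T.u 0 * T.w 1 - T.u 1 * T.w 0 : ℤ) : ℝ)| * |(y : ℝ)| :=
          le_mul_of_one_le_left (abs_nonneg _) hdet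
      _ = |(T.u 0 * l1 - T.u 1 * l0 : ℝ)| := by rw [← abs_mul, e]
      _ ≤ |(T.u 0 : ℝ)| * |(l1 : ℝ)| + |(T.u 1 : ℝ)| * |(l0 : ℝ)| := by
          refine (abs_sub _ _).trans (le_of_eq ?_)
          rw [abs_mul, abs_mul]
      _ ≤ |(T.u 0 : ℝ)| * P + |(T.u 1 : ℝ)| * P := by gcongr
      _ = _ := by ring
  have hP0 : 0 ≤ P := abs_nonneg _
  have q1 := mul_nonneg (abs_nonneg (T.u 0 : ℝ)) hP0
  have q2 := mul_nonneg (abs_nonneg (T.u 1 : ℝ)) hP0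
  have q3 := mul_nonneg (abs_nonneg (T.w 0 : ℝ)) hP0
  have q4 := mul_nonneg (abs_nonneg (T.w 1 : ℝ)) hP0
  refine max_le ?_ ?_ <;> nlinarith

/-- the discriminant of a semistable member is not too small -/
theorem disc_size (a1 a2 a3 : ℤ[X]) (k m : ℕ) (f : Fin m → ℤ[X]) (n : Fin m → ℕ)
    (hF : FamB (27 * c4p a1 a2 a3) (54 * c6p a1 a2 a3) k m f n) (T : Two m f n) :
    ∃ C : ℝ, 1 ≤ C ∧ ∀ W : WeierstrassCurve ℤ, W.Δ ≠ 0 → IsCoprime W.c₄ W.Δ →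
      (∃ (t : ℚ) (D : WeierstrassCurve.VariableChange ℚ),
        D • crv a1 a2 a3 t = W.map (Int.castRingHom ℚ)) →
      |((27 * W.c₄ : ℤ) : ℝ)| ≤ C * |(W.Δ : ℝ)| ^ (6 * k) ∧
      |((54 * W.c₆ : ℤ) : ℝ)| ≤ C * |(W.Δ : ℝ)| ^ (6 * k) := by
  obtain ⟨hk, hA, hB, hlead, hcop, hn, hsq, hdeg, G, hFG, hG⟩ := hF
  obtain ⟨M, hM, hmem⟩ := mem_form _ _ k hk hA hB hlead hcop
  obtain ⟨K, hK, hsize⟩ := T.size hn
  set A := 27 * c4p a1 a2 a3 with hAdef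
  set B := 54 * c6p a1 a2 a3 with hBdef
  set F : ℤ[X] := ∏ i, f i with hFdef
  set q : ℕ := ∑ i, n i with hqdef
  have hle : F.natDegree ≤ q :=
    (natDegree_prod_le _ _).trans (Finset.sum_le_sum fun i _ => hn i)
  obtain ⟨CA, hCA, hsA⟩ := Pool.Agent.W505.VC.t_HOM.2.1 A (4 * k)
  obtain ⟨CB, hCB, hsB⟩ := Pool.Agent.W505.VC.t_HOM.2.1 B (6 * k)
  set Q : ℝ := K * (M : ℝ) ^ 12 * 136048896 with hQ
  have hM1 : (1 : ℝ) ≤ M := by exact_mod_cast hM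
  have hQ1 : 1 ≤ Q := by
    have h1 : (1 : ℝ) ≤ (M : ℝ) ^ 12 := one_le_pow₀ hM1
    have h2 : 1 ≤ K * (M : ℝ) ^ 12 := one_le_mul_of_one_le_of_one_le hK h1
    rw [hQ]; linarith
  refine ⟨6 ^ 6 * (CA + CB) * Q ^ (6 * k), ?_, ?_⟩
  · have h1 : (1 : ℝ) ≤ Q ^ (6 * k) := one_le_pow₀ hQ1
    nlinarith
  intro W hΔ hco htD
  obtain ⟨t, D, hD⟩ := htD
  obtain ⟨x, y, r, e, hxy, hy, he1, heM, hr0, hra, hrb, ha, hb⟩ := hmem _ _
    (mem_inv a1 a2 a3 t D W hD)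
  have hr6 : |r| ≤ 6 := prim_of_coprime W hco r hra hrb
  have hyQ : (y : ℚ) ≠ 0 := by exact_mod_cast hy.ne'
  have hrel := W.c_relation
  set Ah := hom A (4 * k) x y with hAh
  set Bh := hom B (6 * k) x y with hBh
  -- the discriminant form
  have hFGh : hom F q x y * hom G (12 * k - q) x y = 4 * Ah ^ 3 - 27 * Bh ^ 2 := by
    have hAe := hom_eval A (4 * k) hA x y hyQ
    have hBe := hom_eval B (6 * k) hB x y hyQ
    have hFe := hom_eval F q hle x y hyQ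
    have hGe := hom_eval G (12 * k - q) (by omega) x y hyQ
    have hmap := congrArg (fun f : ℤ[X] => (f.map (Int.castRingHom ℚ)).eval
      ((x : ℚ) / (y : ℚ))) hFG
    simp only [Polynomial.map_mul, Polynomial.map_sub, Polynomial.map_pow, eval_mul, eval_sub,
      eval_pow] at hmap
    have h4 : ((4 : ℤ[X]).map (Int.castRingHom ℚ)) = Polynomial.C 4 := by
      rw [Polynomial.map_ofNat]; rfl
    have h27 : ((27 : ℤ[X]).map (Int.castRingHom ℚ)) = Polynomial.C 27 := by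
      rw [Polynomial.map_ofNat]; rfl
    rw [h4, h27, eval_C, eval_C] at hmap
    have : ((hom F q x y * hom G (12 * k - q) x y : ℤ) : ℚ) =
        ((4 * Ah ^ 3 - 27 * Bh ^ 2 : ℤ) : ℚ) := by
      push_cast
      rw [hAh, hBh, hAe, hBe, hFe, hGe]
      have hq12 : q + (12 * k - q) = 12 * k := by omega
      have e5 : (y : ℚ) ^ q * (y : ℚ) ^ (12 * k - q) = (y : ℚ) ^ (12 * k) := by
        rw [← pow_add, hq12]
      have e6 : (y : ℚ) ^ (12 * k) = ((y : ℚ) ^ (4 * k)) ^ 3 := by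
        rw [← pow_mul]; congr 1; ring
      have e7 : (y : ℚ) ^ (12 * k) = ((y : ℚ) ^ (6 * k)) ^ 2 := by
        rw [← pow_mul]; congr 1; ring
      set d := (y : ℚ)
      set z := (x : ℚ) / d
      calc d ^ q * eval z (F.map (Int.castRingHom ℚ)) * (d ^ (12 * k - q) *
            eval z (G.map (Int.castRingHom ℚ))) = (d ^ q * d ^ (12 * k - q)) *
            (eval z (F.map (Int.castRingHom ℚ)) * eval z (G.map (Int.castRingHom ℚ))) := by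
            ring
        _ = d ^ (12 * k) * (4 * eval z (A.map (Int.castRingHom ℚ)) ^ 3 -
            27 * eval z (B.map (Int.castRingHom ℚ)) ^ 2) := by rw [e5, hmap]
        _ = 4 * (d ^ (12 * k) * eval z (A.map (Int.castRingHom ℚ)) ^ 3) -
            27 * (d ^ (12 * k) * eval z (B.map (Int.castRingHom ℚ)) ^ 2) := by ring
        _ = 4 * ((d ^ (4 * k)) ^ 3 * eval z (A.map (Int.castRingHom ℚ)) ^ 3) -
            27 * ((d ^ (6 * k)) ^ 2 * eval z (B.map (Int.castRingHom ℚ)) ^ 2) := by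
            rw [← e6, ← e7]
        _ = _ := by ring
    exact_mod_cast this
  have hdisc : 136048896 * W.Δ * (e : ℤ) ^ 12 = r ^ 12 * (4 * Ah ^ 3 - 27 * Bh ^ 2) := by
    have h1 : 4 * (27 * W.c₄) ^ 3 - 27 * (54 * W.c₆) ^ 2 = 136048896 * W.Δ := by
      linear_combination (-78732) * hrel
    rw [← h1]
    calc (4 * (27 * W.c₄) ^ 3 - 27 * (54 * W.c₆) ^ 2) * (e : ℤ) ^ 12 =
          4 * (27 * W.c₄ * (e : ℤ) ^ 4) ^ 3 - 27 * (54 * W.c₆ * (e : ℤ) ^ 6) ^ 2 := by ring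
      _ = 4 * (r ^ 4 * Ah) ^ 3 - 27 * (r ^ 6 * Bh) ^ 2 := by rw [ha, hb]
      _ = _ := by ring
  have he0 : (e : ℤ) ≠ 0 := by exact_mod_cast (by omega : e ≠ 0)
  have hD0 : 4 * Ah ^ 3 - 27 * Bh ^ 2 ≠ 0 := by
    intro h0
    rw [h0, mul_zero] at hdisc
    exact mul_ne_zero (mul_ne_zero (by norm_num) hΔ) (pow_ne_zero _ he0) hdisc
  rw [← hFGh] at hD0 hdisc
  have hF0 : hom F q x y ≠ 0 := left_ne_zero_of_mul hD0
  have hG0 : hom G (12 * k - q) x y ≠ 0 := right_ne_zero_of_mul hD0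
  have hrR : (1 : ℝ) ≤ |(r : ℝ)| := by exact_mod_cast Int.one_le_abs hr0
  have hrR6 : |(r : ℝ)| ≤ 6 := by exact_mod_cast hr6
  have heR : (1 : ℝ) ≤ e := by exact_mod_cast he1
  have heRM : (e : ℝ) ≤ M := by exact_mod_cast heM
  have hFle : |((hom F q x y : ℤ) : ℝ)| ≤ 136048896 * |(W.Δ : ℝ)| * (M : ℝ) ^ 12 := by
    have h1 := congrArg (fun z : ℤ => |(z : ℝ)|) hdisc
    push_cast at h1
    rw [abs_mul, abs_mul, abs_mul, abs_mul, abs_pow, abs_pow, Nat.abs_cast] at h1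
    have h2 : (1 : ℝ) ≤ |((hom G (12 * k - q) x y : ℤ) : ℝ)| := by
      exact_mod_cast Int.one_le_abs hG0
    have h3 : (1 : ℝ) ≤ |(r : ℝ)| ^ 12 := one_le_pow₀ hrR
    have h4 : (e : ℝ) ^ 12 ≤ (M : ℝ) ^ 12 := pow_le_pow_left₀ (by linarith) heRM 12
    have h5 : |(136048896 : ℝ)| = 136048896 := abs_of_pos (by norm_num)
    rw [h5] at h1
    calc |((hom F q x y : ℤ) : ℝ)| ≤ |((hom F q x y : ℤ) : ℝ)| *
          |((hom G (12 * k - q) x y : ℤ) : ℝ)| := le_mul_of_one_le_right (abs_nonneg _) h2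
      _ ≤ |(r : ℝ)| ^ 12 * (|((hom F q x y : ℤ) : ℝ)| *
          |((hom G (12 * k - q) x y : ℤ) : ℝ)|) :=
          le_mul_of_one_le_left (by positivity) h3
      _ = 136048896 * |(W.Δ : ℝ)| * (e : ℝ) ^ 12 := h1.symm
      _ ≤ _ := mul_le_mul_of_nonneg_left h4 (by positivity)
  have hY : max |(x : ℝ)| |(y : ℝ)| ≤ Q * |(W.Δ : ℝ)| := by
    refine (hsize x y hF0).trans ?_
    rw [hQ]
    calc K * |((hom F q x y : ℤ) : ℝ)| ≤ K * (136048896 * |(W.Δ : ℝ)| * (M : ℝ) ^ 12) :=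
          mul_le_mul_of_nonneg_left hFle (by linarith)
      _ = _ := by ring
  have hY0 : 0 ≤ max |(x : ℝ)| |(y : ℝ)| := le_max_of_le_left (abs_nonneg _)
  have hΔ1 : (1 : ℝ) ≤ |(W.Δ : ℝ)| := by exact_mod_cast Int.one_le_abs hΔ
  have hQΔ : 1 ≤ Q * |(W.Δ : ℝ)| := one_le_mul_of_one_le_of_one_le hQ1 hΔ1
  have hfin : ∀ (i : ℕ) (c : ℤ) (Ch : ℤ) (CC : ℝ), i ≤ 6 → 1 ≤ CC → CC ≤ CA + CB →
      c * (e : ℤ) ^ i = r ^ i * Ch → |(Ch : ℝ)| ≤ CC * (max |(x : ℝ)| |(y : ℝ)|) ^ (i * k) →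
      |(c : ℝ)| ≤ 6 ^ 6 * (CA + CB) * Q ^ (6 * k) * |(W.Δ : ℝ)| ^ (6 * k) := by
    intro i c Ch CC hi hCC hCC2 heq hCh
    have h1 : |(c : ℝ)| * (e : ℝ) ^ i = |(r : ℝ)| ^ i * |(Ch : ℝ)| := by
      have : (c : ℝ) * (e : ℝ) ^ i = (r : ℝ) ^ i * (Ch : ℝ) := by exact_mod_cast heq
      have h2 := congrArg abs this
      rw [abs_mul, abs_mul, abs_pow, abs_pow, Nat.abs_cast] at h2
      exact h2
    calc |(c : ℝ)| ≤ |(c : ℝ)| * (e : ℝ) ^ i :=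
          le_mul_of_one_le_right (abs_nonneg _) (one_le_pow₀ heR)
      _ = |(r : ℝ)| ^ i * |(Ch : ℝ)| := h1
      _ ≤ 6 ^ 6 * ((CA + CB) * (Q * |(W.Δ : ℝ)|) ^ (6 * k)) := by
          refine mul_le_mul ?_ ?_ (abs_nonneg _) (by norm_num)
          · calc |(r : ℝ)| ^ i ≤ |(r : ℝ)| ^ 6 := pow_le_pow_right₀ hrR hi
              _ ≤ 6 ^ 6 := pow_le_pow_left₀ (abs_nonneg _) hrR6 6
          · refine hCh.trans (mul_le_mul hCC2 ?_ (by positivity) (by linarith))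
            calc (max |(x : ℝ)| |(y : ℝ)|) ^ (i * k) ≤ (Q * |(W.Δ : ℝ)|) ^ (i * k) :=
                  pow_le_pow_left₀ hY0 hY _
              _ ≤ (Q * |(W.Δ : ℝ)|) ^ (6 * k) :=
                  pow_le_pow_right₀ hQΔ (Nat.mul_le_mul_right k hi)
      _ = _ := by rw [mul_pow]; ring
  exact ⟨hfin 4 _ Ah CA (by norm_num) hCA (by linarith) ha (hsA x y),
    hfin 6 _ Bh CB (by norm_num) hCB (by linarith) hb (hsB x y)⟩

theorem rad5_inv (W : WeierstrassCurve ℤ) (hΔ : W.Δ ≠ 0) :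
    4 * (27 * W.c₄) ^ 3 - 27 * (54 * W.c₆) ^ 2 = 136048896 * W.Δ ∧
    rad5 (4 * (27 * W.c₄) ^ 3 - 27 * (54 * W.c₆) ^ 2) ≤ ∏ p ∈ W.Δ.natAbs.primeFactors, p := by
  have h3 : 4 * (27 * W.c₄) ^ 3 - 27 * (54 * W.c₆) ^ 2 = 136048896 * W.Δ := by
    have := W.c_relation
    linear_combination (-78732) * this
  refine ⟨h3, ?_⟩
  rw [h3]
  unfold rad5
  have hsub : (136048896 * W.Δ).natAbs.primeFactors.filter (fun p => 5 ≤ p) ⊆
      W.Δ.natAbs.primeFactors := by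
    intro p hp
    obtain ⟨hp1, hp2⟩ := mem_filter.mp hp
    have hpp := Nat.prime_of_mem_primeFactors hp1
    have hd := Nat.dvd_of_mem_primeFactors hp1
    rw [Int.natAbs_mul] at hd
    rcases (Nat.Prime.dvd_mul hpp).mp hd with h | h
    · exfalso
      have h' : p ∣ 2 ^ 8 * 3 ^ 12 := by
        have e : (136048896 : ℤ).natAbs = 2 ^ 8 * 3 ^ 12 := by norm_num
        rwa [e] at h
      rcases (Nat.Prime.dvd_mul hpp).mp h' with h | h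
      · have := Nat.le_of_dvd (by norm_num) (hpp.dvd_of_dvd_pow h)
        omega
      · have := Nat.le_of_dvd (by norm_num) (hpp.dvd_of_dvd_pow h)
        omega
    · exact Nat.mem_primeFactors.mpr ⟨hpp, h, Int.natAbs_ne_zero.mpr hΔ⟩
  exact Finset.prod_le_prod_of_subset_of_one_le' hsub fun i hi _ =>
    (Nat.prime_of_mem_primeFactors hi).one_le

/-- few semistable members with a given bound for the conductor, the discriminant being at most a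
power of it -/
theorem up_semi (a1 a2 a3 : ℤ[X]) (k m : ℕ) (f : Fin m → ℤ[X]) (n : Fin m → ℕ)
    (hF : FamB (27 * c4p a1 a2 a3) (54 * c6p a1 a2 a3) k m f n) (T : Two m f n) (w L : ℕ)
    (hFam : Fam (27 * c4p a1 a2 a3) (54 * c6p a1 a2 a3) k w L) (κ ε : ℝ) (hκ : 0 ≤ κ)
    (hε : 0 < ε) :
    ∃ C : ℝ, 0 < C ∧ ∀ N : ℕ, 1 ≤ N → ∀ s : Finset (ℤ × ℤ),
      (∀ p ∈ s, ∃ W : WeierstrassCurve ℤ, W.Δ ≠ 0 ∧ IsCoprime W.c₄ W.Δ ∧
        (∃ (t : ℚ) (D : WeierstrassCurve.VariableChange ℚ),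
          D • crv a1 a2 a3 t = W.map (Int.castRingHom ℚ)) ∧ p = (W.c₄, W.c₆) ∧
        ∏ p ∈ W.Δ.natAbs.primeFactors, p ≤ N ∧ |(W.Δ : ℝ)| ≤ (N : ℝ) ^ κ) →
      (s.card : ℝ) ≤ C * (N : ℝ) ^ ((2 : ℝ) / (L + 2 * w) + ε) := by
  classical
  obtain ⟨C1, hC1, hsz⟩ := disc_size a1 a2 a3 k m f n hF T
  set E : ℝ := κ * (6 * k : ℕ) with hE
  have hE0 : 0 ≤ E := by positivity
  obtain ⟨C, hC, hcore⟩ := core _ _ k w L hFam 6 (ε / (E + 1)) (by positivity)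
  have hC10 : 0 < C1 := by linarith
  refine ⟨C * C1 ^ (ε / (E + 1)), by positivity, ?_⟩
  intro N hN s hs
  have hN1 : (1 : ℝ) ≤ N := by exact_mod_cast hN
  have hN0 : (0 : ℝ) < N := by linarith
  let φ : ℤ × ℤ → ℤ × ℤ := fun q => (27 * q.1, 54 * q.2)
  have hφ : Function.Injective φ := by
    rintro ⟨a, b⟩ ⟨a', b'⟩ hab
    simp only [φ, Prod.mk.injEq] at hab
    obtain ⟨h1, h2⟩ := hab
    ext
    · simp only; omega
    · simp only; omega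
  have hNE : 1 ≤ (N : ℝ) ^ E := Real.one_le_rpow hN1 hE0
  have h := hcore (C1 * (N : ℝ) ^ E) N (one_le_mul_of_one_le_of_one_le hC1 hNE) hN1
    (s.image φ) (by
      intro p hp
      obtain ⟨z, hz, rfl⟩ := mem_image.mp hp
      obtain ⟨W, hΔ, hco, ⟨t, D, hD⟩, rfl, hcond, hdd⟩ := hs z hz
      obtain ⟨h3, h4⟩ := rad5_inv W hΔ
      obtain ⟨h5, h6⟩ := hsz W hΔ hco ⟨t, D, hD⟩
      have hpow : |(W.Δ : ℝ)| ^ (6 * k) ≤ (N : ℝ) ^ E := by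
        rw [hE, Real.rpow_mul hN0.le, Real.rpow_natCast]
        exact pow_le_pow_left₀ (abs_nonneg _) hdd _
      refine ⟨?_, mem_inv a1 a2 a3 t D W hD, fun r g4 g6 => prim_of_coprime W hco r g4 g6, ?_, ?_, ?_⟩
      · change 4 * (27 * W.c₄) ^ 3 - 27 * (54 * W.c₆) ^ 2 ≠ 0
        rw [h3]
        exact mul_ne_zero (by norm_num) hΔ
      · exact h5.trans (mul_le_mul_of_nonneg_left hpow hC10.le)
      · exact h6.trans (mul_le_mul_of_nonneg_left hpow hC10.le)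
      · change (rad5 (4 * (27 * W.c₄) ^ 3 - 27 * (54 * W.c₆) ^ 2) : ℝ) ≤ N
        exact_mod_cast h4.trans hcond)
  rw [card_image_of_injective _ hφ] at h
  refine h.trans ?_
  have e1 : (C1 * (N : ℝ) ^ E) ^ (ε / (E + 1)) ≤ C1 ^ (ε / (E + 1)) * (N : ℝ) ^ ε := by
    rw [Real.mul_rpow hC10.le (by positivity), ← Real.rpow_mul hN0.le]
    refine mul_le_mul_of_nonneg_left ?_ (by positivity)
    refine Real.rpow_le_rpow_of_exponent_le hN1 ?_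
    rw [mul_div_assoc', div_le_iff₀ (by linarith)]
    nlinarith
  calc C * (C1 * (N : ℝ) ^ E) ^ (ε / (E + 1)) * (N : ℝ) ^ ((2 : ℝ) / (L + 2 * w)) ≤
        C * (C1 ^ (ε / (E + 1)) * (N : ℝ) ^ ε) * (N : ℝ) ^ ((2 : ℝ) / (L + 2 * w)) := by
        gcongr
    _ = C * C1 ^ (ε / (E + 1)) * ((N : ℝ) ^ ((2 : ℝ) / (L + 2 * w)) * (N : ℝ) ^ ε) := by ring
    _ = _ := by rw [← Real.rpow_add hN0]

end Pool.Agent.TH498.MT
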