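import Pool.Agent.TH498.MT.M5
import Pool.Agent.TH498.HF.K1
import Pool.Agent.TH498.HF.K2
import Pool.Agent.TH498.HF.K3
import Pool.Agent.TH498.HF.K4

/-!
# Three linear forms in Kubert's families
-/

set_option autoImplicit false

namespace Pool.Agent.TH498.MT

open Finset Polynomial Pool.Agent.TH498.HF

noncomputable def three_z6 : Three 4 f_z6 n_z6 where
  L := ⟨![1, 1, 9], ![0, 1, 1], by decide, by decide, by decide⟩
  j := ![0, 1, 2]
  hj := by decide
  hf := by intro i; fin_cases i <;> simp [f_z6]
  hn := by decide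

noncomputable def three_z7 : Three 4 f_z7 n_z7 where
  L := ⟨![1, 1, 0], ![0, -1, 1], by decide, by decide, by decide⟩
  j := ![0, 1, 2]
  hj := by decide
  hf := by intro i; fin_cases i <;> simp [f_z7, sub_eq_add_neg]
  hn := by decide

noncomputable def three_z8 : Three 5 f_z8 n_z8 where
  L := ⟨![1, 1, 2], ![0, -1, -1], by decide, by decide, by decide⟩
  j := ![0, 1, 2]
  hj := by decide
  hf := by intro i; fin_cases i <;> simp [f_z8, sub_eq_add_neg]
  hn := by decide

noncomputable def three_z9 : Three 5 f_z9 n_z9 where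
  L := ⟨![1, 1, 0], ![0, -1, 1], by decide, by decide, by decide⟩
  j := ![0, 1, 2]
  hj := by decide
  hf := by intro i; fin_cases i <;> simp [f_z9, sub_eq_add_neg]
  hn := by decide

noncomputable def three_z10 : Three 6 f_z10 n_z10 where
  L := ⟨![1, 1, 2], ![0, -1, -1], by decide, by decide, by decide⟩
  j := ![0, 1, 2]
  hj := by decide
  hf := by intro i; fin_cases i <;> simp [f_z10, sub_eq_add_neg]
  hn := by decide

noncomputable def three_z12 : Three 7 f_z12 n_z12 where
  L := ⟨![1, 1, 2], ![0, -1, -1], by decide, by decide, by decide⟩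
  j := ![0, 1, 2]
  hj := by decide
  hf := by intro i; fin_cases i <;> simp [f_z12, sub_eq_add_neg]
  hn := by decide

noncomputable def three_z2x4 : Three 4 f_z2x4 n_z2x4 where
  L := ⟨![1, 1, 1], ![0, -1, 1], by decide, by decide, by decide⟩
  j := ![0, 1, 2]
  hj := by decide
  hf := by intro i; fin_cases i <;> simp [f_z2x4, sub_eq_add_neg]
  hn := by decide

noncomputable def three_z2x6 : Three 6 f_z2x6 n_z2x6 where
  L := ⟨![1, 1, 1], ![-1, -3, 3], by decide, by decide, by decide⟩
  j := ![0, 1, 2]
  hj := by decide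
  hf := by intro i; fin_cases i <;> simp [f_z2x6, sub_eq_add_neg]
  hn := by decide

noncomputable def three_z2x8 : Three 7 f_z2x8 n_z2x8 where
  L := ⟨![1, 1, 2], ![0, 1, 1], by decide, by decide, by decide⟩
  j := ![0, 1, 2]
  hj := by decide
  hf := by intro i; fin_cases i <;> simp [f_z2x8, sub_eq_add_neg]
  hn := by decide

end Pool.Agent.TH498.MT
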