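import Pool.Agent.TH498.MT.S2
import Pool.Agent.TH498.MT.T3

/-!
# Semistable models in Kubert's families
-/

set_option autoImplicit false
set_option maxHeartbeats 4000000

namespace Pool.Agent.TH498.MT

open Finset Polynomial Pool.Agent.TH498.HF Pool.Agent.TH498.KB

/-- the case of a nodal fibre at `0` -/
noncomputable def Adapt.triv (a1 a2 a3 : ℤ[X]) (k : ℕ) (d1 : a1.natDegree ≤ k)
    (d2 : a2.natDegree ≤ 2 * k) (d3 : a3.natDegree ≤ 3 * k)
    (z1 : a1.coeff 0 = 1 ∨ a1.coeff 0 = -1) (z2 : a2.coeff 0 = 0) (z3 : a3.coeff 0 = 0) :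
    Adapt a1 a2 a3 k where
  b1 := a1
  b2 := a2
  b3 := a3
  α := 1
  β := 0
  u := 1
  hα := one_ne_zero
  hu := one_ne_zero
  e1 := by simp
  e2 := by simp
  e3 := by simp
  d1 := d1
  d2 := d2
  d3 := d3
  z1 := z1
  z2 := z2
  z3 := z3

noncomputable def ad_z5 : Adapt a1_z5 a2_z5 a3_z5 1 := Adapt.triv _ _ _ _
  (by unfold a1_z5; compute_degree) (by unfold a2_z5; compute_degree!)
  (by unfold a3_z5; compute_degree!) (by rw [coeff_zero_eq_eval_zero]; simp [a1_z5])
  (by rw [coeff_zero_eq_eval_zero]; simp [a2_z5]) (by rw [coeff_zero_eq_eval_zero]; simp [a3_z5])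

noncomputable def ad_z6 : Adapt a1_z6 a2_z6 a3_z6 1 := Adapt.triv _ _ _ _
  (by unfold a1_z6; compute_degree) (by unfold a2_z6; compute_degree!)
  (by unfold a3_z6; compute_degree!) (by rw [coeff_zero_eq_eval_zero]; simp [a1_z6])
  (by rw [coeff_zero_eq_eval_zero]; simp [a2_z6]) (by rw [coeff_zero_eq_eval_zero]; simp [a3_z6])

noncomputable def ad_z7 : Adapt a1_z7 a2_z7 a3_z7 2 := Adapt.triv _ _ _ _
  (by unfold a1_z7; compute_degree) (by unfold a2_z7; compute_degree!)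
  (by unfold a3_z7; compute_degree!) (by rw [coeff_zero_eq_eval_zero]; simp [a1_z7])
  (by rw [coeff_zero_eq_eval_zero]; simp [a2_z7]) (by rw [coeff_zero_eq_eval_zero]; simp [a3_z7])

noncomputable def ad_z8 : Adapt a1_z8 a2_z8 a3_z8 2 := Adapt.triv _ _ _ _
  (by unfold a1_z8; compute_degree!) (by unfold a2_z8; compute_degree!)
  (by unfold a3_z8; compute_degree!) (by rw [coeff_zero_eq_eval_zero]; simp [a1_z8])
  (by rw [coeff_zero_eq_eval_zero]; simp [a2_z8]) (by rw [coeff_zero_eq_eval_zero]; simp [a3_z8])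

noncomputable def ad_z9 : Adapt a1_z9 a2_z9 a3_z9 3 := Adapt.triv _ _ _ _
  (by unfold a1_z9; compute_degree!) (by unfold a2_z9; compute_degree!)
  (by unfold a3_z9; compute_degree!) (by rw [coeff_zero_eq_eval_zero]; simp [a1_z9])
  (by rw [coeff_zero_eq_eval_zero]; simp [a2_z9]) (by rw [coeff_zero_eq_eval_zero]; simp [a3_z9])

noncomputable def ad_z10 : Adapt a1_z10 a2_z10 a3_z10 3 := Adapt.triv _ _ _ _
  (by unfold a1_z10; compute_degree!) (by unfold a2_z10; compute_degree!)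
  (by unfold a3_z10; compute_degree!) (by rw [coeff_zero_eq_eval_zero]; simp [a1_z10])
  (by rw [coeff_zero_eq_eval_zero]; simp [a2_z10])
  (by rw [coeff_zero_eq_eval_zero]; simp [a3_z10])

noncomputable def ad_z12 : Adapt a1_z12 a2_z12 a3_z12 4 := Adapt.triv _ _ _ _
  (by unfold a1_z12; compute_degree!) (by unfold a2_z12; compute_degree!)
  (by unfold a3_z12; compute_degree!) (by rw [coeff_zero_eq_eval_zero]; simp [a1_z12])
  (by rw [coeff_zero_eq_eval_zero]; simp [a2_z12])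
  (by rw [coeff_zero_eq_eval_zero]; simp [a3_z12])

noncomputable def ad_z2x8 : Adapt a1_z2x8 a2_z2x8 a3_z2x8 4 := Adapt.triv _ _ _ _
  (by unfold a1_z2x8; compute_degree!) (by unfold a2_z2x8; compute_degree!)
  (by unfold a3_z2x8; compute_degree!) (by rw [coeff_zero_eq_eval_zero]; simp [a1_z2x8])
  (by rw [coeff_zero_eq_eval_zero]; simp [a2_z2x8])
  (by rw [coeff_zero_eq_eval_zero]; simp [a3_z2x8])

noncomputable def ad_z2x4 : Adapt a1_z2x4 a2_z2x4 a3_z2x4 1 where
  b1 := 1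
  b2 := -(2 * X + 16 * X ^ 2)
  b3 := -(2 * X + 16 * X ^ 2)
  α := 16
  β := 1
  u := 4
  hα := by norm_num
  hu := by norm_num
  e1 := by simp [a1_z2x4]
  e2 := by simp [a2_z2x4]; ring
  e3 := by simp [a3_z2x4]; ring
  d1 := by simp
  d2 := by compute_degree!
  d3 := by compute_degree!
  z1 := by simp
  z2 := by rw [coeff_zero_eq_eval_zero]; simp
  z3 := by rw [coeff_zero_eq_eval_zero]; simp

noncomputable def ad_z2x6 : Adapt a1_z2x6 a2_z2x6 a3_z2x6 2 where
  b1 := 1 + 12 * X + 16 * X ^ 2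
  b2 := 2 * X * (1 + 4 * X) ^ 2
  b3 := 2 * X * (1 + 4 * X) ^ 2 * (1 + 2 * X) * (1 + 8 * X)
  α := 16
  β := 5
  u := 16
  hα := by norm_num
  hu := by norm_num
  e1 := by simp [a1_z2x6]; ring
  e2 := by simp [a2_z2x6]; ring
  e3 := by simp [a3_z2x6]; ring
  d1 := by compute_degree!
  d2 := by compute_degree!
  d3 := by compute_degree!
  z1 := by rw [coeff_zero_eq_eval_zero]; simp
  z2 := by rw [coeff_zero_eq_eval_zero]; simp
  z3 := by rw [coeff_zero_eq_eval_zero]; simp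

/-- two of the forms are linear -/
structure Two (m : ℕ) (f : Fin m → ℤ[X]) (n : Fin m → ℕ) where
  u : Fin 2 → ℤ
  w : Fin 2 → ℤ
  j : Fin 2 → Fin m
  hj : j 0 ≠ j 1
  hf : ∀ i, f (j i) = C (u i) * X + C (w i)
  hn : ∀ i, n (j i) = 1
  hdet : u 0 * w 1 - u 1 * w 0 ≠ 0

noncomputable def Three.two {m : ℕ} {f : Fin m → ℤ[X]} {n : Fin m → ℕ} (T : Three m f n) :
    Two m f n where
  u := ![T.L.u 0, T.L.u 1]
  w := ![T.L.w 0, T.L.w 1]
  j := ![T.j 0, T.j 1]
  hj := fun h => by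
    have := T.hj h
    exact absurd this (by decide)
  hf := by intro i; fin_cases i <;> simp [T.hf]
  hn := by intro i; fin_cases i <;> simp [T.hn]
  hdet := by simpa using T.L.r01

noncomputable def two_z5 : Two 3 f_z5 n_z5 where
  u := ![1, 0]
  w := ![0, 1]
  j := ![0, 1]
  hj := by decide
  hf := by intro i; fin_cases i <;> simp [f_z5]
  hn := by decide
  hdet := by simp

end Pool.Agent.TH498.MT
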